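import Pool.Agent.Lib.LipThree.Base

/-! MP_31d174_an (LipThree): ConA -/

set_option autoImplicit false

open scoped BigOperators
open Matrix

namespace Pool.Agent.LipThree

variable {H : Type*} [NormedAddCommGroup H] [InnerProductSpace ℝ H]

theorem con_mono {κ κ' : ℝ} {T : Fin 3 → H} (h : κ' ≤ κ) (hT : Con κ T) : Con κ' T := by
  intro v
  refine (hT v).trans ?_
  exact mul_le_mul_of_nonneg_right (by linarith) (norm_nonneg v)

theorem con_norm_le {T : Fin 3 → H} (hT : Con 0 T) (i : Fin 3) : ‖T i‖ ≤ 1 := by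
  have h := hT (EuclideanSpace.single i (1 : ℝ))
  have h1 : ∑ j, (EuclideanSpace.single i (1 : ℝ)) j • T j = T i := by
    rw [Finset.sum_eq_single i]
    · simp
    · intro j _ hj
      simp [hj]
    · simp
  rw [h1] at h
  simpa using h

private theorem conA_norm_sq (v : EuclideanSpace ℝ (Fin 3)) :
    ‖v‖ ^ 2 = v 0 ^ 2 + v 1 ^ 2 + v 2 ^ 2 := by
  rw [EuclideanSpace.norm_sq_eq, Fin.sum_univ_three]
  simp only [Real.norm_eq_abs, sq_abs]

/-- `∑ |v i| e ≤ √3 e ‖v‖ ≤ 2 e ‖v‖`. -/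
theorem con_perturb {κ e : ℝ} {T τ : Fin 3 → H} (hT : Con κ T) (hτ : ∀ i, ‖τ i‖ ≤ e) :
    Con (κ - 2 * e) (T + τ) := by
  intro v
  have he : 0 ≤ e := (norm_nonneg _).trans (hτ 0)
  have h0 : ∑ i, v i • (T + τ) i = (∑ i, v i • T i) + ∑ i, v i • τ i := by
    rw [← Finset.sum_add_distrib]
    refine Finset.sum_congr rfl fun i _ => ?_
    rw [Pi.add_apply, smul_add]
  have h1 : ‖∑ i, v i • τ i‖ ≤ 2 * e * ‖v‖ := by
    have h2 : ‖∑ i, v i • τ i‖ ≤ ∑ i, |v i| * e := by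
      refine (norm_sum_le _ _).trans (Finset.sum_le_sum fun i _ => ?_)
      rw [norm_smul, Real.norm_eq_abs]
      exact mul_le_mul_of_nonneg_left (hτ i) (abs_nonneg _)
    rw [← Finset.sum_mul, Fin.sum_univ_three (f := fun i => |v i|)] at h2
    have h3 : |v 0| + |v 1| + |v 2| ≤ 2 * ‖v‖ := by
      have h4 := conA_norm_sq v
      have h5 : (|v 0| + |v 1| + |v 2|) ^ 2 ≤ (2 * ‖v‖) ^ 2 := by
        have e0 := sq_abs (v 0)
        have e1 := sq_abs (v 1)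
        have e2 := sq_abs (v 2)
        nlinarith [sq_nonneg (|v 0| - |v 1|), sq_nonneg (|v 0| - |v 2|),
          sq_nonneg (|v 1| - |v 2|), sq_nonneg (v 0), sq_nonneg (v 1), sq_nonneg (v 2)]
      exact le_of_sq_le_sq h5 (by positivity)
    calc ‖∑ i, v i • τ i‖ ≤ (|v 0| + |v 1| + |v 2|) * e := h2
      _ ≤ (2 * ‖v‖) * e := mul_le_mul_of_nonneg_right h3 he
      _ = 2 * e * ‖v‖ := by ring
  rw [h0]
  calc _ ≤ ‖∑ i, v i • T i‖ + ‖∑ i, v i • τ i‖ := norm_add_le _ _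
    _ ≤ (1 - κ) * ‖v‖ + 2 * e * ‖v‖ := add_le_add (hT v) h1
    _ = (1 - (κ - 2 * e)) * ‖v‖ := by ring

/-- the map `q ↦ ∑ q i • T i` in terms of plain functions. -/
theorem con_Q {T : Fin 3 → H} (hT : Con 0 T) (q : Fin 3 → ℝ) :
    ‖∑ i, q i • T i‖ ^ 2 ≤ ∑ i, q i ^ 2 := by
  have h := hT (WithLp.toLp 2 q)
  rw [sub_zero, one_mul] at h
  have h1 : ‖(WithLp.toLp 2 q : EuclideanSpace ℝ (Fin 3))‖ ^ 2 = ∑ i, q i ^ 2 := by
    rw [EuclideanSpace.norm_sq_eq]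
    simp only [Real.norm_eq_abs, sq_abs]
  rw [← h1]
  exact pow_le_pow_left₀ (norm_nonneg _) h 2

/-- the adjoint is a contraction as well. -/
theorem con_q {T : Fin 3 → H} (hT : Con 0 T) (x : H) :
    ∑ k, (qv T x k) ^ 2 ≤ ‖x‖ ^ 2 := by
  set S : ℝ := ∑ k, (qv T x k) ^ 2 with hS
  have hS0 : 0 ≤ S := Finset.sum_nonneg fun k _ => sq_nonneg _
  have h1 : S = inner ℝ (∑ k, qv T x k • T k) x := by
    rw [sum_inner]
    refine Finset.sum_congr rfl fun k _ => ?_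
    rw [real_inner_smul_left, sq]
    rfl
  have h2 := con_Q hT (qv T x)
  rw [← hS] at h2
  have h3 : S ≤ ‖∑ k, qv T x k • T k‖ * ‖x‖ := by
    rw [h1]
    exact real_inner_le_norm _ _
  have h4 : S ^ 2 ≤ S * ‖x‖ ^ 2 := by
    calc S ^ 2 ≤ (‖∑ k, qv T x k • T k‖ * ‖x‖) ^ 2 := pow_le_pow_left₀ hS0 h3 2
      _ = ‖∑ k, qv T x k • T k‖ ^ 2 * ‖x‖ ^ 2 := by ring
      _ ≤ S * ‖x‖ ^ 2 := mul_le_mul_of_nonneg_right h2 (by positivity)
  rcases hS0.eq_or_lt with h5 | h5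
  · rw [← h5]
    positivity
  · rw [sq] at h4
    exact le_of_mul_le_mul_left h4 h5

theorem gm_entry {T : Fin 3 → H} (hT : Con 0 T) (i j : Fin 3) : |gm T i j| ≤ 1 := by
  have h1 : |inner ℝ (T i) (T j)| ≤ ‖T i‖ * ‖T j‖ := abs_real_inner_le_norm _ _
  have h2 := con_norm_le hT i
  have h3 := con_norm_le hT j
  show |inner ℝ (T i) (T j)| ≤ 1
  nlinarith [norm_nonneg (T i), norm_nonneg (T j)]

theorem one_sub_gm_entry {T : Fin 3 → H} (hT : Con 0 T) (i j : Fin 3) :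
    |(1 - gm T) i j| ≤ 1 := by
  have h1 := gm_entry hT i j
  rw [Matrix.sub_apply]
  by_cases hij : i = j
  · subst hij
    rw [Matrix.one_apply_eq]
    have h2 : 0 ≤ gm T i i := by
      show 0 ≤ inner ℝ (T i) (T i)
      exact real_inner_self_nonneg
    rw [abs_le] at h1 ⊢
    constructor <;> linarith
  · rw [Matrix.one_apply_ne hij, zero_sub, abs_neg]
    exact h1

end Pool.Agent.LipThree
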