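import Pool.Agent.Lib.LipThree.Base
import Pool.Agent.Lib.LipThree.ConA

/-! MP_31d174_an (LipThree): BAlgA -/

set_option autoImplicit false

open scoped BigOperators
open Matrix

namespace Pool.Agent.LipThree

variable {H : Type*} [NormedAddCommGroup H] [InnerProductSpace ℝ H]

theorem Bm_mul_gm (T : Fin 3 → H) : Bm T * gm T = Dl T • (1 - gm T) := by
  rw [Bm, sub_mul, adjugate_mul, smul_mul_assoc, one_mul, smul_sub]
  rfl

theorem adj_Bm_gm (T : Fin 3 → H) :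
    adjugate (1 - gm T) * Bm T * gm T = (Dd T * Dl T) • (1 : Matrix (Fin 3) (Fin 3) ℝ) := by
  rw [mul_assoc, Bm_mul_gm, mul_smul_comm, adjugate_mul, smul_smul, mul_comm]
  rfl

private theorem bAlgA_Bm (T : Fin 3 → H) : Bm T = (1 - gm T) * adjugate (gm T) := by
  rw [sub_mul, one_mul, mul_adjugate]
  rfl

/-- use `Bm T = (1 - gm T) * adjugate (gm T)`. -/
theorem gm_adj_Bm (T : Fin 3 → H) :
    gm T * adjugate (1 - gm T) * Bm T = (Dd T * Dl T) • (1 : Matrix (Fin 3) (Fin 3) ℝ) := by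
  rw [bAlgA_Bm, mul_assoc, ← mul_assoc (adjugate (1 - gm T)), adjugate_mul, smul_mul_assoc,
    one_mul, mul_smul_comm, mul_adjugate, smul_smul]
  rfl

private theorem bAlgA_two {a b c d : ℝ} (ha : |a| ≤ 1) (hb : |b| ≤ 1) (hc : |c| ≤ 1)
    (hd : |d| ≤ 1) : |a * b - c * d| ≤ 2 ∧ |-(a * b) + c * d| ≤ 2 := by
  have h1 : |a * b| ≤ 1 := by
    rw [abs_mul]
    exact mul_le_one₀ ha (abs_nonneg _) hb
  have h2 : |c * d| ≤ 1 := by
    rw [abs_mul]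
    exact mul_le_one₀ hc (abs_nonneg _) hd
  rw [abs_le] at h1 h2
  constructor <;> rw [abs_le] <;> constructor <;> linarith [h1.1, h1.2, h2.1, h2.2]

private theorem bAlgA_three {a b c : ℝ} (ha : |a| ≤ 1) (hb : |b| ≤ 1) (hc : |c| ≤ 1) :
    |a * b * c| ≤ 1 := by
  rw [abs_mul, abs_mul]
  exact mul_le_one₀ (mul_le_one₀ ha (abs_nonneg _) hb) (abs_nonneg _) hc

private theorem bAlgA_adj {A : Matrix (Fin 3) (Fin 3) ℝ} (h : ∀ i j, |A i j| ≤ 1) (i j : Fin 3) :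
    |adjugate A i j| ≤ 2 := by
  rw [Matrix.adjugate_fin_three]
  fin_cases i <;> fin_cases j
  · exact (bAlgA_two (h 1 1) (h 2 2) (h 1 2) (h 2 1)).1
  · exact (bAlgA_two (h 0 1) (h 2 2) (h 0 2) (h 2 1)).2
  · exact (bAlgA_two (h 0 1) (h 1 2) (h 0 2) (h 1 1)).1
  · exact (bAlgA_two (h 1 0) (h 2 2) (h 1 2) (h 2 0)).2
  · exact (bAlgA_two (h 0 0) (h 2 2) (h 0 2) (h 2 0)).1
  · exact (bAlgA_two (h 0 0) (h 1 2) (h 0 2) (h 1 0)).2
  · exact (bAlgA_two (h 1 0) (h 2 1) (h 1 1) (h 2 0)).1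
  · exact (bAlgA_two (h 0 0) (h 2 1) (h 0 1) (h 2 0)).2
  · exact (bAlgA_two (h 0 0) (h 1 1) (h 0 1) (h 1 0)).1

private theorem bAlgA_det {A : Matrix (Fin 3) (Fin 3) ℝ} (h : ∀ i j, |A i j| ≤ 1) :
    |A.det| ≤ 6 := by
  rw [Matrix.det_fin_three]
  have p1 := bAlgA_three (h 0 0) (h 1 1) (h 2 2)
  have p2 := bAlgA_three (h 0 0) (h 1 2) (h 2 1)
  have p3 := bAlgA_three (h 0 1) (h 1 0) (h 2 2)
  have p4 := bAlgA_three (h 0 1) (h 1 2) (h 2 0)
  have p5 := bAlgA_three (h 0 2) (h 1 0) (h 2 1)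
  have p6 := bAlgA_three (h 0 2) (h 1 1) (h 2 0)
  rw [abs_le] at p1 p2 p3 p4 p5 p6 ⊢
  constructor <;> linarith [p1.1, p1.2, p2.1, p2.2, p3.1, p3.2, p4.1, p4.2, p5.1, p5.2, p6.1,
    p6.2]

theorem Bm_entry {T : Fin 3 → H} (hT : Con 0 T) (i j : Fin 3) : |Bm T i j| ≤ 8 := by
  have h1 := bAlgA_adj (gm_entry hT) i j
  have h2 : |Dl T| ≤ 6 := bAlgA_det (gm_entry hT)
  have h3 : |(Dl T • (1 : Matrix (Fin 3) (Fin 3) ℝ)) i j| ≤ 6 := by
    rw [Matrix.smul_apply, smul_eq_mul]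
    by_cases hij : i = j
    · subst hij
      rw [Matrix.one_apply_eq, mul_one]
      exact h2
    · rw [Matrix.one_apply_ne hij, mul_zero, abs_zero]
      norm_num
  rw [Bm, Matrix.sub_apply]
  have := abs_sub (adjugate (gm T) i j) ((Dl T • (1 : Matrix (Fin 3) (Fin 3) ℝ)) i j)
  linarith

/-- lower bound of the coordinates on `spn T`: with `u = ∑ v i • T i`, `qv T u = gm T v`,
`Δ v = adj G (G v)`, entries of `adj G` are `≤ 2`. -/
theorem qv_lower {T : Fin 3 → H} (hT : Con 0 T) {u : H} (hu : u ∈ spn T) :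
    (Dl T / 6) ^ 2 * ‖u‖ ^ 2 ≤ ∑ k, (qv T u k) ^ 2 := by
  obtain ⟨v, rfl⟩ := (Submodule.mem_span_range_iff_exists_fun ℝ).mp hu
  have h1 : ‖∑ i, v i • T i‖ ^ 2 ≤ ∑ i, v i ^ 2 := con_Q hT v
  set g : Fin 3 → ℝ := qv T (∑ i, v i • T i) with hg
  have hgv : g = (gm T).mulVec v := by
    funext k
    rw [hg]
    show inner ℝ (T k) (∑ i, v i • T i) = _
    rw [inner_sum, Matrix.mulVec, dotProduct]
    refine Finset.sum_congr rfl fun i _ => ?_
    rw [real_inner_smul_right, mul_comm]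
    rfl
  have h2 : Dl T • v = (adjugate (gm T)).mulVec g := by
    rw [hgv, Matrix.mulVec_mulVec, adjugate_mul, Matrix.smul_mulVec, Matrix.one_mulVec]
    rfl
  have h3 : ∀ i, |Dl T * v i| ≤ 2 * (|g 0| + |g 1| + |g 2|) := by
    intro i
    have h4 : Dl T * v i = (adjugate (gm T)).mulVec g i := by
      rw [← h2]
      rfl
    have h5 : (adjugate (gm T)).mulVec g i =
        adjugate (gm T) i 0 * g 0 + adjugate (gm T) i 1 * g 1 + adjugate (gm T) i 2 * g 2 := by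
      rw [Matrix.mulVec, dotProduct, Fin.sum_univ_three]
    rw [h4, h5]
    have t : ∀ k, |adjugate (gm T) i k * g k| ≤ 2 * |g k| := by
      intro k
      rw [abs_mul]
      exact mul_le_mul_of_nonneg_right (bAlgA_adj (gm_entry hT) i k) (abs_nonneg _)
    have := abs_add_three (adjugate (gm T) i 0 * g 0) (adjugate (gm T) i 1 * g 1)
      (adjugate (gm T) i 2 * g 2)
    linarith [t 0, t 1, t 2]
  have h6 : ∀ i, (Dl T * v i) ^ 2 ≤ 12 * ∑ k, g k ^ 2 := by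
    intro i
    have h7 : (Dl T * v i) ^ 2 ≤ (2 * (|g 0| + |g 1| + |g 2|)) ^ 2 := by
      rw [← sq_abs]
      exact pow_le_pow_left₀ (abs_nonneg _) (h3 i) 2
    have e0 := sq_abs (g 0)
    have e1 := sq_abs (g 1)
    have e2 := sq_abs (g 2)
    rw [Fin.sum_univ_three]
    nlinarith [sq_nonneg (|g 0| - |g 1|), sq_nonneg (|g 0| - |g 2|), sq_nonneg (|g 1| - |g 2|)]
  have h8 : Dl T ^ 2 * ∑ i, v i ^ 2 ≤ 36 * ∑ k, g k ^ 2 := by
    rw [Fin.sum_univ_three (f := fun i => v i ^ 2)]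
    have := h6 0
    have := h6 1
    have := h6 2
    nlinarith
  have h9 : Dl T ^ 2 * ‖∑ i, v i • T i‖ ^ 2 ≤ 36 * ∑ k, g k ^ 2 :=
    (mul_le_mul_of_nonneg_left h1 (sq_nonneg _)).trans h8
  have h10 : (Dl T / 6) ^ 2 * ‖∑ i, v i • T i‖ ^ 2 =
      (Dl T ^ 2 * ‖∑ i, v i • T i‖ ^ 2) / 36 := by ring
  rw [h10]
  linarith

end Pool.Agent.LipThree
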