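import Pool.Agent.Lib.LipThree.Base

/-! MP_31d174_an (LipThree): GradA -/

set_option autoImplicit false

open scoped BigOperators
open Matrix

namespace Pool.Agent.LipThree

variable {H : Type*} [NormedAddCommGroup H] [InnerProductSpace ℝ H]

theorem uv_mem (T : Fin 3 → H) (x : H) : uv T x ∈ spn T :=
  (spn T).starProjection_apply_mem x

theorem inner_yv (T : Fin 3 → H) (x : H) (i : Fin 3) : inner ℝ (T i) (yv T x) = 0 := by
  rw [real_inner_comm]
  exact (spn T).starProjection_inner_eq_zero x (T i)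
    (Submodule.subset_span (Set.mem_range_self i))

theorem uv_add_yv (T : Fin 3 → H) (x : H) : uv T x + yv T x = x := by
  unfold yv
  abel

theorem norm_sq_uv_yv (T : Fin 3 → H) (x : H) : ‖x‖ ^ 2 = ‖uv T x‖ ^ 2 + ‖yv T x‖ ^ 2 := by
  have h : inner ℝ (uv T x) (yv T x) = 0 := by
    rw [real_inner_comm]
    exact (spn T).starProjection_inner_eq_zero x (uv T x) (uv_mem T x)
  have h2 := norm_add_sq_real (uv T x) (yv T x)
  rw [uv_add_yv, h] at h2
  linarith

theorem yv_sub (T : Fin 3 → H) (x x' : H) : yv T (x - x') = yv T x - yv T x' := by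
  unfold yv uv
  rw [map_sub]
  abel

theorem yv_add (T : Fin 3 → H) (x x' : H) : yv T (x + x') = yv T x + yv T x' := by
  unfold yv uv
  rw [map_add]
  abel

theorem yv_smul (T : Fin 3 → H) (r : ℝ) (x : H) : yv T (r • x) = r • yv T x := by
  unfold yv uv
  rw [map_smul, smul_sub]

theorem uv_sub (T : Fin 3 → H) (x x' : H) : uv T (x - x') = uv T x - uv T x' := by
  unfold uv
  rw [map_sub]

theorem uv_of_mem (T : Fin 3 → H) {x : H} (hx : x ∈ spn T) : uv T x = x :=
  Submodule.starProjection_eq_self_iff.2 hx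

theorem yv_of_mem (T : Fin 3 → H) {x : H} (hx : x ∈ spn T) : yv T x = 0 := by
  unfold yv
  rw [uv_of_mem T hx, sub_self]

theorem yv_of_orth (T : Fin 3 → H) {x : H} (hx : x ∈ (spn T)ᗮ) : yv T x = x := by
  have h : uv T x = 0 := ((spn T).starProjection_apply_eq_zero_iff).2 hx
  unfold yv
  rw [h, sub_zero]

theorem norm_yv_le (T : Fin 3 → H) (x : H) : ‖yv T x‖ ≤ ‖x‖ := by
  have h := norm_sq_uv_yv T x
  refine abs_le_of_sq_le_sq' ?_ (norm_nonneg x) |>.2
  nlinarith [sq_nonneg ‖uv T x‖]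

theorem norm_uv_le (T : Fin 3 → H) (x : H) : ‖uv T x‖ ≤ ‖x‖ := by
  have h := norm_sq_uv_yv T x
  refine abs_le_of_sq_le_sq' ?_ (norm_nonneg x) |>.2
  nlinarith [sq_nonneg ‖yv T x‖]

theorem qv_uv (T : Fin 3 → H) (x : H) (k : Fin 3) : qv T (uv T x) k = qv T x k := by
  unfold qv
  have h : inner ℝ (T k) x = inner ℝ (T k) (uv T x + yv T x) := by rw [uv_add_yv]
  rw [h, inner_add_right, inner_yv, add_zero]

end Pool.Agent.LipThree
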