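import Pool.Agent.Lib.LipThree.Base
import Pool.Agent.Lib.LipThree.BAlgA
import Pool.Agent.Lib.LipThree.GradA

/-! MP_31d174_an (LipThree): BAlgB -/

set_option autoImplicit false

open scoped BigOperators
open Matrix

namespace Pool.Agent.LipThree

variable {H : Type*} [NormedAddCommGroup H] [InnerProductSpace ℝ H]

private theorem bAlgB_tr {A B G : Matrix (Fin 3) (Fin 3) ℝ} (hG : ∀ i j, G i j = G j i) :
    ∑ i, ∑ j, A i j * (∑ k, B j k * G i k) = (A * B * G).trace := by
  rw [Matrix.trace]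
  refine Finset.sum_congr rfl fun i _ => ?_
  rw [Matrix.diag_apply, Matrix.mul_apply]
  simp only [Matrix.mul_apply, Finset.sum_mul, Finset.mul_sum]
  rw [Finset.sum_comm]
  refine Finset.sum_congr rfl fun k _ => Finset.sum_congr rfl fun j _ => ?_
  rw [hG i k, mul_assoc]

private theorem bAlgB_quad {A B G : Matrix (Fin 3) (Fin 3) ℝ} (hG : ∀ i j, G i j = G j i)
    (q : Fin 3 → ℝ) :
    ∑ i, ∑ j, A i j * (B.mulVec q j * (∑ k, q k * G i k)) = q ⬝ᵥ ((G * A * B).mulVec q) := by
  have h1 : ∀ i, ∑ k, q k * G i k = (G.mulVec q) i := by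
    intro i
    rw [Matrix.mulVec, dotProduct]
    exact Finset.sum_congr rfl fun k _ => mul_comm _ _
  have h2 : q ⬝ᵥ ((G * A * B).mulVec q) = (G.mulVec q) ⬝ᵥ ((A * B).mulVec q) := by
    rw [Matrix.mul_assoc, ← Matrix.mulVec_mulVec, Matrix.dotProduct_mulVec]
    congr 1
    funext i
    rw [Matrix.vecMul, Matrix.mulVec, dotProduct, dotProduct]
    exact Finset.sum_congr rfl fun k _ => by rw [hG i k, mul_comm]
  rw [h2, dotProduct]
  refine Finset.sum_congr rfl fun i _ => ?_
  have h3 : (A.mulVec (B.mulVec q)) i = ∑ j, A i j * (B.mulVec q) j := rfl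
  rw [← Matrix.mulVec_mulVec, h3, Finset.mul_sum]
  refine Finset.sum_congr rfl fun j _ => ?_
  rw [h1 i]
  ring

private theorem bAlgB_lin (A X Y : Fin 3 → Fin 3 → ℝ) (a u v : ℝ) :
    ∑ i, ∑ j, A i j * (-(a * (u * X i j + v * Y i j))) =
      -(a * (u * (∑ i, ∑ j, A i j * X i j) + v * (∑ i, ∑ j, A i j * Y i j))) := by
  simp only [Fin.sum_univ_three]
  ring

/-- first order term of the potential along the gradient of the B bump
(`Y = yv T x` is orthogonal to all `T i`). -/
theorem first_order (a : ℝ) (T : Fin 3 → H) (x : H) :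
    ∑ i, ∑ j, adjugate (1 - gm T) i j * inner ℝ (T i) (tauB a T x j)
      = -(a * (Dd T * Dl T) * ((cm (yv T x)) ^ 2 * (rq T x) ^ 2 * (3 + ∑ k, (qv T x k) ^ 2))) := by
  have hG : ∀ i j, gm T i j = gm T j i := fun i j => real_inner_comm _ _
  set q : Fin 3 → ℝ := qv T x with hq
  set c : ℝ := cm (yv T x) with hc
  set r : ℝ := rq T x with hr
  have hr1 : r * (1 + ∑ k, q k ^ 2) = 1 := by
    rw [hr, rq, ← hq]
    apply inv_mul_cancel₀
    have : 0 ≤ ∑ k, q k ^ 2 := Finset.sum_nonneg fun k _ => sq_nonneg _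
    linarith
  have h1 : ∀ i j, inner ℝ (T i) (tauB a T x j) = -(a * (c ^ 2 * r * (∑ k, Bm T j k * gm T i k)
      + -2 * c ^ 2 * r ^ 2 * ((Bm T).mulVec q j * (∑ k, q k * gm T i k)))) := by
    intro i j
    rw [tauB, ← hq, ← hc, ← hr, inner_neg_right, real_inner_smul_right, inner_add_right,
      inner_add_right, real_inner_smul_right, real_inner_smul_right, real_inner_smul_right,
      inner_yv, inner_sum, inner_sum]
    simp only [real_inner_smul_right]
    have e : ∀ k, inner ℝ (T i) (T k) = gm T i k := fun k => rfl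
    simp only [e]
    ring
  have h2 : ∑ i, ∑ j, adjugate (1 - gm T) i j * inner ℝ (T i) (tauB a T x j) =
      -(a * (c ^ 2 * r * (∑ i, ∑ j, adjugate (1 - gm T) i j * (∑ k, Bm T j k * gm T i k))
        + -2 * c ^ 2 * r ^ 2 * (∑ i, ∑ j, adjugate (1 - gm T) i j *
          ((Bm T).mulVec q j * (∑ k, q k * gm T i k))))) := by
    simp only [h1]
    exact bAlgB_lin (fun i j => adjugate (1 - gm T) i j) (fun i j => ∑ k, Bm T j k * gm T i k)
      (fun i j => (Bm T).mulVec q j * (∑ k, q k * gm T i k)) a (c ^ 2 * r)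
      (-2 * c ^ 2 * r ^ 2)
  rw [h2, bAlgB_tr hG, bAlgB_quad hG, adj_Bm_gm, gm_adj_Bm, Matrix.trace_smul, Matrix.trace_one,
    Matrix.smul_mulVec, Matrix.one_mulVec, dotProduct_smul, dotProduct]
  have h3 : ∑ i, q i * q i = ∑ k, q k ^ 2 := Finset.sum_congr rfl fun k _ => (sq _).symm
  rw [h3]
  simp only [Fintype.card_fin, smul_eq_mul]
  push_cast
  generalize (∑ k, q k ^ 2) = s at hr1 ⊢
  linear_combination (-3 * a * Dd T * Dl T * c ^ 2 * r) * (-hr1)

end Pool.Agent.LipThree
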