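/-
MP_31d174_an : definitions for the construction of a Lipschitz map `ℓ² → ℝ³` which is nowhere
Fréchet differentiable (negation of the problem, S04268).
-/
import Mathlib

set_option autoImplicit false

open scoped BigOperators
open Matrix

namespace Pool.Agent.LipThree

section defs

variable {H : Type*} [NormedAddCommGroup H] [InnerProductSpace ℝ H]

/-- Gram matrix of three vectors. -/
noncomputable def gm (T : Fin 3 → H) : Matrix (Fin 3) (Fin 3) ℝ :=
  Matrix.of fun i j => inner ℝ (T i) (T j)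

/-- the potential `det (1 - T T*)`. -/
noncomputable def Dd (T : Fin 3 → H) : ℝ := (1 - gm T).det

/-- `det (T T*)`. -/
noncomputable def Dl (T : Fin 3 → H) : ℝ := (gm T).det

/-- `v ↦ ∑ v i • T i` is a contraction with margin `κ`. -/
def Con (κ : ℝ) (T : Fin 3 → H) : Prop :=
  ∀ v : EuclideanSpace ℝ (Fin 3), ‖∑ i, v i • T i‖ ≤ (1 - κ) * ‖v‖

/-- the threshold (values in `[1/192, 3/192]`, period 4). -/
noncomputable def thr (t : ℝ) : ℝ := (2 + Real.cos (Real.pi * t / 2)) / 192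

/-- the span of the three vectors. -/
def spn (T : Fin 3 → H) : Submodule ℝ H := Submodule.span ℝ (Set.range T)

instance instFinSpn (T : Fin 3 → H) : FiniteDimensional ℝ (spn T) := by
  unfold spn
  exact FiniteDimensional.span_of_finite ℝ (Set.finite_range T)

/-- coordinates `⟪T k, x⟫`. -/
noncomputable def qv (T : Fin 3 → H) (x : H) : Fin 3 → ℝ := fun k => inner ℝ (T k) x

/-- component of `x` in `spn T`. -/
noncomputable def uv (T : Fin 3 → H) (x : H) : H := (spn T).starProjection x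

/-- component of `x` orthogonal to `spn T`. -/
noncomputable def yv (T : Fin 3 → H) (x : H) : H := x - uv T x

/-- cutoff. -/
noncomputable def cm (y : H) : ℝ := max 0 (1 - 16 * ‖y‖ ^ 2)

/-- `1/(1+|u|^2)`. -/
noncomputable def ra (u : H) : ℝ := (1 + ‖u‖ ^ 2)⁻¹

/-- `1/(1+|q|^2)` with `q = qv T x`. -/
noncomputable def rq (T : Fin 3 → H) (x : H) : ℝ := (1 + ∑ k, (qv T x k) ^ 2)⁻¹

/-- the matrix `adj G - Δ 1`. -/
noncomputable def Bm (T : Fin 3 → H) : Matrix (Fin 3) (Fin 3) ℝ :=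
  adjugate (gm T) - Dl T • (1 : Matrix (Fin 3) (Fin 3) ℝ)

/-- bump of type B with amplitude `a`. -/
noncomputable def phiB (a : ℝ) (T : Fin 3 → H) (j : Fin 3) (x : H) : ℝ :=
  -(a * ((cm (yv T x)) ^ 2 * rq T x * (Bm T).mulVec (qv T x) j))

/-- its gradient. -/
noncomputable def tauB (a : ℝ) (T : Fin 3 → H) (x : H) (j : Fin 3) : H :=
  -(a • (((cm (yv T x)) ^ 2 * rq T x) • (∑ k, Bm T j k • T k)
    + (-64 * cm (yv T x) * rq T x * (Bm T).mulVec (qv T x) j) • yv T x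
    + (-2 * (cm (yv T x)) ^ 2 * (rq T x) ^ 2 * (Bm T).mulVec (qv T x) j) • (∑ k, qv T x k • T k)))

/-- bump of type C in the direction `w` with (small) inverse length `r`. -/
noncomputable def phiC (w : EuclideanSpace ℝ (Fin 3)) (r : ℝ) (T : Fin 3 → H) (j : Fin 3) (x : H) : ℝ :=
  w j / 64 * ((cm (yv T x)) ^ 2 * ra (r • uv T x))

/-- its gradient. -/
noncomputable def tauC (w : EuclideanSpace ℝ (Fin 3)) (r : ℝ) (T : Fin 3 → H) (x : H) (j : Fin 3) : H :=
  (w j / 64) • ((-64 * cm (yv T x) * ra (r • uv T x)) • yv T x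
    + (-2 * (cm (yv T x)) ^ 2 * (ra (r • uv T x)) ^ 2 * r ^ 2) • uv T x)

/-- what we need to know about a bump (at unit scale, centred at `0`) adapted to `T`. -/
structure GoodBump (K R δ : ℝ) (T : Fin 3 → H) (φ : Fin 3 → H → ℝ) (τ : H → Fin 3 → H) : Prop where
  grad : ∀ i x, HasFDerivAt (φ i) (innerSL ℝ (τ x i)) x
  supp : ∀ x, 1 / 4 ≤ ‖yv T x‖ → (∀ i, φ i x = 0) ∧ τ x = 0
  lip : ∀ x x', ‖τ x - τ x'‖ ≤ K * ‖x - x'‖
  bphi : ∀ i x, |φ i x| ≤ 1
  far : ∀ x, R ≤ ‖x‖ → ‖τ x‖ ≤ δ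
  con : ∀ x, Con (Dd T / 8) (T + τ x)

/-- a stage of the construction. -/
structure IsStage (n : ℕ) (f : Fin 3 → H → ℝ) (T : H → Fin 3 → H) (t : H → ℝ) : Prop where
  grad : ∀ i x, HasFDerivAt (f i) (innerSL ℝ (T x i)) x
  ucT : UniformContinuous T
  uct : UniformContinuous t
  con : ∀ x, Con 0 (T x)
  t0 : ∀ x, 0 ≤ t x
  tn : ∀ x, t x ≤ n
  pot : ∃ η > 0, ∀ x, Real.exp (-t x) / 2 + η ≤ Dd (T x)

end defs

end Pool.Agent.LipThree
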