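import Pool.Agent.Lib.LipThree.Base

/-! MP_31d174_an (LipThree): CutA -/

set_option autoImplicit false

open scoped BigOperators
open Matrix

namespace Pool.Agent.LipThree

variable {H : Type*} [NormedAddCommGroup H] [InnerProductSpace ℝ H]

theorem cm_nonneg (y : H) : 0 ≤ cm y := le_max_left _ _

theorem cm_le_one (y : H) : cm y ≤ 1 := by
  refine max_le (by norm_num) ?_
  have := sq_nonneg ‖y‖
  linarith

theorem cm_zero : cm (0 : H) = 1 := by
  simp [cm]

theorem cm_eq_zero {y : H} (h : 1 / 4 ≤ ‖y‖) : cm y = 0 := by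
  refine max_eq_left ?_
  nlinarith

private theorem cutA_pos {y : H} (h : ‖y‖ < 1 / 4) : cm y = 1 - 16 * ‖y‖ ^ 2 := by
  refine max_eq_right ?_
  nlinarith [norm_nonneg y]

theorem cm_norm_le (y : H) : cm y * ‖y‖ ≤ 1 / 4 := by
  rcases le_or_gt (1 / 4) ‖y‖ with h | h
  · rw [cm_eq_zero h, zero_mul]
    norm_num
  · have := cm_le_one y
    have := cm_nonneg y
    nlinarith [norm_nonneg y]

/-- on the support `‖y‖ ≤ 1/4`. -/
theorem cm_sq_norm_sq_le (y : H) : (cm y) ^ 2 * ‖y‖ ^ 2 ≤ (cm y) ^ 2 / 16 := by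
  rcases le_or_gt (1 / 4) ‖y‖ with h | h
  · rw [cm_eq_zero h]
    norm_num
  · have h1 : ‖y‖ ^ 2 ≤ 1 / 16 := by nlinarith [norm_nonneg y]
    nlinarith [sq_nonneg (cm y)]

theorem cm_lip (y y' : H) : |cm y - cm y'| ≤ 8 * ‖y - y'‖ := by
  have h0 : |‖y‖ - ‖y'‖| ≤ ‖y - y'‖ := abs_norm_sub_norm_le y y'
  rw [abs_le] at h0
  have n1 := norm_nonneg y
  have n2 := norm_nonneg y'
  rw [abs_le]
  rcases le_or_gt (1 / 4) ‖y‖ with h | h <;> rcases le_or_gt (1 / 4) ‖y'‖ with h' | h'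
  · rw [cm_eq_zero h, cm_eq_zero h']
    constructor <;> nlinarith [norm_nonneg (y - y')]
  · rw [cm_eq_zero h, cutA_pos h']
    constructor <;> nlinarith [norm_nonneg (y - y')]
  · rw [cutA_pos h, cm_eq_zero h']
    constructor <;> nlinarith [norm_nonneg (y - y')]
  · rw [cutA_pos h, cutA_pos h']
    constructor <;> nlinarith [norm_nonneg (y - y')]

private theorem cutA_cmv_aux {y y' : H} (h : ‖y‖ ≤ 1 / 4) :
    ‖cm y • y - cm y' • y'‖ ≤ 3 * ‖y - y'‖ := by
  have e : cm y • y - cm y' • y' = (cm y - cm y') • y + cm y' • (y - y') := by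
    rw [sub_smul, smul_sub]
    abel
  rw [e]
  refine (norm_add_le _ _).trans ?_
  rw [norm_smul, norm_smul, Real.norm_eq_abs, Real.norm_eq_abs, abs_of_nonneg (cm_nonneg y')]
  have h1 := cm_lip y y'
  have h2 := cm_le_one y'
  have h3 := cm_nonneg y'
  have h4 : |cm y - cm y'| * ‖y‖ ≤ 8 * ‖y - y'‖ * (1 / 4) :=
    mul_le_mul h1 h (norm_nonneg _) (by positivity)
  have h5 : cm y' * ‖y - y'‖ ≤ 1 * ‖y - y'‖ := mul_le_mul_of_nonneg_right h2 (norm_nonneg _)
  linarith

theorem cmv_lip (y y' : H) : ‖cm y • y - cm y' • y'‖ ≤ 3 * ‖y - y'‖ := by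
  rcases le_or_gt ‖y‖ (1 / 4) with h | h
  · exact cutA_cmv_aux h
  · rcases le_or_gt ‖y'‖ (1 / 4) with h' | h'
    · rw [norm_sub_rev, norm_sub_rev y y']
      exact cutA_cmv_aux h'
    · rw [cm_eq_zero h.le, cm_eq_zero h'.le, zero_smul, zero_smul, sub_zero, norm_zero]
      positivity

private theorem cutA_max_sq (r : ℝ) :
    HasDerivAt (fun r : ℝ => (max 0 r) ^ 2) (2 * max 0 r) r := by
  rcases lt_trichotomy r 0 with h | h | h
  · have h1 : (fun r : ℝ => (max 0 r) ^ 2) =ᶠ[nhds r] fun _ => 0 := by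
      filter_upwards [Iio_mem_nhds h] with s hs
      rw [max_eq_left (le_of_lt hs)]
      norm_num
    rw [max_eq_left h.le, mul_zero]
    exact (hasDerivAt_const r (0 : ℝ)).congr_of_eventuallyEq h1
  · subst h
    rw [max_self, mul_zero, hasDerivAt_iff_isLittleO_nhds_zero]
    have h1 : (fun h : ℝ => (max 0 (0 + h)) ^ 2 - (max 0 0) ^ 2 - h • (0 : ℝ)) =O[nhds 0]
        fun h : ℝ => h ^ 2 := by
      refine Asymptotics.IsBigO.of_bound 1 (Filter.Eventually.of_forall fun s => ?_)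
      simp only [zero_add, max_self, smul_zero, sub_zero, one_mul]
      have h2 : (0 : ℝ) ^ 2 = 0 := by norm_num
      rw [h2, sub_zero, Real.norm_eq_abs, Real.norm_eq_abs, abs_of_nonneg (sq_nonneg _),
        abs_of_nonneg (sq_nonneg _)]
      rcases le_total 0 s with h3 | h3
      · rw [max_eq_right h3]
      · rw [max_eq_left h3]
        nlinarith [sq_nonneg s]
    have h2 : (fun h : ℝ => h ^ 2) =o[nhds 0] fun h : ℝ => h :=
      Asymptotics.isLittleO_pow_id (by norm_num)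
    exact h1.trans_isLittleO h2
  · have h1 : (fun r : ℝ => (max 0 r) ^ 2) =ᶠ[nhds r] fun s => s ^ 2 := by
      filter_upwards [Ioi_mem_nhds h] with s hs
      rw [max_eq_right (le_of_lt hs)]
    rw [max_eq_right h.le]
    have h2 := (hasDerivAt_pow 2 r).congr_of_eventuallyEq h1
    simpa using h2

/-- `r ↦ (max 0 r)²` is differentiable with derivative `2 max 0 r`. -/
theorem cm_sq_hasFDerivAt (y : H) :
    HasFDerivAt (fun y : H => (cm y) ^ 2) (innerSL ℝ ((-64 * cm y) • y)) y := by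
  have h1 : HasFDerivAt (fun y : H => 1 - 16 * ‖y‖ ^ 2) (-(16 : ℝ) • (2 • innerSL ℝ y)) y := by
    have h2 := ((hasStrictFDerivAt_norm_sq (F := H) y).hasFDerivAt.const_mul (16 : ℝ)).const_sub 1
    refine h2.congr_fderiv ?_
    rw [neg_smul]
  have h3 := (cutA_max_sq (1 - 16 * ‖y‖ ^ 2)).comp_hasFDerivAt y h1
  refine h3.congr_fderiv ?_
  ext w
  simp only [_root_.smul_apply, smul_eq_mul, innerSL_apply_apply, nsmul_eq_mul]
  rw [real_inner_smul_left]
  have e : max 0 (1 - 16 * ‖y‖ ^ 2) = cm y := rfl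
  rw [e]
  push_cast
  ring

end Pool.Agent.LipThree
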