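import Pool.Agent.Lib.LipThree.Base
import Pool.Agent.Lib.LipThree.ConA
import Pool.Agent.Lib.LipThree.BAlgA
import Pool.Agent.Lib.LipThree.CutA
import Pool.Agent.Lib.LipThree.GradA

/-! MP_31d174_an (LipThree): BoundBA -/

set_option autoImplicit false

open scoped BigOperators
open Matrix

namespace Pool.Agent.LipThree

variable {H : Type*} [NormedAddCommGroup H] [InnerProductSpace ℝ H]


private lemma S_nonneg (T : Fin 3 → H) (x : H) : 0 ≤ ∑ k, (qv T x k) ^ 2 :=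
  Finset.sum_nonneg fun k _ => sq_nonneg _

private lemma rq_pos' (T : Fin 3 → H) (x : H) : 0 < rq T x := by
  unfold rq
  have := S_nonneg T x
  positivity

private lemma rq_mul' (T : Fin 3 → H) (x : H) : rq T x * (1 + ∑ k, (qv T x k) ^ 2) = 1 := by
  unfold rq
  have := S_nonneg T x
  field_simp

/-- `|(B q)_j| ≤ 14 |q|`. -/
private lemma mj_sq {T : Fin 3 → H} (hT : Con 0 T) (j : Fin 3) (x : H) :
    ((Bm T).mulVec (qv T x) j) ^ 2 ≤ 192 * ∑ k, (qv T x k) ^ 2 := by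
  have h1 : ((Bm T).mulVec (qv T x) j) ^ 2 ≤ (∑ k, Bm T j k ^ 2) * ∑ k, (qv T x k) ^ 2 := by
    rw [Matrix.mulVec, dotProduct]
    exact Finset.sum_mul_sq_le_sq_mul_sq _ _ _
  have h2 : (∑ k, Bm T j k ^ 2) ≤ 192 := by
    have : ∀ k ∈ (Finset.univ : Finset (Fin 3)), Bm T j k ^ 2 ≤ 64 := by
      intro k _
      have := Bm_entry hT j k
      have h8 := abs_nonneg (Bm T j k)
      rw [← sq_abs]
      nlinarith
    have h3 := Finset.sum_le_sum this
    simp at h3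
    linarith
  calc _ ≤ _ := h1
    _ ≤ _ := mul_le_mul_of_nonneg_right h2 (S_nonneg T x)

/-- `|(B q)_j|² ≤ 192 |q|²`, `|q|²/(1+|q|²)² ≤ 1/4`. -/
theorem phiB_abs {T : Fin 3 → H} (hT : Con 0 T) {a : ℝ} (ha : 0 ≤ a) (j : Fin 3) (x : H) :
    |phiB a T j x| ≤ 10 * a := by
  have hm := mj_sq hT j x
  have hS := S_nonneg T x
  have hr := rq_pos' T x
  have hrS := rq_mul' T x
  have hc0 := cm_nonneg (yv T x)
  have hc1 := cm_le_one (yv T x)
  have hk : |(cm (yv T x)) ^ 2 * rq T x * (Bm T).mulVec (qv T x) j| ≤ 10 := by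
    apply abs_le_of_sq_le_sq _ (by norm_num)
    have h1 : (rq T x * (Bm T).mulVec (qv T x) j) ^ 2 ≤ 48 := by
      rw [mul_pow]
      have h2 : rq T x ^ 2 * (∑ k, (qv T x k) ^ 2) ≤ 1 / 4 := by
        have h3 : 0 ≤ (rq T x - rq T x * ∑ k, (qv T x k) ^ 2) ^ 2 := sq_nonneg _
        have h4 : (rq T x + rq T x * ∑ k, (qv T x k) ^ 2) ^ 2 = 1 := by
          have : rq T x + rq T x * ∑ k, (qv T x k) ^ 2 = 1 := by linarith
          rw [this]; norm_num
        nlinarith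
      calc rq T x ^ 2 * ((Bm T).mulVec (qv T x) j) ^ 2
          ≤ rq T x ^ 2 * (192 * ∑ k, (qv T x k) ^ 2) :=
            mul_le_mul_of_nonneg_left hm (sq_nonneg _)
        _ ≤ 48 := by linarith
    have h5 : (cm (yv T x)) ^ 2 ≤ 1 := by nlinarith
    have h6 : ((cm (yv T x)) ^ 2) ^ 2 ≤ 1 := by nlinarith [sq_nonneg (cm (yv T x))]
    calc ((cm (yv T x)) ^ 2 * rq T x * (Bm T).mulVec (qv T x) j) ^ 2
        = ((cm (yv T x)) ^ 2) ^ 2 * (rq T x * (Bm T).mulVec (qv T x) j) ^ 2 := by ring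
      _ ≤ 1 * 48 := mul_le_mul h6 h1 (sq_nonneg _) (by norm_num)
      _ ≤ 10 ^ 2 := by norm_num
  unfold phiB
  rw [abs_neg, abs_mul, abs_of_nonneg ha]
  nlinarith

/-- With `W = cm² rq`: the three terms of `tauB` are bounded by `24 W`, `14 |q| · 64 cm |y| rq`
and `28 W`; everything is `≤ C √W` because `cm |y| ≤ cm/4`, `|q|² rq ≤ 1`, `W ≤ 1`. -/
theorem tauB_norm_sq {T : Fin 3 → H} (hT : Con 0 T) {a : ℝ} (ha : 0 ≤ a) (x : H) (j : Fin 3) :
    ‖tauB a T x j‖ ^ 2 ≤ 10 ^ 6 * a ^ 2 * ((cm (yv T x)) ^ 2 * rq T x) := by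
  have hm := mj_sq hT j x
  have hS := S_nonneg T x
  have hr := rq_pos' T x
  have hrS := rq_mul' T x
  have hc0 := cm_nonneg (yv T x)
  have hc1 := cm_le_one (yv T x)
  have hcy := cm_sq_norm_sq_le (yv T x)
  have hQ2 := con_Q hT (qv T x)
  set S := ∑ k, (qv T x k) ^ 2 with hSdef
  set r := rq T x with hrdef
  set c := cm (yv T x) with hcdef
  set m := (Bm T).mulVec (qv T x) j with hmdef
  set y := yv T x with hydef
  have hrS0 : 0 ≤ r * S := mul_nonneg hr.le hS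
  have hr1 : r ≤ 1 := by nlinarith
  -- square roots
  have hsr0 : 0 ≤ Real.sqrt r := Real.sqrt_nonneg _
  have hsS0 : 0 ≤ Real.sqrt S := Real.sqrt_nonneg _
  have hsr : Real.sqrt r ^ 2 = r := Real.sq_sqrt hr.le
  have hsS : Real.sqrt S ^ 2 = S := Real.sq_sqrt hS
  have hsr1 : Real.sqrt r ≤ 1 := by
    rw [show (1 : ℝ) = Real.sqrt 1 by simp]; exact Real.sqrt_le_sqrt hr1
  have hrsS : Real.sqrt r * Real.sqrt S ≤ 1 := by
    apply abs_le_of_sq_le_sq' _ (by norm_num) |>.2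
    rw [mul_pow, hsr, hsS]
    nlinarith
  have hm' : |m| ≤ 14 * Real.sqrt S := by
    apply abs_le_of_sq_le_sq _ (by positivity)
    rw [mul_pow, hsS]
    nlinarith
  have hQ : ‖∑ k, qv T x k • T k‖ ≤ Real.sqrt S := by
    apply abs_le_of_sq_le_sq' _ hsS0 |>.2
    rw [hsS]; exact hQ2
  have hV : ‖∑ k, Bm T j k • T k‖ ≤ 24 := by
    have h1 : ‖∑ k, Bm T j k • T k‖ ≤ ∑ k, ‖Bm T j k • T k‖ := norm_sum_le _ _
    have h2 : ∀ k ∈ (Finset.univ : Finset (Fin 3)), ‖Bm T j k • T k‖ ≤ 8 := by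
      intro k _
      rw [norm_smul, Real.norm_eq_abs]
      have h3 := Bm_entry hT j k
      have h4 := con_norm_le hT k
      have h5 := norm_nonneg (T k)
      have h6 := abs_nonneg (Bm T j k)
      nlinarith
    have h3 := Finset.sum_le_sum h2
    simp at h3
    linarith
  have hcy' : c * ‖y‖ ≤ c / 4 := by
    apply abs_le_of_sq_le_sq' _ (by positivity) |>.2
    rw [mul_pow]
    have : (c / 4) ^ 2 = c ^ 2 / 16 := by ring
    rw [this]; exact hcy
  set w := c * Real.sqrt r with hw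
  have hw0 : 0 ≤ w := mul_nonneg hc0 hsr0
  have hw1 : w ≤ 1 := by
    rw [hw]
    nlinarith
  have hww : w ^ 2 = c ^ 2 * r := by rw [hw, mul_pow, hsr]
  -- term 1
  have t1 : ‖(c ^ 2 * r) • (∑ k, Bm T j k • T k)‖ ≤ 24 * w := by
    rw [norm_smul, Real.norm_eq_abs, abs_of_nonneg (by positivity), ← hww]
    have : w ^ 2 ≤ w := by nlinarith
    have h0 := norm_nonneg (∑ k, Bm T j k • T k)
    nlinarith [sq_nonneg w]
  -- term 2
  have t2 : ‖(-64 * c * r * m) • y‖ ≤ 224 * w := by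
    rw [norm_smul, Real.norm_eq_abs, abs_mul, abs_mul, abs_mul, abs_of_nonneg hc0,
      abs_of_nonneg hr.le]
    have h64 : |(-64 : ℝ)| = 64 := by norm_num
    rw [h64]
    have e1 : 64 * c * r * |m| * ‖y‖ = 64 * (c * ‖y‖) * (r * |m|) := by ring
    rw [e1]
    have e2 : r * |m| ≤ r * (14 * Real.sqrt S) := mul_le_mul_of_nonneg_left hm' hr.le
    have e3 : r * (14 * Real.sqrt S) = 14 * Real.sqrt r * (Real.sqrt r * Real.sqrt S) := by
      nth_rewrite 1 [← hsr]; ring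
    have e4 : r * (14 * Real.sqrt S) ≤ 14 * Real.sqrt r := by
      rw [e3]
      have : 14 * Real.sqrt r * (Real.sqrt r * Real.sqrt S) ≤ 14 * Real.sqrt r * 1 :=
        mul_le_mul_of_nonneg_left hrsS (by positivity)
      linarith
    have e5 : 0 ≤ r * |m| := by positivity
    have e6 : 64 * (c * ‖y‖) ≤ 16 * c := by linarith
    calc 64 * (c * ‖y‖) * (r * |m|) ≤ 16 * c * (r * |m|) :=
          mul_le_mul_of_nonneg_right e6 e5
      _ ≤ 16 * c * (14 * Real.sqrt r) :=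
          mul_le_mul_of_nonneg_left (e2.trans e4) (by positivity)
      _ = 224 * w := by rw [hw]; ring
  -- term 3
  have t3 : ‖(-2 * c ^ 2 * r ^ 2 * m) • (∑ k, qv T x k • T k)‖ ≤ 28 * w := by
    rw [norm_smul, Real.norm_eq_abs, abs_mul, abs_mul, abs_mul, abs_of_nonneg (sq_nonneg c),
      abs_of_nonneg (sq_nonneg r)]
    have h2 : |(-2 : ℝ)| = 2 := by norm_num
    rw [h2]
    have e1 : |m| * ‖∑ k, qv T x k • T k‖ ≤ 14 * Real.sqrt S * Real.sqrt S :=
      mul_le_mul hm' hQ (norm_nonneg _) (by positivity)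
    have e2 : 14 * Real.sqrt S * Real.sqrt S = 14 * S := by
      nth_rewrite 3 [← hsS]; ring
    rw [e2] at e1
    have e3 : r ^ 2 * (|m| * ‖∑ k, qv T x k • T k‖) ≤ 14 * r := by
      calc r ^ 2 * (|m| * ‖∑ k, qv T x k • T k‖) ≤ r ^ 2 * (14 * S) :=
            mul_le_mul_of_nonneg_left e1 (sq_nonneg _)
        _ = 14 * r * (r * S) := by ring
        _ ≤ 14 * r * 1 := mul_le_mul_of_nonneg_left (by nlinarith) (by positivity)
        _ = 14 * r := by ring
    calc 2 * c ^ 2 * r ^ 2 * |m| * ‖∑ k, qv T x k • T k‖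
        = 2 * c ^ 2 * (r ^ 2 * (|m| * ‖∑ k, qv T x k • T k‖)) := by ring
      _ ≤ 2 * c ^ 2 * (14 * r) := mul_le_mul_of_nonneg_left e3 (by positivity)
      _ = 28 * w ^ 2 := by rw [hww]; ring
      _ ≤ 28 * w := by nlinarith
  have tot : ‖tauB a T x j‖ ≤ a * (276 * w) := by
    unfold tauB
    rw [norm_neg, norm_smul, Real.norm_eq_abs, abs_of_nonneg ha]
    refine mul_le_mul_of_nonneg_left ?_ ha
    refine (norm_add₃_le).trans ?_
    linarith
  calc ‖tauB a T x j‖ ^ 2 ≤ (a * (276 * w)) ^ 2 :=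
        pow_le_pow_left₀ (norm_nonneg _) tot 2
    _ = 76176 * a ^ 2 * (c ^ 2 * r) := by rw [mul_pow, mul_pow, hww]; ring
    _ ≤ 10 ^ 6 * a ^ 2 * (c ^ 2 * r) := by
      have : 0 ≤ a ^ 2 * (c ^ 2 * r) := by positivity
      nlinarith

end Pool.Agent.LipThree
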