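import Pool.Agent.Lib.LipThree.Base

/-! MP_31d174_an (LipThree): CutB -/

set_option autoImplicit false

open scoped BigOperators
open Matrix

namespace Pool.Agent.LipThree

variable {H : Type*} [NormedAddCommGroup H] [InnerProductSpace ℝ H]

theorem ra_pos (u : H) : 0 < ra u := by
  unfold ra
  positivity

theorem ra_le_one (u : H) : ra u ≤ 1 := by
  unfold ra
  apply inv_le_one_of_one_le₀
  nlinarith [sq_nonneg ‖u‖]

theorem ra_norm_le (u : H) : ra u * ‖u‖ ≤ 1 / 2 := by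
  unfold ra
  rw [inv_mul_le_iff₀ (by positivity)]
  nlinarith [sq_nonneg (‖u‖ - 1)]

private theorem cutb_abs (u u' : H) (c : ℝ) (hc : 0 ≤ c)
    (h : (‖u‖ + ‖u'‖) * c ≤ (1 + ‖u‖ ^ 2) * (1 + ‖u'‖ ^ 2)) :
    |ra u - ra u'| * c ≤ ‖u - u'‖ := by
  have h1 : ra u - ra u' = (‖u'‖ - ‖u‖) * (‖u‖ + ‖u'‖) / ((1 + ‖u‖ ^ 2) * (1 + ‖u'‖ ^ 2)) := by
    unfold ra
    have ha : (1 + ‖u‖ ^ 2) ≠ 0 := by positivity
    have hb : (1 + ‖u'‖ ^ 2) ≠ 0 := by positivity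
    field_simp
    ring
  have hp : 0 < (1 + ‖u‖ ^ 2) * (1 + ‖u'‖ ^ 2) := by positivity
  rw [h1, abs_div, abs_mul, abs_of_pos hp, abs_of_nonneg (by positivity : 0 ≤ ‖u‖ + ‖u'‖),
    div_mul_eq_mul_div, div_le_iff₀ hp, mul_assoc]
  have h2 : |‖u'‖ - ‖u‖| ≤ ‖u - u'‖ := by
    rw [abs_sub_comm]
    exact abs_norm_sub_norm_le u u'
  exact mul_le_mul h2 h (by positivity) (norm_nonneg _)

theorem ra_lip (u u' : H) : |ra u - ra u'| ≤ ‖u - u'‖ := by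
  have := cutb_abs u u' 1 zero_le_one (by
    nlinarith [sq_nonneg (‖u‖ - 1), sq_nonneg (‖u'‖ - 1), mul_nonneg (sq_nonneg ‖u‖) (sq_nonneg ‖u'‖)])
  simpa using this

theorem rav_lip (u u' : H) : ‖ra u • u - ra u' • u'‖ ≤ 3 * ‖u - u'‖ := by
  have h1 : ra u • u - ra u' • u' = ra u • (u - u') + (ra u - ra u') • u' := by
    rw [smul_sub, sub_smul]
    abel
  have h2 := cutb_abs u u' ‖u'‖ (norm_nonneg _) (by
    nlinarith [sq_nonneg (‖u‖ * ‖u'‖ - 1), sq_nonneg (‖u‖), mul_nonneg (norm_nonneg u) (norm_nonneg u')])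
  calc ‖ra u • u - ra u' • u'‖ = ‖ra u • (u - u') + (ra u - ra u') • u'‖ := by rw [h1]
    _ ≤ ‖ra u • (u - u')‖ + ‖(ra u - ra u') • u'‖ := norm_add_le _ _
    _ = ra u * ‖u - u'‖ + |ra u - ra u'| * ‖u'‖ := by
      rw [norm_smul, norm_smul, Real.norm_eq_abs, Real.norm_eq_abs, abs_of_pos (ra_pos u)]
    _ ≤ 1 * ‖u - u'‖ + ‖u - u'‖ := by
      apply add_le_add _ h2
      exact mul_le_mul_of_nonneg_right (ra_le_one u) (norm_nonneg _)
    _ ≤ 3 * ‖u - u'‖ := by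
      have := norm_nonneg (u - u')
      linarith

theorem ra_hasFDerivAt (u : H) :
    HasFDerivAt (fun u : H => ra u) (innerSL ℝ ((-2 * (ra u) ^ 2) • u)) u := by
  have h1 : HasFDerivAt (fun x : H => 1 + ‖x‖ ^ 2) (2 • innerSL ℝ u) u :=
    ((hasStrictFDerivAt_norm_sq u).hasFDerivAt).const_add 1
  have hne : (1 + ‖u‖ ^ 2) ≠ 0 := by positivity
  have h2 : HasFDerivAt (fun x : H => (1 + ‖x‖ ^ 2)⁻¹)
      ((-((1 + ‖u‖ ^ 2) ^ 2)⁻¹) • (2 • innerSL ℝ u)) u :=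
    (hasDerivAt_inv hne).comp_hasFDerivAt u h1
  refine h2.congr_fderiv ?_
  ext v
  simp only [ContinuousLinearMap.smul_apply, innerSL_apply_apply, smul_eq_mul, inner_smul_left, ra,
    nsmul_eq_mul]
  simp
  ring

end Pool.Agent.LipThree
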