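import Pool.Agent.Lib.LipThree.Base
import Pool.Agent.Lib.LipThree.ConA
import Pool.Agent.Lib.LipThree.BAlgA
import Pool.Agent.Lib.LipThree.CutA
import Pool.Agent.Lib.LipThree.CutB
import Pool.Agent.Lib.LipThree.GradA

/-! MP_31d174_an (LipThree): BoundBB -/

set_option autoImplicit false

open scoped BigOperators
open Matrix

namespace Pool.Agent.LipThree

variable {H : Type*} [NormedAddCommGroup H] [InnerProductSpace ℝ H]

/-- bounded and Lipschitz with the same constant -/
private def BLc {E : Type*} [NormedAddCommGroup E] (K : ℝ) (f : H → E) : Prop :=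
  (∀ x, ‖f x‖ ≤ K) ∧ ∀ x x', ‖f x - f x'‖ ≤ K * ‖x - x'‖

private lemma BLc.nonneg {E : Type*} [NormedAddCommGroup E] {K : ℝ} {f : H → E}
    (hf : BLc K f) : 0 ≤ K := (norm_nonneg _).trans (hf.1 0)

private lemma BLc.mono {E : Type*} [NormedAddCommGroup E] {K L : ℝ} {f : H → E}
    (hf : BLc K f) (h : K ≤ L) : BLc L f :=
  ⟨fun x => (hf.1 x).trans h,
    fun x x' => (hf.2 x x').trans (mul_le_mul_of_nonneg_right h (norm_nonneg _))⟩

private lemma BLc.smul {E : Type*} [NormedAddCommGroup E] [NormedSpace ℝ E] {K L : ℝ}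
    {f : H → ℝ} {g : H → E} (hf : BLc K f) (hg : BLc L g) :
    BLc (2 * K * L) (fun x => f x • g x) := by
  have hK := hf.nonneg
  have hL := hg.nonneg
  constructor
  · intro x
    rw [norm_smul]
    have := mul_le_mul (hf.1 x) (hg.1 x) (norm_nonneg _) hK
    nlinarith [mul_nonneg hK hL]
  · intro x x'
    have e : f x • g x - f x' • g x' = (f x - f x') • g x + f x' • (g x - g x') := by
      rw [sub_smul, smul_sub]; abel
    rw [e]
    refine (norm_add_le _ _).trans ?_
    rw [norm_smul, norm_smul]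
    have h1 : ‖f x - f x'‖ * ‖g x‖ ≤ (K * ‖x - x'‖) * L :=
      mul_le_mul (hf.2 x x') (hg.1 x) (norm_nonneg _) (mul_nonneg hK (norm_nonneg _))
    have h2 : ‖f x'‖ * ‖g x - g x'‖ ≤ K * (L * ‖x - x'‖) :=
      mul_le_mul (hf.1 x') (hg.2 x x') (norm_nonneg _) hK
    linarith

private lemma BLc.add {E : Type*} [NormedAddCommGroup E] {K L : ℝ}
    {f g : H → E} (hf : BLc K f) (hg : BLc L g) : BLc (K + L) (fun x => f x + g x) := by
  constructor
  · intro x
    exact (norm_add_le _ _).trans (add_le_add (hf.1 x) (hg.1 x))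
  · intro x x'
    have e : f x + g x - (f x' + g x') = (f x - f x') + (g x - g x') := by abel
    rw [e, add_mul]
    exact (norm_add_le _ _).trans (add_le_add (hf.2 x x') (hg.2 x x'))

private lemma BLc.const_smul {E : Type*} [NormedAddCommGroup E] [NormedSpace ℝ E] {K : ℝ}
    {g : H → E} (hg : BLc K g) {c C : ℝ} (hc : |c| ≤ C) : BLc (C * K) (fun x => c • g x) := by
  have hK := hg.nonneg
  have hC : 0 ≤ C := (abs_nonneg _).trans hc
  constructor
  · intro x
    rw [norm_smul, Real.norm_eq_abs]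
    exact mul_le_mul hc (hg.1 x) (norm_nonneg _) hC
  · intro x x'
    rw [← smul_sub, norm_smul, Real.norm_eq_abs, mul_assoc]
    exact mul_le_mul hc (hg.2 x x') (norm_nonneg _) hC

private lemma BLc.smul_const {E : Type*} [NormedAddCommGroup E] [NormedSpace ℝ E] {K C : ℝ}
    {f : H → ℝ} (hf : BLc K f) {v : E} (hv : ‖v‖ ≤ C) : BLc (K * C) (fun x => f x • v) := by
  have hK := hf.nonneg
  constructor
  · intro x
    rw [norm_smul]
    exact mul_le_mul (hf.1 x) hv (norm_nonneg _) hK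
  · intro x x'
    rw [← sub_smul, norm_smul]
    calc ‖f x - f x'‖ * ‖v‖ ≤ (K * ‖x - x'‖) * C :=
          mul_le_mul (hf.2 x x') hv (norm_nonneg _) (mul_nonneg hK (norm_nonneg _))
      _ = K * C * ‖x - x'‖ := by ring

private lemma BLc.congr {E : Type*} [NormedAddCommGroup E] {K : ℝ} {f g : H → E}
    (hf : BLc K f) (h : ∀ x, g x = f x) : BLc K g := by
  have : g = f := funext h
  rw [this]; exact hf

private lemma bl_cm (T : Fin 3 → H) : BLc 8 (fun x : H => cm (yv T x)) := by
  constructor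
  · intro x
    rw [Real.norm_eq_abs, abs_of_nonneg (cm_nonneg _)]
    linarith [cm_le_one (yv T x)]
  · intro x x'
    rw [Real.norm_eq_abs]
    refine (cm_lip _ _).trans ?_
    rw [← yv_sub]
    linarith [norm_yv_le T (x - x')]

private lemma bl_cmv (T : Fin 3 → H) : BLc 3 (fun x : H => cm (yv T x) • yv T x) := by
  constructor
  · intro x
    rw [norm_smul, Real.norm_eq_abs, abs_of_nonneg (cm_nonneg _)]
    linarith [cm_norm_le (yv T x)]
  · intro x x'
    refine (cmv_lip _ _).trans ?_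
    rw [← yv_sub]
    linarith [norm_yv_le T (x - x')]

private noncomputable def qe (T : Fin 3 → H) (x : H) : EuclideanSpace ℝ (Fin 3) :=
  WithLp.toLp 2 (qv T x)

private lemma qe_norm_sq (T : Fin 3 → H) (x : H) : ‖qe T x‖ ^ 2 = ∑ k, (qv T x k) ^ 2 := by
  rw [EuclideanSpace.norm_sq_eq]
  refine Finset.sum_congr rfl fun k _ => ?_
  rw [Real.norm_eq_abs, sq_abs]
  rfl

private lemma qe_sub (T : Fin 3 → H) (x x' : H) : qe T x - qe T x' = qe T (x - x') := by
  ext k
  show qv T x k - qv T x' k = qv T (x - x') k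
  simp only [qv, inner_sub_right]

private lemma qe_norm_le {T : Fin 3 → H} (hT : Con 0 T) (x : H) : ‖qe T x‖ ≤ ‖x‖ := by
  have h := con_q hT x
  rw [← qe_norm_sq] at h
  exact (pow_le_pow_iff_left₀ (norm_nonneg _) (norm_nonneg _) two_ne_zero).mp h

private lemma rq_eq (T : Fin 3 → H) (x : H) : rq T x = ra (qe T x) := by
  rw [rq, ra, qe_norm_sq]

private lemma bl_rq {T : Fin 3 → H} (hT : Con 0 T) : BLc 1 (fun x : H => rq T x) := by
  constructor
  · intro x
    beta_reduce
    rw [rq_eq, Real.norm_eq_abs, abs_of_pos (ra_pos _)]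
    exact ra_le_one _
  · intro x x'
    beta_reduce
    rw [rq_eq, rq_eq, Real.norm_eq_abs, one_mul]
    refine (ra_lip _ _).trans ?_
    rw [qe_sub]
    exact qe_norm_le hT _

private lemma bl_rqq {T : Fin 3 → H} (hT : Con 0 T) (k : Fin 3) :
    BLc 3 (fun x : H => rq T x * qv T x k) := by
  have e : ∀ x, rq T x * qv T x k = (ra (qe T x) • qe T x) k := by
    intro x
    rw [rq_eq]
    rfl
  have hc : ∀ v : EuclideanSpace ℝ (Fin 3), ‖v k‖ ≤ ‖v‖ := fun v => PiLp.norm_apply_le v k
  constructor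
  · intro x
    beta_reduce
    rw [e]
    refine (hc _).trans ?_
    rw [norm_smul, Real.norm_eq_abs, abs_of_pos (ra_pos _)]
    linarith [ra_norm_le (qe T x)]
  · intro x x'
    beta_reduce
    rw [e, e]
    have h1 := hc (ra (qe T x) • qe T x - ra (qe T x') • qe T x')
    refine (le_trans (le_of_eq rfl) h1).trans ?_
    refine (rav_lip _ _).trans ?_
    rw [qe_sub]
    linarith [qe_norm_le hT (x - x')]

private lemma bl_F2 {T : Fin 3 → H} (hT : Con 0 T) (j : Fin 3) :
    BLc 72 (fun x : H => Bm T j 0 • (rq T x * qv T x 0) + Bm T j 1 • (rq T x * qv T x 1)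
      + Bm T j 2 • (rq T x * qv T x 2)) := by
  have h := (((bl_rqq hT 0).const_smul (Bm_entry hT j 0)).add
    ((bl_rqq hT 1).const_smul (Bm_entry hT j 1))).add
      ((bl_rqq hT 2).const_smul (Bm_entry hT j 2))
  exact h.mono (by norm_num)

private lemma norm_V {T : Fin 3 → H} (hT : Con 0 T) (j : Fin 3) :
    ‖∑ k, Bm T j k • T k‖ ≤ 24 := by
  refine (norm_sum_le _ _).trans ?_
  rw [Fin.sum_univ_three]
  have h : ∀ k, ‖Bm T j k • T k‖ ≤ 8 := by
    intro k
    rw [norm_smul, Real.norm_eq_abs]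
    have h1 := Bm_entry hT j k
    have h2 := con_norm_le hT k
    have h3 := abs_nonneg (Bm T j k)
    have h4 := norm_nonneg (T k)
    nlinarith
  linarith [h 0, h 1, h 2]

private lemma bl_tau {T : Fin 3 → H} (hT : Con 0 T) {a : ℝ} (ha : 0 ≤ a) (ha1 : a ≤ 1)
    (j : Fin 3) : BLc 1000000 (fun x : H => tauB a T x j) := by
  have hc := bl_cm T
  have hcc := hc.smul hc
  have hF2 := bl_F2 hT j
  have t1 := (hcc.smul (bl_rq hT)).smul_const (norm_V hT j)
  have t2 := (hF2.const_smul (c := -64) (C := 64) (by norm_num)).smul (bl_cmv T)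
  have t3 : ∀ l : Fin 3, BLc (2 * (2 * (2 * (2 * 8 * 8) * 72) * 3 * 1)) (fun x : H =>
      (-2 : ℝ) • ((((cm (yv T x) • cm (yv T x)) • (Bm T j 0 • (rq T x * qv T x 0)
        + Bm T j 1 • (rq T x * qv T x 1) + Bm T j 2 • (rq T x * qv T x 2)))
        • (rq T x * qv T x l)) • T l)) := by
    intro l
    exact (((hcc.smul hF2).smul (bl_rqq hT l)).smul_const (con_norm_le hT l)).const_smul
      (by norm_num)
  have hsum := ((t1.add t2).add (((t3 0).add (t3 1)).add (t3 2))).const_smul
    (c := -a) (C := 1) (by rw [abs_neg, abs_of_nonneg ha]; exact ha1)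
  refine (hsum.mono (by norm_num)).congr fun x => ?_
  unfold tauB
  simp only [Fin.sum_univ_three, Matrix.mulVec, dotProduct, smul_eq_mul]
  module

/-- every factor (`cm (yv T x)`, `cm (yv T x) • yv T x`, `rq T x`, `rq T x * qv T x k`) is bounded
and Lipschitz with absolute constants. -/
theorem tauB_lip : ∃ K : ℝ, 1 ≤ K ∧ ∀ (T : Fin 3 → H), Con 0 T → ∀ (a : ℝ), 0 ≤ a → a ≤ 1 →
    ∀ x x' : H, ‖tauB a T x - tauB a T x'‖ ≤ K * ‖x - x'‖ := by
  refine ⟨1000000, by norm_num, fun T hT a ha ha1 x x' => ?_⟩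
  rw [pi_norm_le_iff_of_nonneg (by positivity)]
  intro j
  exact (bl_tau hT ha ha1 j).2 x x'

end Pool.Agent.LipThree
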