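import Pool.Agent.Lib.LipThree.Base
import Pool.Agent.Lib.LipThree.ConA
import Pool.Agent.Lib.LipThree.CutA
import Pool.Agent.Lib.LipThree.CutB
import Pool.Agent.Lib.LipThree.GradA

/-! MP_31d174_an (LipThree): BoundCA -/

set_option autoImplicit false

open scoped BigOperators
open Matrix

namespace Pool.Agent.LipThree

variable {H : Type*} [NormedAddCommGroup H] [InnerProductSpace ℝ H]

private theorem abs_coord_le {w : EuclideanSpace ℝ (Fin 3)} (hw : ‖w‖ = 1) (j : Fin 3) :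
    |w j| ≤ 1 := by
  have := PiLp.norm_apply_le w j
  rwa [hw, Real.norm_eq_abs] at this

theorem phiC_abs {w : EuclideanSpace ℝ (Fin 3)} (hw : ‖w‖ = 1) (r : ℝ) (T : Fin 3 → H) (j : Fin 3)
    (x : H) : |phiC w r T j x| ≤ 1 := by
  unfold phiC
  have h1 := abs_coord_le hw j
  have c0 := cm_nonneg (yv T x)
  have c1 := cm_le_one (yv T x)
  have r0 := (ra_pos (r • uv T x)).le
  have r1 := ra_le_one (r • uv T x)
  have hc : (cm (yv T x)) ^ 2 ≤ 1 := pow_le_one₀ c0 c1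
  have hc0 : 0 ≤ (cm (yv T x)) ^ 2 := sq_nonneg _
  have hm : (cm (yv T x)) ^ 2 * ra (r • uv T x) ≤ 1 := mul_le_one₀ hc r0 r1
  have hm0 : 0 ≤ (cm (yv T x)) ^ 2 * ra (r • uv T x) := mul_nonneg hc0 r0
  rw [abs_mul, abs_of_nonneg hm0, abs_div, abs_of_pos (by norm_num : (0 : ℝ) < 64)]
  have h2 : |w j| / 64 ≤ 1 := by linarith
  exact mul_le_one₀ h2 hm0 hm

/-- the part of the gradient of the C bump orthogonal to `spn T`. -/
noncomputable def gC (r : ℝ) (T : Fin 3 → H) (x : H) : H :=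
  (-(cm (yv T x) * ra (r • uv T x))) • yv T x

private theorem tauC_sub {w : EuclideanSpace ℝ (Fin 3)} (r : ℝ)
    (T : Fin 3 → H) (x : H) (j : Fin 3) : tauC w r T x j - w j • gC r T x
      = (w j / 64 * (-2 * (cm (yv T x)) ^ 2 * (ra (r • uv T x)) ^ 2 * r ^ 2)) • uv T x := by
  unfold tauC gC
  rw [smul_add, smul_smul, smul_smul, smul_smul, add_sub_right_comm, ← sub_smul]
  have : w j / 64 * (-64 * cm (yv T x) * ra (r • uv T x))
      - w j * -(cm (yv T x) * ra (r • uv T x)) = 0 := by ring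
  rw [this, zero_smul, zero_add]

private theorem ra_r_norm {r : ℝ} (hr : 0 ≤ r) (T : Fin 3 → H) (x : H) :
    ra (r • uv T x) * (r * ‖uv T x‖) ≤ 1 / 2 := by
  have := ra_norm_le (r • uv T x)
  rwa [norm_smul, Real.norm_eq_abs, abs_of_nonneg hr] at this

private theorem tauC_sub_norm {w : EuclideanSpace ℝ (Fin 3)} (hw : ‖w‖ = 1) {r : ℝ} (hr : 0 ≤ r)
    (T : Fin 3 → H) (x : H) (j : Fin 3) :
    ‖tauC w r T x j - w j • gC r T x‖ ≤ r * ra (r • uv T x) / 64 := by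
  rw [tauC_sub, norm_smul, Real.norm_eq_abs]
  have h1 := abs_coord_le hw j
  have c0 := cm_nonneg (yv T x)
  have c1 := cm_le_one (yv T x)
  have r0 := (ra_pos (r • uv T x)).le
  have hc : (cm (yv T x)) ^ 2 ≤ 1 := pow_le_one₀ c0 c1
  have hc0 : 0 ≤ (cm (yv T x)) ^ 2 := sq_nonneg _
  have h2 := ra_r_norm hr T x
  have h3 : |w j / 64 * (-2 * (cm (yv T x)) ^ 2 * (ra (r • uv T x)) ^ 2 * r ^ 2)|
      = |w j| / 64 * (2 * (cm (yv T x)) ^ 2 * (ra (r • uv T x)) ^ 2 * r ^ 2) := by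
    rw [abs_mul, abs_div, abs_of_pos (by norm_num : (0 : ℝ) < 64)]
    congr 1
    have : -2 * (cm (yv T x)) ^ 2 * (ra (r • uv T x)) ^ 2 * r ^ 2
        = -(2 * (cm (yv T x)) ^ 2 * (ra (r • uv T x)) ^ 2 * r ^ 2) := by ring
    rw [this, abs_neg, abs_of_nonneg (by positivity)]
  rw [h3]
  have h4 : |w j| / 64 * (2 * (cm (yv T x)) ^ 2 * (ra (r • uv T x)) ^ 2 * r ^ 2) * ‖uv T x‖
      = (|w j| * (cm (yv T x)) ^ 2) * (r * ra (r • uv T x)) / 32
        * (ra (r • uv T x) * (r * ‖uv T x‖)) := by ring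
  rw [h4]
  have h5 : |w j| * (cm (yv T x)) ^ 2 ≤ 1 := mul_le_one₀ h1 hc0 hc
  have h6 : 0 ≤ r * ra (r • uv T x) := mul_nonneg hr r0
  have h7 : |w j| * (cm (yv T x)) ^ 2 * (r * ra (r • uv T x)) ≤ r * ra (r • uv T x) := by
    calc |w j| * (cm (yv T x)) ^ 2 * (r * ra (r • uv T x)) ≤ 1 * (r * ra (r • uv T x)) :=
          mul_le_mul_of_nonneg_right h5 h6
      _ = _ := one_mul _
  have h8 : 0 ≤ |w j| * (cm (yv T x)) ^ 2 * (r * ra (r • uv T x)) / 32 := by positivity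
  calc (|w j| * (cm (yv T x)) ^ 2) * (r * ra (r • uv T x)) / 32
        * (ra (r • uv T x) * (r * ‖uv T x‖))
      ≤ (|w j| * (cm (yv T x)) ^ 2) * (r * ra (r • uv T x)) / 32 * (1 / 2) :=
        mul_le_mul_of_nonneg_left h2 h8
    _ = (|w j| * (cm (yv T x)) ^ 2) * (r * ra (r • uv T x)) / 64 := by ring
    _ ≤ r * ra (r • uv T x) / 64 := by linarith

/-- `tauC = w ⊗ (gC + error)` with an error of size `≤ r`. -/
theorem tauC_split {w : EuclideanSpace ℝ (Fin 3)} (hw : ‖w‖ = 1) {r : ℝ} (hr : 0 ≤ r)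
    (T : Fin 3 → H) (x : H) (j : Fin 3) : ‖tauC w r T x j - w j • gC r T x‖ ≤ r := by
  have h := tauC_sub_norm hw hr T x j
  have r0 := (ra_pos (r • uv T x)).le
  have r1 := ra_le_one (r • uv T x)
  have : r * ra (r • uv T x) ≤ r := by
    calc r * ra (r • uv T x) ≤ r * 1 := mul_le_mul_of_nonneg_left r1 hr
      _ = r := mul_one r
  have : 0 ≤ r * ra (r • uv T x) := mul_nonneg hr r0
  linarith

theorem gC_orth (r : ℝ) (T : Fin 3 → H) (x : H) (i : Fin 3) : inner ℝ (T i) (gC r T x) = 0 := by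
  unfold gC
  rw [inner_smul_right, inner_yv, mul_zero]

private theorem gC_norm' (r : ℝ) (T : Fin 3 → H) (x : H) :
    ‖gC r T x‖ ≤ ra (r • uv T x) / 4 := by
  unfold gC
  have c0 := cm_nonneg (yv T x)
  have r0 := (ra_pos (r • uv T x)).le
  have h := cm_norm_le (yv T x)
  rw [norm_smul, Real.norm_eq_abs, abs_neg, abs_of_nonneg (mul_nonneg c0 r0)]
  have : cm (yv T x) * ra (r • uv T x) * ‖yv T x‖
      = ra (r • uv T x) * (cm (yv T x) * ‖yv T x‖) := by ring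
  rw [this]
  have := mul_le_mul_of_nonneg_left h r0
  linarith

theorem gC_norm (r : ℝ) (T : Fin 3 → H) (x : H) : ‖gC r T x‖ ≤ 1 / 4 := by
  have h := gC_norm' r T x
  have r1 := ra_le_one (r • uv T x)
  linarith

/-- decay: the gradient is `≤ 2 ra (r • uv T x)` (for `0 ≤ r ≤ 1`). -/
theorem tauC_decay {w : EuclideanSpace ℝ (Fin 3)} (hw : ‖w‖ = 1) {r : ℝ} (hr : 0 ≤ r) (hr1 : r ≤ 1)
    (T : Fin 3 → H) (x : H) (j : Fin 3) : ‖tauC w r T x j‖ ≤ 2 * ra (r • uv T x) := by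
  have h := tauC_sub_norm hw hr T x j
  have h1 := abs_coord_le hw j
  have h2 := gC_norm' r T x
  have r0 := (ra_pos (r • uv T x)).le
  have e : tauC w r T x j = (tauC w r T x j - w j • gC r T x) + w j • gC r T x := by abel
  have h3 : ‖w j • gC r T x‖ ≤ ‖gC r T x‖ := by
    rw [norm_smul, Real.norm_eq_abs]
    calc |w j| * ‖gC r T x‖ ≤ 1 * ‖gC r T x‖ :=
          mul_le_mul_of_nonneg_right h1 (norm_nonneg _)
      _ = _ := one_mul _
  have h4 : r * ra (r • uv T x) ≤ ra (r • uv T x) := by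
    calc r * ra (r • uv T x) ≤ 1 * ra (r • uv T x) := mul_le_mul_of_nonneg_right hr1 r0
      _ = _ := one_mul _
  calc ‖tauC w r T x j‖ = ‖(tauC w r T x j - w j • gC r T x) + w j • gC r T x‖ := by rw [← e]
    _ ≤ ‖tauC w r T x j - w j • gC r T x‖ + ‖w j • gC r T x‖ := norm_add_le _ _
    _ ≤ 2 * ra (r • uv T x) := by linarith

end Pool.Agent.LipThree
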