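import Pool.Agent.Lib.LipThree.Base
import Pool.Agent.Lib.LipThree.ConA
import Pool.Agent.Lib.LipThree.CutA
import Pool.Agent.Lib.LipThree.CutB
import Pool.Agent.Lib.LipThree.GradA

/-! MP_31d174_an (LipThree): BoundCB -/

set_option autoImplicit false

open scoped BigOperators
open Matrix

namespace Pool.Agent.LipThree

variable {H : Type*} [NormedAddCommGroup H] [InnerProductSpace ℝ H]

private theorem smul_lip {a a' A L : ℝ} {v v' : H} {V M d : ℝ} (ha : |a| ≤ A) (hv : ‖v'‖ ≤ V)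
    (hL : |a - a'| ≤ L * d) (hM : ‖v - v'‖ ≤ M * d) (hA : 0 ≤ A) (hV : 0 ≤ V) :
    ‖a • v - a' • v'‖ ≤ (A * M + L * V) * d := by
  have h1 : a • v - a' • v' = a • (v - v') + (a - a') • v' := by
    rw [smul_sub, sub_smul]
    abel
  rw [h1]
  have h2 : ‖a • (v - v')‖ ≤ A * (M * d) := by
    rw [norm_smul, Real.norm_eq_abs]
    exact mul_le_mul ha hM (norm_nonneg _) hA
  have h3 : ‖(a - a') • v'‖ ≤ (L * d) * V := by
    rw [norm_smul, Real.norm_eq_abs]
    exact mul_le_mul hL hv (norm_nonneg _) (le_trans (abs_nonneg _) hL)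
  calc ‖a • (v - v') + (a - a') • v'‖ ≤ ‖a • (v - v')‖ + ‖(a - a') • v'‖ := norm_add_le _ _
    _ ≤ A * (M * d) + (L * d) * V := add_le_add h2 h3
    _ = (A * M + L * V) * d := by ring

theorem tauC_lip : ∃ K : ℝ, 1 ≤ K ∧ ∀ (T : Fin 3 → H) (w : EuclideanSpace ℝ (Fin 3)), ‖w‖ = 1 →
    ∀ r : ℝ, 0 ≤ r → r ≤ 1 →
    ∀ x x' : H, ‖tauC w r T x - tauC w r T x'‖ ≤ K * ‖x - x'‖ := by
  refine ⟨100, by norm_num, ?_⟩
  intro T w hw r hr hr1 x x'
  set d := ‖x - x'‖ with hd
  have hd0 : 0 ≤ d := norm_nonneg _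
  rw [pi_norm_le_iff_of_nonneg (by positivity)]
  intro j
  have hwj : |w j| ≤ 1 := by
    have := PiLp.norm_apply_le w j
    rw [Real.norm_eq_abs, hw] at this
    exact this
  have hy : ‖yv T x - yv T x'‖ ≤ d := by
    rw [← yv_sub]
    exact norm_yv_le T _
  have hu : ‖r • uv T x - r • uv T x'‖ ≤ d := by
    rw [← smul_sub, ← uv_sub, norm_smul, Real.norm_eq_abs, abs_of_nonneg hr]
    have := norm_uv_le T (x - x')
    calc r * ‖uv T (x - x')‖ ≤ 1 * d := by
          apply mul_le_mul hr1 this (norm_nonneg _) zero_le_one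
      _ = d := one_mul _
  -- the pieces
  have hV : ‖cm (yv T x) • yv T x - cm (yv T x') • yv T x'‖ ≤ 3 * d :=
    (cmv_lip _ _).trans (by linarith)
  have hVn : ‖cm (yv T x') • yv T x'‖ ≤ 1 / 4 := by
    rw [norm_smul, Real.norm_eq_abs, abs_of_nonneg (cm_nonneg _)]
    exact cm_norm_le _
  have hW : ‖ra (r • uv T x) • (r • uv T x) - ra (r • uv T x') • (r • uv T x')‖ ≤ 3 * d :=
    (rav_lip _ _).trans (by linarith)
  have hWn : ‖ra (r • uv T x') • (r • uv T x')‖ ≤ 1 / 2 := by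
    rw [norm_smul, Real.norm_eq_abs, abs_of_nonneg (ra_pos _).le]
    exact ra_norm_le _
  have hra : |ra (r • uv T x)| ≤ 1 := by
    rw [abs_of_nonneg (ra_pos _).le]
    exact ra_le_one _
  have hra' : |ra (r • uv T x')| ≤ 1 := by
    rw [abs_of_nonneg (ra_pos _).le]
    exact ra_le_one _
  have hral : |ra (r • uv T x) - ra (r • uv T x')| ≤ 1 * d :=
    (ra_lip _ _).trans (by linarith)
  have hc0 := cm_nonneg (yv T x)
  have hc1 := cm_le_one (yv T x)
  have hc0' := cm_nonneg (yv T x')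
  have hc1' := cm_le_one (yv T x')
  have hcl : |cm (yv T x) - cm (yv T x')| ≤ 8 * d := (cm_lip _ _).trans (by linarith)
  have hA := smul_lip (v := cm (yv T x) • yv T x) (v' := cm (yv T x') • yv T x') hra hVn hral hV
    zero_le_one (by norm_num)
  -- the coefficient of the second piece
  have hcc : |(cm (yv T x)) ^ 2 - (cm (yv T x')) ^ 2| ≤ 16 * d := by
    have h1 : (cm (yv T x)) ^ 2 - (cm (yv T x')) ^ 2
        = (cm (yv T x) - cm (yv T x')) * (cm (yv T x) + cm (yv T x')) := by ring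
    rw [h1, abs_mul]
    have h2 : |cm (yv T x) + cm (yv T x')| ≤ 2 := by
      rw [abs_of_nonneg (by linarith)]
      linarith
    calc |cm (yv T x) - cm (yv T x')| * |cm (yv T x) + cm (yv T x')|
        ≤ (8 * d) * 2 := mul_le_mul hcl h2 (abs_nonneg _) (by positivity)
      _ = 16 * d := by ring
  have hcsq : |(cm (yv T x)) ^ 2| ≤ 1 := by
    rw [abs_of_nonneg (by positivity)]
    nlinarith
  have hcoef : |(cm (yv T x)) ^ 2 * ra (r • uv T x) * r
      - (cm (yv T x')) ^ 2 * ra (r • uv T x') * r| ≤ 17 * d := by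
    have h1 : (cm (yv T x)) ^ 2 * ra (r • uv T x) * r
        - (cm (yv T x')) ^ 2 * ra (r • uv T x') * r
        = ((cm (yv T x)) ^ 2 * (ra (r • uv T x) - ra (r • uv T x'))
          + ((cm (yv T x)) ^ 2 - (cm (yv T x')) ^ 2) * ra (r • uv T x')) * r := by ring
    rw [h1, abs_mul, abs_of_nonneg hr]
    have h2 : |(cm (yv T x)) ^ 2 * (ra (r • uv T x) - ra (r • uv T x'))| ≤ 1 * (1 * d) := by
      rw [abs_mul]
      exact mul_le_mul hcsq hral (abs_nonneg _) zero_le_one
    have h3 : |((cm (yv T x)) ^ 2 - (cm (yv T x')) ^ 2) * ra (r • uv T x')| ≤ (16 * d) * 1 := by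
      rw [abs_mul]
      exact mul_le_mul hcc hra' (abs_nonneg _) (by positivity)
    have h4 := (abs_add_le ((cm (yv T x)) ^ 2 * (ra (r • uv T x) - ra (r • uv T x')))
      (((cm (yv T x)) ^ 2 - (cm (yv T x')) ^ 2) * ra (r • uv T x')))
    have h5 : |(cm (yv T x)) ^ 2 * (ra (r • uv T x) - ra (r • uv T x'))
          + ((cm (yv T x)) ^ 2 - (cm (yv T x')) ^ 2) * ra (r • uv T x')| ≤ 17 * d := by linarith
    calc _ ≤ (17 * d) * 1 := mul_le_mul h5 hr1 hr (by positivity)
      _ = 17 * d := mul_one _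
  have hcoefn : |(cm (yv T x)) ^ 2 * ra (r • uv T x) * r| ≤ 1 := by
    rw [abs_mul, abs_mul, abs_of_nonneg hr]
    have h1 : |(cm (yv T x)) ^ 2| * |ra (r • uv T x)| ≤ 1 * 1 :=
      mul_le_mul hcsq hra (abs_nonneg _) zero_le_one
    calc _ ≤ (1 * 1) * 1 := mul_le_mul h1 hr1 hr (by norm_num)
      _ = 1 := by norm_num
  have hB := smul_lip (v := ra (r • uv T x) • (r • uv T x))
    (v' := ra (r • uv T x') • (r • uv T x')) hcoefn hWn hcoef hW zero_le_one (by norm_num)
  -- rewrite the gradient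
  have hform : ∀ z : H, tauC w r T z j = (-(w j)) • (ra (r • uv T z) • (cm (yv T z) • yv T z))
      + (-(w j / 32)) • (((cm (yv T z)) ^ 2 * ra (r • uv T z) * r) •
        (ra (r • uv T z) • (r • uv T z))) := by
    intro z
    unfold tauC
    rw [smul_add]
    simp only [smul_smul]
    congr 1
    · congr 1
      ring
    · congr 1
      ring
  rw [Pi.sub_apply, hform x, hform x']
  have e1 : (-(w j)) • (ra (r • uv T x) • (cm (yv T x) • yv T x))
      + (-(w j / 32)) • (((cm (yv T x)) ^ 2 * ra (r • uv T x) * r) •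
        (ra (r • uv T x) • (r • uv T x)))
      - ((-(w j)) • (ra (r • uv T x') • (cm (yv T x') • yv T x'))
      + (-(w j / 32)) • (((cm (yv T x')) ^ 2 * ra (r • uv T x') * r) •
        (ra (r • uv T x') • (r • uv T x'))))
      = (-(w j)) • (ra (r • uv T x) • (cm (yv T x) • yv T x)
          - ra (r • uv T x') • (cm (yv T x') • yv T x'))
        + (-(w j / 32)) • (((cm (yv T x)) ^ 2 * ra (r • uv T x) * r) •
            (ra (r • uv T x) • (r • uv T x))
          - ((cm (yv T x')) ^ 2 * ra (r • uv T x') * r) •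
            (ra (r • uv T x') • (r • uv T x'))) := by
    rw [smul_sub, smul_sub]
    abel
  rw [e1]
  have n1 : ‖(-(w j)) • (ra (r • uv T x) • (cm (yv T x) • yv T x)
          - ra (r • uv T x') • (cm (yv T x') • yv T x'))‖ ≤ 1 * ((1 * 3 + 1 * (1 / 4)) * d) := by
    rw [norm_smul, Real.norm_eq_abs, abs_neg]
    exact mul_le_mul hwj hA (norm_nonneg _) zero_le_one
  have n2 : ‖(-(w j / 32)) • (((cm (yv T x)) ^ 2 * ra (r • uv T x) * r) •
            (ra (r • uv T x) • (r • uv T x))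
          - ((cm (yv T x')) ^ 2 * ra (r • uv T x') * r) •
            (ra (r • uv T x') • (r • uv T x')))‖ ≤ 1 * ((1 * 3 + 17 * (1 / 2)) * d) := by
    rw [norm_smul, Real.norm_eq_abs, abs_neg]
    refine mul_le_mul ?_ hB (norm_nonneg _) zero_le_one
    rw [abs_div, abs_of_nonneg (by norm_num : (0 : ℝ) ≤ 32)]
    linarith [abs_nonneg (w j)]
  refine (norm_add_le _ _).trans ?_
  linarith

end Pool.Agent.LipThree
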