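import Pool.Agent.Lib.LipThree.Base
import Pool.Agent.Lib.LipThree.ConA

/-! MP_31d174_an (LipThree): ExpandA -/

set_option autoImplicit false

open scoped BigOperators
open Matrix

namespace Pool.Agent.LipThree

variable {H : Type*} [NormedAddCommGroup H] [InnerProductSpace ℝ H]

theorem expandA_two {a b c d m : ℝ} (ha : |a| ≤ m) (hb : |b| ≤ m) (hc : |c| ≤ m)
    (hd : |d| ≤ m) : |a * b - c * d| ≤ 2 * m ^ 2 := by
  have hm : 0 ≤ m := (abs_nonneg a).trans ha
  have h1 : |a * b| ≤ m * m := by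
    rw [abs_mul]; exact mul_le_mul ha hb (abs_nonneg _) hm
  have h2 : |c * d| ≤ m * m := by
    rw [abs_mul]; exact mul_le_mul hc hd (abs_nonneg _) hm
  have h3 := abs_sub (a * b) (c * d)
  nlinarith [h1, h2, h3]

theorem expandA_adj {M : Matrix (Fin 3) (Fin 3) ℝ} {m : ℝ} (hM : ∀ i j, |M i j| ≤ m)
    (i j : Fin 3) : |adjugate M i j| ≤ 2 * m ^ 2 := by
  have key : ∀ a b c d : Fin 3 × Fin 3,
      |M a.1 a.2 * M b.1 b.2 - M c.1 c.2 * M d.1 d.2| ≤ 2 * m ^ 2 := fun a b c d =>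
    expandA_two (hM _ _) (hM _ _) (hM _ _) (hM _ _)
  rw [adjugate_fin_three]
  fin_cases i <;> fin_cases j <;> simp
  · exact key (1, 1) (2, 2) (1, 2) (2, 1)
  · have := key (0, 2) (2, 1) (0, 1) (2, 2)
    simpa [neg_add_eq_sub] using this
  · exact key (0, 1) (1, 2) (0, 2) (1, 1)
  · have := key (1, 2) (2, 0) (1, 0) (2, 2)
    simpa [neg_add_eq_sub] using this
  · exact key (0, 0) (2, 2) (0, 2) (2, 0)
  · have := key (0, 2) (1, 0) (0, 0) (1, 2)
    simpa [neg_add_eq_sub] using this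
  · exact key (1, 0) (2, 1) (1, 1) (2, 0)
  · have := key (0, 1) (2, 0) (0, 0) (2, 1)
    simpa [neg_add_eq_sub] using this
  · exact key (0, 0) (1, 1) (0, 1) (1, 0)

theorem expandA_ident (A P Q X : Matrix (Fin 3) (Fin 3) ℝ) (hA : ∀ i j, A i j = A j i)
    (hX : ∀ i j, X i j = P i j + P j i + Q i j) :
    (A - X).det = A.det - 2 * (∑ i, ∑ j, adjugate A i j * P i j)
      - (∑ i, ∑ j, adjugate A i j * Q j i) + (∑ i, ∑ j, A i j * adjugate X j i) - X.det := by
  have h10 : A 1 0 = A 0 1 := hA 1 0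
  have h20 : A 2 0 = A 0 2 := hA 2 0
  have h21 : A 2 1 = A 1 2 := hA 2 1
  simp only [det_fin_three, adjugate_fin_three, Fin.sum_univ_three, Matrix.sub_apply, of_apply,
    cons_val', cons_val_zero, cons_val_one, cons_val_two, cons_val_fin_one, head_cons,
    tail_cons, head_fin_const, empty_val', h10, h20, h21]
  have e00 := hX 0 0
  have e01 := hX 0 1
  have e02 := hX 0 2
  have e10 := hX 1 0
  have e11 := hX 1 1
  have e12 := hX 1 2
  have e20 := hX 2 0
  have e21 := hX 2 1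
  have e22 := hX 2 2
  rw [e00, e01, e02, e10, e11, e12, e20, e21, e22]
  ring

theorem expandA_sum {f g : Fin 3 → Fin 3 → ℝ} {a b : ℝ} (hf : ∀ i j, |f i j| ≤ a)
    (hg : ∀ i j, |g i j| ≤ b) : |∑ i, ∑ j, f i j * g i j| ≤ 9 * (a * b) := by
  have ha : 0 ≤ a := (abs_nonneg _).trans (hf 0 0)
  have h1 : ∀ i j, |f i j * g i j| ≤ a * b := fun i j => by
    rw [abs_mul]
    exact mul_le_mul (hf i j) (hg i j) (abs_nonneg _) ha
  calc |∑ i, ∑ j, f i j * g i j| ≤ ∑ i, |∑ j, f i j * g i j| := Finset.abs_sum_le_sum_abs _ _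
    _ ≤ ∑ i, ∑ j, |f i j * g i j| :=
        Finset.sum_le_sum fun i _ => Finset.abs_sum_le_sum_abs _ _
    _ ≤ ∑ _i : Fin 3, ∑ _j : Fin 3, a * b :=
        Finset.sum_le_sum fun i _ => Finset.sum_le_sum fun j _ => h1 i j
    _ = 9 * (a * b) := by simp; ring

/-- For `3 × 3` matrices `det (A - X) = det A - tr (adj A X) + tr (A adj X) - det X`; with
`A = 1 - gm T` (symmetric, entries `≤ 1`) and `X i j = ⟪T i, τ j⟫ + ⟪τ i, T j⟫ + ⟪τ i, τ j⟫`
(entries `≤ 3 e ≤ 1`). -/
theorem dd_expand {T τ : Fin 3 → H} (hT : Con 0 T) {e : ℝ} (he : e ≤ 1 / 3)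
    (hτ : ∀ i, ‖τ i‖ ≤ e) :
    Dd T - 2 * (∑ i, ∑ j, adjugate (1 - gm T) i j * inner ℝ (T i) (τ j)) - 234 * e ^ 2
      ≤ Dd (T + τ) := by
  have he0 : 0 ≤ e := (norm_nonneg _).trans (hτ 0)
  have hP : ∀ i j, |inner ℝ (T i) (τ j)| ≤ e := fun i j => by
    refine (abs_real_inner_le_norm _ _).trans ?_
    have h1 := mul_le_mul (con_norm_le hT i) (hτ j) (norm_nonneg _) zero_le_one
    linarith
  have hQ : ∀ i j, |inner ℝ (τ i) (τ j)| ≤ e ^ 2 := fun i j => by
    refine (abs_real_inner_le_norm _ _).trans ?_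
    have h1 := mul_le_mul (hτ i) (hτ j) (norm_nonneg _) he0
    nlinarith
  set A : Matrix (Fin 3) (Fin 3) ℝ := 1 - gm T with hAdef
  set P : Matrix (Fin 3) (Fin 3) ℝ := Matrix.of fun i j => inner ℝ (T i) (τ j) with hPdef
  set Q : Matrix (Fin 3) (Fin 3) ℝ := Matrix.of fun i j => inner ℝ (τ i) (τ j) with hQdef
  set X : Matrix (Fin 3) (Fin 3) ℝ := Matrix.of fun i j => P i j + P j i + Q i j with hXdef
  have hAX : 1 - gm (T + τ) = A - X := by
    ext i j
    simp only [hAdef, hXdef, hPdef, hQdef, gm, Matrix.sub_apply, of_apply, Pi.add_apply,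
      inner_add_left, inner_add_right]
    rw [real_inner_comm (T j) (τ i)]
    ring
  have hAs : ∀ i j, A i j = A j i := fun i j => by
    simp only [hAdef, gm, Matrix.sub_apply, of_apply]
    rw [real_inner_comm]
    congr 1
    by_cases hij : i = j
    · rw [hij]
    · rw [one_apply_ne hij, one_apply_ne (Ne.symm hij)]
  have hid := expandA_ident A P Q X hAs (fun i j => rfl)
  have hA1 : ∀ i j, |A i j| ≤ 1 := fun i j => one_sub_gm_entry hT i j
  have hX1 : ∀ i j, |X i j| ≤ 3 * e := fun i j => by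
    have h1 : X i j = P i j + P j i + Q i j := rfl
    rw [h1]
    have h2 := abs_add_le (P i j + P j i) (Q i j)
    have h3 := abs_add_le (P i j) (P j i)
    have h4 := hP i j
    have h5 := hP j i
    have h6 := hQ i j
    have h7 : e ^ 2 ≤ e := by nlinarith
    simp only [hPdef, hQdef, of_apply] at h2 h3 ⊢
    linarith
  have hadjA : ∀ i j, |adjugate A i j| ≤ 2 := fun i j => by
    have := expandA_adj hA1 i j
    linarith
  have hadjX : ∀ i j, |adjugate X i j| ≤ 2 * (3 * e) ^ 2 := fun i j => expandA_adj hX1 i j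
  have b1 := expandA_sum (f := fun i j => adjugate A i j) (g := fun i j => Q j i)
    (fun i j => hadjA i j) (fun i j => hQ j i)
  have b2 := expandA_sum (f := fun i j => A i j) (g := fun i j => adjugate X j i)
    (fun i j => hA1 i j) (fun i j => hadjX j i)
  have b3 : |X.det| ≤ 6 * (3 * e) ^ 3 := by
    have := Matrix.det_le (abv := AbsoluteValue.abs) (A := X) (x := 3 * e) (fun i j => hX1 i j)
    simpa [Nat.factorial] using this
  have b4 : 6 * (3 * e) ^ 3 ≤ 54 * e ^ 2 := by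
    have : e ^ 3 ≤ 1 / 3 * e ^ 2 := by
      have := mul_le_mul_of_nonneg_right he (sq_nonneg e)
      nlinarith
    nlinarith
  have hDd : Dd (T + τ) = (A - X).det := by rw [← hAX]; rfl
  rw [hDd, hid]
  have hDT : Dd T = A.det := rfl
  rw [hDT]
  have c1 := (abs_le.1 b1).2
  have c2 := (abs_le.1 b2).1
  have c3 := (abs_le.1 b3).2
  have hPs : (∑ i, ∑ j, adjugate A i j * P i j)
      = ∑ i, ∑ j, adjugate A i j * inner ℝ (T i) (τ j) := rfl
  rw [hPs]
  nlinarith

end Pool.Agent.LipThree
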