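import Pool.Agent.Lib.LipThree.Base
import Pool.Agent.Lib.LipThree.ConA

/-! MP_31d174_an (LipThree): SpecA -/

set_option autoImplicit false

open scoped BigOperators
open Matrix

namespace Pool.Agent.LipThree

variable {H : Type*} [NormedAddCommGroup H] [InnerProductSpace ℝ H]

theorem specA_inner_eq (x y : EuclideanSpace ℝ (Fin 3)) :
    inner ℝ x y = x.ofLp ⬝ᵥ y.ofLp := by
  rw [EuclideanSpace.inner_eq_star_dotProduct, dotProduct_comm]
  simp

/-- the quadratic form of a symmetric matrix in an eigenbasis. -/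
theorem specA_quad {M : Matrix (Fin 3) (Fin 3) ℝ} (hM : M.IsHermitian)
    (v : EuclideanSpace ℝ (Fin 3)) :
    v.ofLp ⬝ᵥ (M *ᵥ v.ofLp)
      = ∑ k, hM.eigenvalues k * (inner ℝ (hM.eigenvectorBasis k) v) ^ 2 := by
  have hMT : Mᵀ = M := by
    have := hM.eq
    rwa [conjTranspose_eq_transpose_of_trivial] at this
  have h1 := hM.eigenvectorBasis.sum_inner_mul_inner v (WithLp.toLp 2 (M *ᵥ v.ofLp))
  rw [specA_inner_eq v] at h1
  rw [← h1]
  refine Finset.sum_congr rfl fun k _ => ?_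
  have h2 : inner ℝ (hM.eigenvectorBasis k) (WithLp.toLp 2 (M *ᵥ v.ofLp))
      = hM.eigenvalues k * inner ℝ (hM.eigenvectorBasis k) v := by
    rw [specA_inner_eq, specA_inner_eq]
    rw [dotProduct_mulVec, ← mulVec_transpose, hMT, hM.mulVec_eigenvectorBasis k]
    simp [smul_dotProduct]
  rw [h2, real_inner_comm]
  ring

theorem specA_norm {M : Matrix (Fin 3) (Fin 3) ℝ} (hM : M.IsHermitian)
    (v : EuclideanSpace ℝ (Fin 3)) :
    ∑ k, (inner ℝ (hM.eigenvectorBasis k) v) ^ 2 = ‖v‖ ^ 2 := by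
  have := hM.eigenvectorBasis.sum_sq_norm_inner_right v
  simpa [Real.norm_eq_abs, sq_abs] using this

theorem specA_eig {M : Matrix (Fin 3) (Fin 3) ℝ} (hM : M.IsHermitian) (k : Fin 3) :
    (hM.eigenvectorBasis k).ofLp ⬝ᵥ (M *ᵥ (hM.eigenvectorBasis k).ofLp) = hM.eigenvalues k := by
  rw [specA_quad hM, Finset.sum_eq_single k]
  · simp [hM.eigenvectorBasis.norm_eq_one k]
  · intro b _ hb
    simp [hM.eigenvectorBasis.inner_eq_zero hb]
  · simp

theorem specA_gm_herm (T : Fin 3 → H) : (gm T).IsHermitian := by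
  refine Matrix.IsHermitian.ext fun i j => ?_
  simp [gm, real_inner_comm]

theorem specA_gm_quad (T : Fin 3 → H) (v : EuclideanSpace ℝ (Fin 3)) :
    v.ofLp ⬝ᵥ (gm T *ᵥ v.ofLp) = ‖∑ i, v i • T i‖ ^ 2 := by
  rw [← real_inner_self_eq_norm_sq, sum_inner]
  simp only [dotProduct, mulVec]
  refine Finset.sum_congr rfl fun i _ => ?_
  rw [inner_sum, Finset.mul_sum]
  refine Finset.sum_congr rfl fun j _ => ?_
  rw [real_inner_smul_left, real_inner_smul_right]
  simp only [gm, of_apply]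
  ring

theorem specA_one_sub_herm (T : Fin 3 → H) : (1 - gm T).IsHermitian :=
  Matrix.isHermitian_one.sub (specA_gm_herm T)

theorem specA_one_sub_quad (T : Fin 3 → H) (v : EuclideanSpace ℝ (Fin 3)) :
    v.ofLp ⬝ᵥ ((1 - gm T) *ᵥ v.ofLp) = ‖v‖ ^ 2 - ‖∑ i, v i • T i‖ ^ 2 := by
  rw [sub_mulVec, one_mulVec, dotProduct_sub, specA_gm_quad, ← specA_inner_eq,
    real_inner_self_eq_norm_sq]

theorem specA_con_sq {T : Fin 3 → H} (hT : Con 0 T) (v : EuclideanSpace ℝ (Fin 3)) :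
    ‖∑ i, v i • T i‖ ^ 2 ≤ ‖v‖ ^ 2 := by
  have h := hT v
  rw [sub_zero, one_mul] at h
  exact pow_le_pow_left₀ (norm_nonneg _) h 2

/-- if the quadratic form is between `0` and `‖v‖²` then the eigenvalues are in `[0,1]`. -/
theorem specA_eig_mem {M : Matrix (Fin 3) (Fin 3) ℝ} (hM : M.IsHermitian)
    (h0 : ∀ v : EuclideanSpace ℝ (Fin 3), 0 ≤ v.ofLp ⬝ᵥ (M *ᵥ v.ofLp))
    (h1 : ∀ v : EuclideanSpace ℝ (Fin 3), v.ofLp ⬝ᵥ (M *ᵥ v.ofLp) ≤ ‖v‖ ^ 2) (k : Fin 3) :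
    0 ≤ hM.eigenvalues k ∧ hM.eigenvalues k ≤ 1 := by
  constructor
  · have := h0 (hM.eigenvectorBasis k)
    rwa [specA_eig] at this
  · have := h1 (hM.eigenvectorBasis k)
    rw [specA_eig, hM.eigenvectorBasis.norm_eq_one k] at this
    linarith

theorem specA_det {M : Matrix (Fin 3) (Fin 3) ℝ} (hM : M.IsHermitian) :
    M.det = hM.eigenvalues 0 * hM.eigenvalues 1 * hM.eigenvalues 2 := by
  rw [hM.det_eq_prod_eigenvalues, Fin.prod_univ_three]
  simp

theorem specA_one_sub_mem {T : Fin 3 → H} (hT : Con 0 T) (k : Fin 3) :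
    0 ≤ (specA_one_sub_herm T).eigenvalues k ∧ (specA_one_sub_herm T).eigenvalues k ≤ 1 := by
  refine specA_eig_mem _ (fun v => ?_) (fun v => ?_) k
  · rw [specA_one_sub_quad]
    have := specA_con_sq hT v
    linarith
  · rw [specA_one_sub_quad]
    have := sq_nonneg ‖∑ i, v i • T i‖
    linarith

theorem specA_gm_mem {T : Fin 3 → H} (hT : Con 0 T) (k : Fin 3) :
    0 ≤ (specA_gm_herm T).eigenvalues k ∧ (specA_gm_herm T).eigenvalues k ≤ 1 := by
  refine specA_eig_mem _ (fun v => ?_) (fun v => ?_) k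
  · rw [specA_gm_quad]
    positivity
  · rw [specA_gm_quad]
    exact specA_con_sq hT v

/-- `1 - gm T` is positive semidefinite with eigenvalues in `[0,1]`, so every eigenvalue is at
least the determinant. -/
theorem con_dd {T : Fin 3 → H} (hT : Con 0 T) :
    0 ≤ Dd T ∧ Dd T ≤ 1 ∧
      ∀ v : EuclideanSpace ℝ (Fin 3), ‖∑ i, v i • T i‖ ^ 2 ≤ (1 - Dd T) * ‖v‖ ^ 2 := by
  have hH := specA_one_sub_herm T
  have hm := specA_one_sub_mem hT
  have hD : Dd T = hH.eigenvalues 0 * hH.eigenvalues 1 * hH.eigenvalues 2 := specA_det hH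
  obtain ⟨a0, a1⟩ := hm 0
  obtain ⟨b0, b1⟩ := hm 1
  obtain ⟨c0, c1⟩ := hm 2
  have hab0 : 0 ≤ hH.eigenvalues 0 * hH.eigenvalues 1 := mul_nonneg a0 b0
  have hab1 : hH.eigenvalues 0 * hH.eigenvalues 1 ≤ 1 := mul_le_one₀ a1 b0 b1
  have hle : ∀ k, Dd T ≤ hH.eigenvalues k := by
    intro k
    rw [hD]
    fin_cases k
    · show hH.eigenvalues 0 * hH.eigenvalues 1 * hH.eigenvalues 2 ≤ hH.eigenvalues 0
      have h1 : hH.eigenvalues 0 * hH.eigenvalues 1 ≤ hH.eigenvalues 0 :=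
        mul_le_of_le_one_right a0 b1
      exact (mul_le_of_le_one_right hab0 c1).trans h1
    · show hH.eigenvalues 0 * hH.eigenvalues 1 * hH.eigenvalues 2 ≤ hH.eigenvalues 1
      have h1 : hH.eigenvalues 0 * hH.eigenvalues 1 ≤ hH.eigenvalues 1 :=
        mul_le_of_le_one_left b0 a1
      exact (mul_le_of_le_one_right hab0 c1).trans h1
    · show hH.eigenvalues 0 * hH.eigenvalues 1 * hH.eigenvalues 2 ≤ hH.eigenvalues 2
      exact mul_le_of_le_one_left c0 hab1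
  refine ⟨?_, ?_, fun v => ?_⟩
  · rw [hD]; exact mul_nonneg hab0 c0
  · rw [hD]; exact mul_le_one₀ hab1 c0 c1
  · have h1 := specA_one_sub_quad T v
    rw [specA_quad hH] at h1
    have h2 := specA_norm hH v
    have h3 : Dd T * ∑ k, (inner ℝ (hH.eigenvectorBasis k) v) ^ 2
        ≤ ∑ k, hH.eigenvalues k * (inner ℝ (hH.eigenvectorBasis k) v) ^ 2 := by
      rw [Finset.mul_sum]
      exact Finset.sum_le_sum fun k _ => mul_le_mul_of_nonneg_right (hle k) (sq_nonneg _)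
    rw [h1, h2] at h3
    linarith

theorem con_dl {T : Fin 3 → H} (hT : Con 0 T) : 0 ≤ Dl T ∧ Dl T ≤ 1 := by
  have hH := specA_gm_herm T
  have hm := specA_gm_mem hT
  have hD : Dl T = hH.eigenvalues 0 * hH.eigenvalues 1 * hH.eigenvalues 2 := specA_det hH
  obtain ⟨a0, a1⟩ := hm 0
  obtain ⟨b0, b1⟩ := hm 1
  obtain ⟨c0, c1⟩ := hm 2
  have hab0 : 0 ≤ hH.eigenvalues 0 * hH.eigenvalues 1 := mul_nonneg a0 b0
  have hab1 : hH.eigenvalues 0 * hH.eigenvalues 1 ≤ 1 := mul_le_one₀ a1 b0 b1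
  refine ⟨?_, ?_⟩
  · rw [hD]; exact mul_nonneg hab0 c0
  · rw [hD]; exact mul_le_one₀ hab1 c0 c1

/-- from `con_dd` and `√(1-D) ≤ 1 - D/2`. -/
theorem con_margin {T : Fin 3 → H} (hT : Con 0 T) : Con (Dd T / 2) T := by
  intro v
  obtain ⟨h0, h1, h2⟩ := con_dd hT
  have h3 := h2 v
  have hnn : 0 ≤ (1 - Dd T / 2) * ‖v‖ :=
    mul_nonneg (by linarith) (norm_nonneg v)
  refine (pow_le_pow_iff_left₀ (norm_nonneg _) hnn two_ne_zero).1 ?_
  rw [mul_pow]
  refine h3.trans ?_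
  refine mul_le_mul_of_nonneg_right ?_ (sq_nonneg _)
  nlinarith [sq_nonneg (Dd T)]

end Pool.Agent.LipThree
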