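import Pool.Agent.Lib.LipThree.Base
import Pool.Agent.Lib.LipThree.ConA
import Pool.Agent.Lib.LipThree.SpecA
import Pool.Agent.Lib.LipThree.ExpandA
import Pool.Agent.Lib.LipThree.BAlgA
import Pool.Agent.Lib.LipThree.BAlgB
import Pool.Agent.Lib.LipThree.CutA
import Pool.Agent.Lib.LipThree.GradA
import Pool.Agent.Lib.LipThree.BoundBA

/-! MP_31d174_an (LipThree): BumpBA -/

set_option autoImplicit false

open scoped BigOperators
open Matrix

namespace Pool.Agent.LipThree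

variable {H : Type*} [NormedAddCommGroup H] [InnerProductSpace ℝ H]

/-- amplitude of the B bump. -/
noncomputable def aB (T : Fin 3 → H) : ℝ := Dd T * Dl T / 10 ^ 9


private lemma rq_pos (T : Fin 3 → H) (x : H) : 0 < rq T x := by
  unfold rq
  have : 0 ≤ ∑ k, (qv T x k) ^ 2 := Finset.sum_nonneg fun k _ => sq_nonneg _
  positivity

private lemma rq_mul (T : Fin 3 → H) (x : H) : rq T x * (1 + ∑ k, (qv T x k) ^ 2) = 1 := by
  unfold rq
  have : 0 ≤ ∑ k, (qv T x k) ^ 2 := Finset.sum_nonneg fun k _ => sq_nonneg _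
  field_simp

private lemma rq_le_one (T : Fin 3 → H) (x : H) : rq T x ≤ 1 := by
  have h1 := rq_mul T x
  have h2 : 0 ≤ ∑ k, (qv T x k) ^ 2 := Finset.sum_nonneg fun k _ => sq_nonneg _
  have h3 := rq_pos T x
  nlinarith

private lemma cm_bounds (y : H) : 0 ≤ cm y ∧ cm y ≤ 1 := by
  unfold cm
  refine ⟨le_max_left _ _, max_le (by norm_num) ?_⟩
  have : 0 ≤ 16 * ‖y‖ ^ 2 := by positivity
  linarith

private lemma W_bounds (T : Fin 3 → H) (x : H) :
    0 ≤ (cm (yv T x)) ^ 2 * rq T x ∧ (cm (yv T x)) ^ 2 * rq T x ≤ 1 := by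
  obtain ⟨h0, h1⟩ := cm_bounds (yv T x)
  have h2 := rq_pos T x
  have h3 := rq_le_one T x
  refine ⟨by positivity, ?_⟩
  have : (cm (yv T x)) ^ 2 ≤ 1 := by nlinarith
  nlinarith

/-- the potential does not decrease along the B bump: `dd_expand` with
`e² = 10^6 a² W`, `first_order`, `(3+s) rq ≥ 1`, `a = D Δ / 10^9`. -/
theorem potB {T : Fin 3 → H} (hT : Con 0 T) (hl : 0 ≤ Dl T) (x : H) :
    Dd T ≤ Dd (T + tauB (aB T) T x) := by
  obtain ⟨hD0, hD1, -⟩ := con_dd hT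
  obtain ⟨-, hL1⟩ := con_dl hT
  obtain ⟨hW0, hW1⟩ := W_bounds T x
  have hp0 : 0 ≤ Dd T * Dl T := mul_nonneg hD0 hl
  have hp1 : Dd T * Dl T ≤ 1 := by nlinarith
  have ha0 : 0 ≤ aB T := by unfold aB; positivity
  have ha1 : aB T ≤ 1 / 10 ^ 9 := by unfold aB; linarith
  set W := (cm (yv T x)) ^ 2 * rq T x with hWdef
  have hsW0 : 0 ≤ Real.sqrt W := Real.sqrt_nonneg _
  have hsW1 : Real.sqrt W ≤ 1 := by
    rw [show (1 : ℝ) = Real.sqrt 1 by simp]
    exact Real.sqrt_le_sqrt hW1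
  have hsq : Real.sqrt W ^ 2 = W := Real.sq_sqrt hW0
  have he : 10 ^ 3 * aB T * Real.sqrt W ≤ 1 / 3 := by
    have : 10 ^ 3 * aB T * Real.sqrt W ≤ 10 ^ 3 * aB T * 1 :=
      mul_le_mul_of_nonneg_left hsW1 (by positivity)
    linarith
  have hτ : ∀ i, ‖tauB (aB T) T x i‖ ≤ 10 ^ 3 * aB T * Real.sqrt W := by
    intro i
    have h := tauB_norm_sq hT ha0 x i
    apply abs_le_of_sq_le_sq' _ (by positivity) |>.2
    calc ‖tauB (aB T) T x i‖ ^ 2 ≤ 10 ^ 6 * aB T ^ 2 * W := h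
      _ = (10 ^ 3 * aB T * Real.sqrt W) ^ 2 := by
        rw [mul_pow, mul_pow, hsq]; norm_num
  have h1 := dd_expand hT he hτ
  rw [first_order (aB T) T x] at h1
  set s := ∑ k, (qv T x k) ^ 2 with hs
  have hs0 : 0 ≤ s := Finset.sum_nonneg fun k _ => sq_nonneg _
  have hr := rq_mul T x
  have hrp := rq_pos T x
  rw [← hs] at hr
  have h3 : 1 ≤ rq T x * (3 + s) := by nlinarith
  have he2 : (10 ^ 3 * aB T * Real.sqrt W) ^ 2 = 10 ^ 6 * aB T ^ 2 * W := by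
    rw [mul_pow, mul_pow, hsq]; norm_num
  rw [he2] at h1
  have h4 : (cm (yv T x)) ^ 2 * (rq T x) ^ 2 * (3 + s) = W * (rq T x * (3 + s)) := by
    rw [hWdef]; ring
  rw [h4] at h1
  have h5 : Dd T * Dl T = 10 ^ 9 * aB T := by unfold aB; ring
  have h6 : 0 ≤ aB T * (10 ^ 9 * aB T) * (W * (rq T x * (3 + s)) - W) := by
    have : 0 ≤ W * (rq T x * (3 + s)) - W := by nlinarith
    positivity
  have h7 : 0 ≤ aB T ^ 2 * W := by positivity
  rw [h5] at h1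
  nlinarith

/-- `‖tauB‖ ≤ 10^3 a ≤ D/10^6`. -/
theorem conB {T : Fin 3 → H} (hT : Con 0 T) (hl : 0 ≤ Dl T) (x : H) :
    Con (Dd T / 8) (T + tauB (aB T) T x) := by
  obtain ⟨hD0, hD1, -⟩ := con_dd hT
  obtain ⟨-, hL1⟩ := con_dl hT
  obtain ⟨hW0, hW1⟩ := W_bounds T x
  have hp0 : 0 ≤ Dd T * Dl T := mul_nonneg hD0 hl
  have ha0 : 0 ≤ aB T := by unfold aB; positivity
  have haD : aB T ≤ Dd T / 10 ^ 9 := by
    unfold aB
    have : Dd T * Dl T ≤ Dd T := by nlinarith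
    linarith
  have hτ : ∀ i, ‖tauB (aB T) T x i‖ ≤ 10 ^ 3 * aB T := by
    intro i
    have h := tauB_norm_sq hT ha0 x i
    apply abs_le_of_sq_le_sq' _ (by positivity) |>.2
    calc ‖tauB (aB T) T x i‖ ^ 2
        ≤ 10 ^ 6 * aB T ^ 2 * ((cm (yv T x)) ^ 2 * rq T x) := h
      _ ≤ 10 ^ 6 * aB T ^ 2 * 1 := mul_le_mul_of_nonneg_left hW1 (by positivity)
      _ = (10 ^ 3 * aB T) ^ 2 := by ring
  have h1 := con_perturb (con_margin hT) hτ
  exact con_mono (by linarith) h1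

end Pool.Agent.LipThree
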