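import Pool.Agent.Lib.LipThree.Base
import Pool.Agent.Lib.LipThree.ConA
import Pool.Agent.Lib.LipThree.SpecA
import Pool.Agent.Lib.LipThree.BAlgA
import Pool.Agent.Lib.LipThree.CutA
import Pool.Agent.Lib.LipThree.GradA
import Pool.Agent.Lib.LipThree.BoundBA
import Pool.Agent.Lib.LipThree.BumpBA

/-! MP_31d174_an (LipThree): BumpBB -/

set_option autoImplicit false

open scoped BigOperators
open Matrix

namespace Pool.Agent.LipThree

variable {H : Type*} [NormedAddCommGroup H] [InnerProductSpace ℝ H]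

/-- far away (`R` large, depending on `δ` only) the gradient is small: if `‖yv T x‖ < 1/4` then
`‖uv T x‖ ≥ R - 1/4` and `∑ (qv T x k)² ≥ (Δ/6)² ‖uv T x‖²`. -/
theorem farB {δ : ℝ} (hδ : 0 < δ) : ∃ R : ℝ, 1 ≤ R ∧ ∀ (T : Fin 3 → H), Con 0 T →
    1 / 192 ≤ Dl T → ∀ x, R ≤ ‖x‖ → ‖tauB (aB T) T x‖ ≤ δ := by
  have hδi : 0 < 1 / δ := by positivity
  refine ⟨1 + 1 / δ, by linarith, ?_⟩
  intro T hT hl x hx
  rw [pi_norm_le_iff_of_nonneg hδ.le]
  intro j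
  obtain ⟨hD0, hD1, -⟩ := con_dd hT
  obtain ⟨hl0, hl1⟩ := con_dl hT
  have ha0 : 0 ≤ aB T := by
    unfold aB
    positivity
  have hDl : Dd T * Dl T ≤ 1 := by
    calc Dd T * Dl T ≤ 1 * 1 := mul_le_mul hD1 hl1 hl0 zero_le_one
      _ = 1 := one_mul 1
  have ha1 : aB T ≤ 1 / 10 ^ 9 := by
    unfold aB
    gcongr
  have h1 := tauB_norm_sq hT ha0 x j
  have ha2 : (aB T) ^ 2 ≤ (1 / 10 ^ 9) ^ 2 := by gcongr
  have hq0 : 0 ≤ ∑ k, (qv T x k) ^ 2 := Finset.sum_nonneg fun k _ => sq_nonneg _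
  have hrq0 : 0 ≤ rq T x := by
    unfold rq
    positivity
  have hsq : ‖tauB (aB T) T x j‖ ^ 2 ≤ δ ^ 2 := by
    by_cases hy : 1 / 4 ≤ ‖yv T x‖
    · rw [cm_eq_zero hy] at h1
      have : (10 : ℝ) ^ 6 * aB T ^ 2 * (0 ^ 2 * rq T x) = 0 := by ring
      rw [this] at h1
      exact h1.trans (by positivity)
    · push Not at hy
      have hu := norm_sq_uv_yv T x
      have hqu : ∑ k, (qv T x k) ^ 2 = ∑ k, (qv T (uv T x) k) ^ 2 :=
        Finset.sum_congr rfl fun k _ => by rw [qv_uv]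
      have hlow := qv_lower hT (uv_mem T x)
      rw [← hqu] at hlow
      have hy2 : ‖yv T x‖ ^ 2 ≤ (1 / 4) ^ 2 := by
        have := norm_nonneg (yv T x)
        gcongr
      have hx2 : (1 + 1 / δ) ^ 2 ≤ ‖x‖ ^ 2 := by gcongr
      have hu2 : (1 / δ) ^ 2 ≤ ‖uv T x‖ ^ 2 := by nlinarith
      have hl2 : (1 / 1152 : ℝ) ^ 2 ≤ (Dl T / 6) ^ 2 := by
        have : (1 / 1152 : ℝ) ≤ Dl T / 6 := by linarith
        gcongr
      have hq : (1 / 1152 : ℝ) ^ 2 * (1 / δ) ^ 2 ≤ ∑ k, (qv T x k) ^ 2 :=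
        (mul_le_mul hl2 hu2 (by positivity) (by positivity)).trans hlow
      have hrq : rq T x ≤ 1152 ^ 2 * δ ^ 2 := by
        unfold rq
        have h3 : (1 + ∑ k, (qv T x k) ^ 2)⁻¹ ≤ ((1 / 1152 : ℝ) ^ 2 * (1 / δ) ^ 2)⁻¹ := by
          apply inv_anti₀ (by positivity)
          linarith
        refine h3.trans (le_of_eq ?_)
        field_simp
      have hcm : (cm (yv T x)) ^ 2 ≤ 1 := by
        have h4 := cm_nonneg (yv T x)
        have h5 := cm_le_one (yv T x)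
        nlinarith
      calc ‖tauB (aB T) T x j‖ ^ 2 ≤ 10 ^ 6 * aB T ^ 2 * (cm (yv T x) ^ 2 * rq T x) := h1
        _ ≤ 10 ^ 6 * (1 / 10 ^ 9) ^ 2 * (1 * (1152 ^ 2 * δ ^ 2)) := by gcongr
        _ ≤ δ ^ 2 := by nlinarith [sq_nonneg δ]
  exact (pow_le_pow_iff_left₀ (norm_nonneg _) hδ.le two_ne_zero).1 hsq

end Pool.Agent.LipThree
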