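import Pool.Agent.Lib.LipThree.Base
import Pool.Agent.Lib.LipThree.ConA
import Pool.Agent.Lib.LipThree.SpecA
import Pool.Agent.Lib.LipThree.BAlgA
import Pool.Agent.Lib.LipThree.CutA
import Pool.Agent.Lib.LipThree.GradA
import Pool.Agent.Lib.LipThree.BumpBA

/-! MP_31d174_an (LipThree): BumpBC -/

set_option autoImplicit false

open scoped BigOperators
open Matrix

namespace Pool.Agent.LipThree

variable {H : Type*} [NormedAddCommGroup H] [InnerProductSpace ℝ H]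

/-- at `x = T 0`: `yv = 0`, `qv = G e₀`, `B G e₀ = Δ (1 - G) e₀`, so
`phiB 0 = - a Δ (1 - ‖T 0‖²)/(1+|q|²)`. -/
theorem visB {T : Fin 3 → H} (hT : Con 0 T) (hl : 1 / 192 ≤ Dl T) :
    (Dd T) ^ 2 / 10 ^ 14 ≤ |phiB (aB T) T 0 (T 0)| := by
  obtain ⟨hD0, hD1, hDv⟩ := con_dd hT
  have hmem : T 0 ∈ spn T := Submodule.subset_span ⟨0, rfl⟩
  have hy : yv T (T 0) = 0 := yv_of_mem T hmem
  have hB : (Bm T).mulVec (qv T (T 0)) 0 = Dl T * (1 - ‖T 0‖ ^ 2) := by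
    have h1 : (Bm T).mulVec (qv T (T 0)) 0 = (Bm T * gm T) 0 0 := by
      rw [Matrix.mul_apply]
      rfl
    rw [h1, Bm_mul_gm]
    simp [gm, Matrix.smul_apply]
  have hn : ‖T 0‖ ^ 2 ≤ 1 - Dd T := by
    have h := hDv (EuclideanSpace.single 0 1)
    simpa [Fin.sum_univ_three] using h
  have hn1 : ‖T 0‖ ≤ 1 := con_norm_le hT 0
  have hq := con_q hT (T 0)
  have hq0 : 0 ≤ ∑ k, (qv T (T 0) k) ^ 2 := Finset.sum_nonneg fun k _ => sq_nonneg _
  have hrq : 1 / 2 ≤ rq T (T 0) := by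
    unfold rq
    rw [← one_div]
    apply one_div_le_one_div_of_le (by linarith)
    nlinarith [norm_nonneg (T 0)]
  have hval : phiB (aB T) T 0 (T 0) = -(aB T * (rq T (T 0) * (Dl T * (1 - ‖T 0‖ ^ 2)))) := by
    unfold phiB
    rw [hy, cm_zero, hB]
    ring
  have hl0 : 0 ≤ Dl T := by linarith
  have ha : aB T = Dd T * Dl T / 10 ^ 9 := rfl
  rw [hval, abs_neg]
  have hlow : aB T * (1 / 2 * (Dl T * Dd T)) ≤ aB T * (rq T (T 0) * (Dl T * (1 - ‖T 0‖ ^ 2))) := by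
    have ha0 : 0 ≤ aB T := by rw [ha]; positivity
    apply mul_le_mul_of_nonneg_left _ ha0
    apply mul_le_mul hrq _ (by positivity) (by linarith)
    apply mul_le_mul_of_nonneg_left _ hl0
    linarith
  refine le_trans ?_ (le_trans hlow (le_abs_self _))
  rw [ha]
  have h2 : (1 / 192 : ℝ) ^ 2 ≤ (Dl T) ^ 2 := by
    apply pow_le_pow_left₀ (by norm_num) hl
  have h3 : Dd T * Dl T / 10 ^ 9 * (1 / 2 * (Dl T * Dd T))
      = (Dd T) ^ 2 * ((Dl T) ^ 2 / (2 * 10 ^ 9)) := by ring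
  rw [h3, div_eq_mul_inv]
  apply mul_le_mul_of_nonneg_left _ (sq_nonneg _)
  calc ((10 : ℝ) ^ 14)⁻¹ ≤ (1 / 192 : ℝ) ^ 2 / (2 * 10 ^ 9) := by norm_num
    _ ≤ (Dl T) ^ 2 / (2 * 10 ^ 9) := by
      apply div_le_div_of_nonneg_right h2 (by norm_num)

end Pool.Agent.LipThree
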