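import Pool.Agent.Lib.LipThree.Base
import Pool.Agent.Lib.LipThree.CutA
import Pool.Agent.Lib.LipThree.CutB
import Pool.Agent.Lib.LipThree.GradA

/-! MP_31d174_an (LipThree): GradB -/

set_option autoImplicit false

open scoped BigOperators
open Matrix

namespace Pool.Agent.LipThree

variable {H : Type*} [NormedAddCommGroup H] [InnerProductSpace ℝ H]

/-- `⟪yv T x, yv T h⟫ = ⟪yv T x, h⟫`. -/
theorem cut_hasFDerivAt (T : Fin 3 → H) (x : H) :
    HasFDerivAt (fun x : H => (cm (yv T x)) ^ 2)
      (innerSL ℝ ((-64 * cm (yv T x)) • yv T x)) x := by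
  have hy : HasFDerivAt (fun x : H => yv T x)
      (ContinuousLinearMap.id ℝ H - (spn T).starProjection) x := by
    exact (ContinuousLinearMap.id ℝ H - (spn T).starProjection).hasFDerivAt
  have h := (cm_sq_hasFDerivAt (yv T x)).comp x hy
  refine h.congr_fderiv ?_
  ext v
  simp only [ContinuousLinearMap.comp_apply, _root_.sub_apply,
    ContinuousLinearMap.id_apply, innerSL_apply_apply, inner_smul_left, inner_sub_right]
  have h0 : inner ℝ (yv T x) ((spn T).starProjection v) = 0 :=
    (spn T).starProjection_inner_eq_zero x _ ((spn T).starProjection_apply_mem v)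
  rw [h0, mul_zero, sub_zero]

theorem gradB_qv (T : Fin 3 → H) (k : Fin 3) (x : H) :
    HasFDerivAt (fun x : H => qv T x k) (innerSL ℝ (T k)) x := (innerSL ℝ (T k)).hasFDerivAt

theorem rq_hasFDerivAt (T : Fin 3 → H) (x : H) :
    HasFDerivAt (fun x : H => rq T x)
      (innerSL ℝ ((-2 * (rq T x) ^ 2) • ∑ k, qv T x k • T k)) x := by
  have h1 : HasFDerivAt (fun x : H => 1 + ∑ k, (qv T x k) ^ 2)
      (∑ k, (2 * qv T x k) • innerSL ℝ (T k)) x := by
    refine HasFDerivAt.const_add _ (HasFDerivAt.fun_sum fun k _ => ?_)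
    have h2 := (gradB_qv T k x).pow 2
    refine h2.congr_fderiv ?_
    simp
  have hne : (1 + ∑ k, (qv T x k) ^ 2) ≠ 0 := by positivity
  have h3 := (hasDerivAt_inv hne).comp_hasFDerivAt x h1
  refine HasFDerivAt.congr_fderiv h3 ?_
  ext v
  simp only [_root_.smul_apply, _root_.sum_apply, innerSL_apply_apply,
    inner_smul_left, sum_inner, smul_eq_mul, rq]
  simp only [Finset.mul_sum, conj_trivial]
  refine Finset.sum_congr rfl fun k _ => ?_
  rw [inv_pow]
  ring

theorem rau_hasFDerivAt (T : Fin 3 → H) (r : ℝ) (x : H) :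
    HasFDerivAt (fun x : H => ra (r • uv T x))
      (innerSL ℝ ((-2 * (ra (r • uv T x)) ^ 2 * r ^ 2) • uv T x)) x := by
  have hy : HasFDerivAt (fun x : H => r • uv T x) (r • (spn T).starProjection) x :=
    (r • (spn T).starProjection).hasFDerivAt
  have h := (ra_hasFDerivAt (r • uv T x)).comp x hy
  refine h.congr_fderiv ?_
  ext v
  have h0 : inner ℝ (uv T x) ((spn T).starProjection v) = inner ℝ (uv T x) v := by
    have h1 : inner ℝ (v - (spn T).starProjection v) (uv T x) = 0 :=
      (spn T).starProjection_inner_eq_zero v _ (uv_mem T x)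
    rw [real_inner_comm, inner_sub_right] at h1
    linarith
  simp only [ContinuousLinearMap.comp_apply, _root_.smul_apply,
    innerSL_apply_apply, inner_smul_left, inner_smul_right, h0, conj_trivial]
  ring

theorem gradB_mulVec (T : Fin 3 → H) (j : Fin 3) (x : H) :
    HasFDerivAt (fun x : H => (Bm T).mulVec (qv T x) j) (innerSL ℝ (∑ k, Bm T j k • T k)) x := by
  have h1 : HasFDerivAt (fun x : H => ∑ k, Bm T j k * qv T x k)
      (∑ k, Bm T j k • innerSL ℝ (T k)) x :=
    HasFDerivAt.fun_sum fun k _ => (gradB_qv T k x).const_mul _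
  refine h1.congr_fderiv ?_
  ext v
  simp only [_root_.smul_apply, _root_.sum_apply, innerSL_apply_apply,
    inner_smul_left, sum_inner, smul_eq_mul, conj_trivial]

theorem phiB_grad (a : ℝ) (T : Fin 3 → H) (j : Fin 3) (x : H) :
    HasFDerivAt (phiB a T j) (innerSL ℝ (tauB a T x j)) x := by
  have h := (((cut_hasFDerivAt T x).mul (rq_hasFDerivAt T x)).mul
    (gradB_mulVec T j x)).const_mul a |>.neg
  refine HasFDerivAt.congr_fderiv h ?_
  ext v
  simp only [tauB, _root_.neg_apply, _root_.smul_apply,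
    _root_.add_apply, innerSL_apply_apply, inner_smul_left, inner_neg_left,
    inner_add_left, smul_eq_mul, conj_trivial, Pi.mul_apply]
  ring

theorem phiC_grad (w : EuclideanSpace ℝ (Fin 3)) (r : ℝ) (T : Fin 3 → H) (j : Fin 3) (x : H) :
    HasFDerivAt (phiC w r T j) (innerSL ℝ (tauC w r T x j)) x := by
  have h := ((cut_hasFDerivAt T x).mul (rau_hasFDerivAt T r x)).const_mul (w j / 64)
  refine HasFDerivAt.congr_fderiv h ?_
  ext v
  simp only [tauC, _root_.smul_apply,
    _root_.add_apply, innerSL_apply_apply, inner_smul_left,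
    inner_add_left, smul_eq_mul, conj_trivial]
  ring

end Pool.Agent.LipThree
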