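import Pool.Agent.Lib.LipThree.Base
import Pool.Agent.Lib.LipThree.ConA
import Pool.Agent.Lib.LipThree.SpecA
import Pool.Agent.Lib.LipThree.CutA
import Pool.Agent.Lib.LipThree.GradA
import Pool.Agent.Lib.LipThree.GradB
import Pool.Agent.Lib.LipThree.BoundBA
import Pool.Agent.Lib.LipThree.BoundBB
import Pool.Agent.Lib.LipThree.BumpBA
import Pool.Agent.Lib.LipThree.BumpBB
import Pool.Agent.Lib.LipThree.BumpBC

/-! MP_31d174_an (LipThree): BumpB -/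

set_option autoImplicit false

open scoped BigOperators
open Matrix

namespace Pool.Agent.LipThree

variable {H : Type*} [NormedAddCommGroup H] [InnerProductSpace ℝ H]

theorem bumpB : ∃ K : ℝ, 1 ≤ K ∧ ∀ δ : ℝ, 0 < δ → ∃ R : ℝ, 1 ≤ R ∧
    ∀ T : Fin 3 → H, Con 0 T → 1 / 192 ≤ Dl T →
      ∃ (φ : Fin 3 → H → ℝ) (τ : H → Fin 3 → H), GoodBump K R δ T φ τ ∧
        (∀ x, Dd T ≤ Dd (T + τ x)) ∧
        ∃ v ∈ spn T, ‖v‖ ≤ 1 ∧ ∃ i, (Dd T) ^ 2 / 10 ^ 14 ≤ |φ i v| := by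
  obtain ⟨K, hK1, hK⟩ := tauB_lip (H := H)
  refine ⟨K, hK1, ?_⟩
  intro δ hδ
  obtain ⟨R, hR1, hR⟩ := farB (H := H) hδ
  refine ⟨R, hR1, ?_⟩
  intro T hT hl
  obtain ⟨hD0, hD1, -⟩ := con_dd hT
  obtain ⟨hL0, hL1⟩ := con_dl hT
  have ha : aB T = Dd T * Dl T / 10 ^ 9 := rfl
  have ha0 : 0 ≤ aB T := by rw [ha]; positivity
  have ha1 : aB T ≤ 1 / 10 ^ 9 := by
    rw [ha]
    apply div_le_div_of_nonneg_right (mul_le_one₀ hD1 hL0 hL1) (by norm_num)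
  refine ⟨phiB (aB T) T, tauB (aB T) T, ⟨?_, ?_, ?_, ?_, ?_, ?_⟩, ?_, ?_⟩
  · intro i x
    exact phiB_grad (aB T) T i x
  · intro x hx
    have h0 : cm (yv T x) = 0 := cm_eq_zero hx
    refine ⟨?_, ?_⟩
    · intro i
      unfold phiB
      rw [h0]
      ring
    · funext j
      unfold tauB
      rw [h0]
      simp
  · intro x x'
    exact hK T hT (aB T) ha0 (ha1.trans (by norm_num)) x x'
  · intro i x
    have h := phiB_abs hT ha0 i x
    have h2 : 10 * aB T ≤ 10 * (1 / 10 ^ 9) := by linarith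
    have h3 : (10 : ℝ) * (1 / 10 ^ 9) ≤ 1 := by norm_num
    linarith
  · intro x hx
    exact hR T hT hl x hx
  · intro x
    exact conB hT hL0 x
  · intro x
    exact potB hT hL0 x
  · exact ⟨T 0, Submodule.subset_span ⟨0, rfl⟩, con_norm_le hT 0, 0, visB hT hl⟩

end Pool.Agent.LipThree
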