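import Pool.Agent.Lib.LipThree.Base
import Pool.Agent.Lib.LipThree.ConA
import Pool.Agent.Lib.LipThree.SpecA

/-! MP_31d174_an (LipThree): CAlgA -/

set_option autoImplicit false

open scoped BigOperators
open Matrix

namespace Pool.Agent.LipThree

variable {H : Type*} [NormedAddCommGroup H] [InnerProductSpace ℝ H]

/-- the matrix `1 - c w wᵀ`. -/
private noncomputable def rk1 (c : ℝ) (w : EuclideanSpace ℝ (Fin 3)) : Matrix (Fin 3) (Fin 3) ℝ :=
  1 - c • Matrix.of fun i j => w i * w j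

private lemma rk1_det (c : ℝ) (w : EuclideanSpace ℝ (Fin 3)) (hw : ‖w‖ = 1) :
    (rk1 c w).det = 1 - c := by
  have h : w 0 ^ 2 + w 1 ^ 2 + w 2 ^ 2 = 1 := by
    have := EuclideanSpace.norm_sq_eq w
    rw [hw] at this
    simp only [Real.norm_eq_abs, sq_abs, Fin.sum_univ_three] at this
    linarith
  rw [Matrix.det_fin_three]
  simp [rk1]
  linear_combination (-c) * h

private lemma gm_add {T : Fin 3 → H} {w : EuclideanSpace ℝ (Fin 3)}
    {g : H} (hg : ∀ i, inner ℝ (T i) g = 0) (i j : Fin 3) :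
    gm (fun i => T i + w i • g) i j = gm T i j + ‖g‖ ^ 2 * (w i * w j) := by
  have hg' : ∀ i, inner ℝ g (T i) = 0 := fun i => by rw [real_inner_comm]; exact hg i
  simp only [gm, Matrix.of_apply, inner_add_left, inner_add_right, inner_smul_left,
    inner_smul_right, hg, hg', real_inner_self_eq_norm_sq]
  simp
  ring

/-- `A - |g|² w wᵀ = A (1 - |g|²/(1-μ) w wᵀ)` as `A w = (1-μ) w`, `A = 1 - gm T`; the determinant of the
second factor is `1 - |g|²/(1-μ) ≥ 1 - (4/3)/16`. -/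
theorem c_dd {T : Fin 3 → H} (hT : Con 0 T) {w : EuclideanSpace ℝ (Fin 3)} {μ : ℝ} (hw : ‖w‖ = 1)
    (h0 : 0 ≤ μ) (hμ : μ ≤ 1 / 4) (hev : ∀ i, ∑ j, gm T i j * w j = μ * w i)
    {g : H} (hg : ∀ i, inner ℝ (T i) g = 0) (hg2 : ‖g‖ ≤ 1 / 4) :
    2 / 3 * Dd T ≤ Dd (fun i => T i + w i • g) := by
  have hμ1 : (1 - μ) ≠ 0 := by linarith
  have key : (1 - gm (fun i => T i + w i • g)) = (1 - gm T) * rk1 (‖g‖ ^ 2 / (1 - μ)) w := by
    ext i j
    have h1 : ((1 - gm T) * rk1 (‖g‖ ^ 2 / (1 - μ)) w) i j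
        = (1 - gm T) i j - ‖g‖ ^ 2 / (1 - μ) * ((∑ k, (1 - gm T) i k * w k) * w j) := by
      rw [rk1, Matrix.mul_sub, Matrix.mul_one, Matrix.sub_apply, Matrix.mul_smul,
        Matrix.smul_apply, Matrix.mul_apply]
      simp only [Matrix.of_apply, smul_eq_mul, Finset.sum_mul]
      congr 2
      refine Finset.sum_congr rfl fun k _ => ?_
      ring
    have h2 : (∑ k, (1 - gm T) i k * w k) = (1 - μ) * w i := by
      have : (∑ k, (1 - gm T) i k * w k)
          = (∑ k, (1 : Matrix (Fin 3) (Fin 3) ℝ) i k * w k) - ∑ k, gm T i k * w k := by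
        rw [← Finset.sum_sub_distrib]
        refine Finset.sum_congr rfl fun k _ => ?_
        rw [Matrix.sub_apply]; ring
      rw [this, hev i]
      simp [Matrix.one_apply]
      ring
    rw [h1, h2, Matrix.sub_apply, Matrix.sub_apply, gm_add hg]
    field_simp
    ring
  unfold Dd
  rw [key, Matrix.det_mul, rk1_det _ _ hw]
  have hD : 0 ≤ (1 - gm T).det := (con_dd hT).1
  have hc : ‖g‖ ^ 2 / (1 - μ) ≤ 1 / 3 := by
    rw [div_le_iff₀ (by linarith)]
    have : ‖g‖ ^ 2 ≤ (1 / 4) ^ 2 := by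
      apply pow_le_pow_left₀ (norm_nonneg _) hg2
    nlinarith
  nlinarith

end Pool.Agent.LipThree
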