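import Pool.Agent.Lib.LipThree.Base
import Pool.Agent.Lib.LipThree.ConA
import Pool.Agent.Lib.LipThree.SpecA

/-! MP_31d174_an (LipThree): CAlgB -/

set_option autoImplicit false

open scoped BigOperators
open Matrix

namespace Pool.Agent.LipThree

variable {H : Type*} [NormedAddCommGroup H] [InnerProductSpace ℝ H]

/-- `‖∑ v i (T i + w i g)‖² = ⟪v, G v⟫ + ⟪v,w⟫²|g|²`, split `v = v₀ + ⟪v,w⟫ w`. -/
theorem c_con {T : Fin 3 → H} (hT : Con 0 T) {w : EuclideanSpace ℝ (Fin 3)} {μ : ℝ} (hw : ‖w‖ = 1)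
    (h0 : 0 ≤ μ) (hμ : μ ≤ 1 / 4) (hev : ∀ i, ∑ j, gm T i j * w j = μ * w i)
    {g : H} (hg : ∀ i, inner ℝ (T i) g = 0) (hg2 : ‖g‖ ≤ 1 / 4) :
    Con (Dd T / 4) (fun i => T i + w i • g) := by
  obtain ⟨hD0, hD1, hdd⟩ := con_dd hT
  intro v
  let S : EuclideanSpace ℝ (Fin 3) → H := fun u => ∑ i, u i • T i
  have hS : ∀ u, S u = ∑ i, u i • T i := fun u => rfl
  have hSw : ∀ i, inner ℝ (T i) (S w) = μ * w i := by
    intro i
    rw [hS, inner_sum, ← hev i]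
    refine Finset.sum_congr rfl fun j _ => ?_
    rw [real_inner_smul_right]
    unfold gm
    rw [Matrix.of_apply, mul_comm]
  have hSuw : ∀ u, inner ℝ (S u) (S w) = μ * ∑ i, u i * w i := by
    intro u
    rw [hS u, sum_inner, Finset.mul_sum]
    refine Finset.sum_congr rfl fun i _ => ?_
    rw [real_inner_smul_left, hSw]
    ring
  have hnorm : ∀ u : EuclideanSpace ℝ (Fin 3), ‖u‖ ^ 2 = ∑ i, u i * u i := by
    intro u
    rw [EuclideanSpace.norm_sq_eq]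
    refine Finset.sum_congr rfl fun i _ => ?_
    rw [Real.norm_eq_abs, sq_abs, sq]
  have hnw : ∑ i, w i * w i = 1 := by rw [← hnorm, hw]; norm_num
  obtain ⟨c, hc⟩ : ∃ c : ℝ, c = ∑ i, v i * w i := ⟨_, rfl⟩
  obtain ⟨v0, hv0⟩ : ∃ v0 : EuclideanSpace ℝ (Fin 3), v0 = v - c • w := ⟨_, rfl⟩
  have hv0i : ∀ i, v0 i = v i - c * w i := by intro i; rw [hv0]; simp
  have hv0w : ∑ i, v0 i * w i = 0 := by
    have h1 : ∑ i, v0 i * w i = ∑ i, v i * w i - c * ∑ i, w i * w i := by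
      rw [Finset.mul_sum, ← Finset.sum_sub_distrib]
      refine Finset.sum_congr rfl fun i _ => ?_
      rw [hv0i]
      ring
    rw [h1, hnw, ← hc]
    ring
  have hvn : ‖v‖ ^ 2 = ‖v0‖ ^ 2 + c ^ 2 := by
    rw [hnorm, hnorm]
    have h1 : ∑ i, v i * v i = ∑ i, v0 i * v0 i + 2 * c * ∑ i, v0 i * w i +
        c ^ 2 * ∑ i, w i * w i := by
      rw [Finset.mul_sum, Finset.mul_sum, ← Finset.sum_add_distrib, ← Finset.sum_add_distrib]
      refine Finset.sum_congr rfl fun i _ => ?_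
      rw [hv0i]
      ring
    rw [h1, hv0w, hnw]
    ring
  have hSv : S v = S v0 + c • S w := by
    rw [hS, hS, hS, Finset.smul_sum, ← Finset.sum_add_distrib]
    refine Finset.sum_congr rfl fun i _ => ?_
    rw [hv0i, smul_smul, ← add_smul]
    congr 1
    ring
  have h1 : ‖S v‖ ^ 2 = ‖S v0‖ ^ 2 + c ^ 2 * μ := by
    have e1 : inner ℝ (S v0) (S w) = 0 := by rw [hSuw, hv0w, mul_zero]
    have e2 : ‖S w‖ ^ 2 = μ := by rw [← real_inner_self_eq_norm_sq, hSuw, hnw, mul_one]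
    rw [hSv, norm_add_sq_real, real_inner_smul_right, e1, norm_smul, mul_pow, e2,
      Real.norm_eq_abs, sq_abs]
    ring
  have hvg : ∑ i, v i • (T i + w i • g) = S v + c • g := by
    rw [hS, hc, Finset.sum_smul, ← Finset.sum_add_distrib]
    refine Finset.sum_congr rfl fun i _ => ?_
    rw [smul_add, smul_smul]
  have hSg : inner ℝ (S v) g = 0 := by
    rw [hS, sum_inner]
    refine Finset.sum_eq_zero fun i _ => ?_
    rw [real_inner_smul_left, hg, mul_zero]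
  have h2 : ‖S v + c • g‖ ^ 2 = ‖S v‖ ^ 2 + c ^ 2 * ‖g‖ ^ 2 := by
    rw [norm_add_sq_real, real_inner_smul_right, hSg, norm_smul, mul_pow, Real.norm_eq_abs,
      sq_abs]
    ring
  have h3 : ‖S v0‖ ^ 2 ≤ (1 - Dd T) * ‖v0‖ ^ 2 := hdd v0
  have hg4 : ‖g‖ ^ 2 ≤ 1 / 16 := by
    have := norm_nonneg g
    nlinarith
  have hc2 : 0 ≤ c ^ 2 := sq_nonneg c
  have hv02 : 0 ≤ ‖v0‖ ^ 2 := sq_nonneg _
  have h4 : ‖S v + c • g‖ ^ 2 ≤ ((1 - Dd T / 4) * ‖v‖) ^ 2 := by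
    rw [h2, h1, mul_pow, hvn]
    have a1 : c ^ 2 * μ ≤ c ^ 2 * (1 / 4) := mul_le_mul_of_nonneg_left hμ hc2
    have a2 : c ^ 2 * ‖g‖ ^ 2 ≤ c ^ 2 * (1 / 16) := mul_le_mul_of_nonneg_left hg4 hc2
    have a3 : (1 - Dd T) * ‖v0‖ ^ 2 ≤ (1 - Dd T / 4) ^ 2 * ‖v0‖ ^ 2 :=
      mul_le_mul_of_nonneg_right (by nlinarith) hv02
    have a4 : 5 / 16 * c ^ 2 ≤ (1 - Dd T / 4) ^ 2 * c ^ 2 :=
      mul_le_mul_of_nonneg_right (by nlinarith) hc2
    linarith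
  show ‖∑ i, v i • (T i + w i • g)‖ ≤ (1 - Dd T / 4) * ‖v‖
  rw [hvg]
  exact (sq_le_sq₀ (norm_nonneg _) (mul_nonneg (by linarith) (norm_nonneg _))).1 h4

end Pool.Agent.LipThree
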