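import Pool.Agent.Lib.LipThree.Base

/-! MP_31d174_an (LipThree): ExpandB -/

set_option autoImplicit false

open scoped BigOperators
open Matrix

namespace Pool.Agent.LipThree

variable {H : Type*} [NormedAddCommGroup H] [InnerProductSpace ℝ H]

private theorem expandB_prod {a b c a' b' c' d : ℝ} (hb : |b| ≤ 4) (hc : |c| ≤ 4)
    (ha' : |a'| ≤ 4) (hb' : |b'| ≤ 4)
    (h1 : |a - a'| ≤ d) (h2 : |b - b'| ≤ d) (h3 : |c - c'| ≤ d) :
    |a * b * c - a' * b' * c'| ≤ 48 * d := by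
  have hd : 0 ≤ d := (abs_nonneg _).trans h1
  have e0 : a * b * c - a' * b' * c' =
      (a - a') * b * c + a' * (b - b') * c + a' * b' * (c - c') := by ring
  have t1 : |(a - a') * b * c| ≤ d * 4 * 4 := by
    rw [abs_mul, abs_mul]
    exact mul_le_mul (mul_le_mul h1 hb (abs_nonneg _) hd) hc (abs_nonneg _) (by positivity)
  have t2 : |a' * (b - b') * c| ≤ 4 * d * 4 := by
    rw [abs_mul, abs_mul]
    exact mul_le_mul (mul_le_mul ha' h2 (abs_nonneg _) (by norm_num)) hc (abs_nonneg _)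
      (by positivity)
  have t3 : |a' * b' * (c - c')| ≤ 4 * 4 * d := by
    rw [abs_mul, abs_mul]
    exact mul_le_mul (mul_le_mul ha' hb' (abs_nonneg _) (by norm_num)) h3 (abs_nonneg _)
      (by positivity)
  rw [e0]
  have := abs_add_three ((a - a') * b * c) (a' * (b - b') * c) (a' * b' * (c - c'))
  linarith

private theorem expandB_det {A A' : Matrix (Fin 3) (Fin 3) ℝ} {d : ℝ}
    (hA : ∀ i j, |A i j| ≤ 4) (hA' : ∀ i j, |A' i j| ≤ 4) (h : ∀ i j, |A i j - A' i j| ≤ d) :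
    |A.det - A'.det| ≤ 288 * d := by
  rw [Matrix.det_fin_three, Matrix.det_fin_three]
  have p1 := expandB_prod (hA 1 1) (hA 2 2) (hA' 0 0) (hA' 1 1) (h 0 0) (h 1 1) (h 2 2)
  have p2 := expandB_prod (hA 1 2) (hA 2 1) (hA' 0 0) (hA' 1 2) (h 0 0) (h 1 2) (h 2 1)
  have p3 := expandB_prod (hA 1 0) (hA 2 2) (hA' 0 1) (hA' 1 0) (h 0 1) (h 1 0) (h 2 2)
  have p4 := expandB_prod (hA 1 2) (hA 2 0) (hA' 0 1) (hA' 1 2) (h 0 1) (h 1 2) (h 2 0)
  have p5 := expandB_prod (hA 1 0) (hA 2 1) (hA' 0 2) (hA' 1 0) (h 0 2) (h 1 0) (h 2 1)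
  have p6 := expandB_prod (hA 1 1) (hA 2 0) (hA' 0 2) (hA' 1 1) (h 0 2) (h 1 1) (h 2 0)
  rw [abs_le] at p1 p2 p3 p4 p5 p6 ⊢
  constructor <;> linarith [p1.1, p1.2, p2.1, p2.2, p3.1, p3.2, p4.1, p4.2, p5.1, p5.2, p6.1,
    p6.2]

private theorem expandB_gm_le {T : Fin 3 → H} (hT : ∀ i, ‖T i‖ ≤ 2) (i j : Fin 3) :
    |gm T i j| ≤ 4 := by
  have h1 : |inner ℝ (T i) (T j)| ≤ ‖T i‖ * ‖T j‖ := abs_real_inner_le_norm _ _
  show |inner ℝ (T i) (T j)| ≤ 4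
  nlinarith [norm_nonneg (T i), norm_nonneg (T j), hT i, hT j]

private theorem expandB_gm_sub {T T' : Fin 3 → H} {e : ℝ} (hT : ∀ i, ‖T i‖ ≤ 2)
    (hT' : ∀ i, ‖T' i‖ ≤ 2) (h : ∀ i, ‖T i - T' i‖ ≤ e) (i j : Fin 3) :
    |gm T i j - gm T' i j| ≤ 4 * e := by
  have he : 0 ≤ e := (norm_nonneg _).trans (h 0)
  have h0 : gm T i j - gm T' i j = inner ℝ (T i - T' i) (T j) + inner ℝ (T' i) (T j - T' j) := by
    rw [inner_sub_left, inner_sub_right]
    show inner ℝ (T i) (T j) - inner ℝ (T' i) (T' j) = _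
    ring
  have h1 : |inner ℝ (T i - T' i) (T j)| ≤ e * 2 :=
    (abs_real_inner_le_norm _ _).trans (mul_le_mul (h i) (hT j) (norm_nonneg _) he)
  have h2 : |inner ℝ (T' i) (T j - T' j)| ≤ 2 * e :=
    (abs_real_inner_le_norm _ _).trans (mul_le_mul (hT' i) (h j) (norm_nonneg _) (by norm_num))
  rw [h0]
  have := abs_add_le (inner ℝ (T i - T' i) (T j)) (inner ℝ (T' i) (T j - T' j))
  linarith

private theorem expandB_one_sub {T : Fin 3 → H} (hT : ∀ i, ‖T i‖ ≤ 2) (i j : Fin 3) :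
    |(1 - gm T) i j| ≤ 4 := by
  have h1 := expandB_gm_le hT i j
  rw [Matrix.sub_apply]
  by_cases hij : i = j
  · subst hij
    rw [Matrix.one_apply_eq]
    have h2 : 0 ≤ gm T i i := by
      show 0 ≤ inner ℝ (T i) (T i)
      exact real_inner_self_nonneg
    rw [abs_le] at h1 ⊢
    constructor <;> linarith
  · rw [Matrix.one_apply_ne hij, zero_sub, abs_neg]
    exact h1

/-- crude Lipschitz bound. -/
theorem dd_lip {T T' : Fin 3 → H} {e : ℝ} (hT : ∀ i, ‖T i‖ ≤ 2) (hT' : ∀ i, ‖T' i‖ ≤ 2)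
    (h : ∀ i, ‖T i - T' i‖ ≤ e) : |Dd T - Dd T'| ≤ 2000 * e := by
  have he : 0 ≤ e := (norm_nonneg _).trans (h 0)
  have h1 := expandB_det (d := 4 * e) (expandB_one_sub hT) (expandB_one_sub hT') (fun i j => by
    have h2 := expandB_gm_sub hT hT' h i j
    rw [abs_sub_comm] at h2
    rw [Matrix.sub_apply, Matrix.sub_apply]
    have h3 : (1 : Matrix (Fin 3) (Fin 3) ℝ) i j - gm T i j -
        ((1 : Matrix (Fin 3) (Fin 3) ℝ) i j - gm T' i j) = gm T' i j - gm T i j := by ring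
    rw [h3]
    exact h2)
  refine h1.trans ?_
  linarith

theorem dl_lip {T T' : Fin 3 → H} {e : ℝ} (hT : ∀ i, ‖T i‖ ≤ 2) (hT' : ∀ i, ‖T' i‖ ≤ 2)
    (h : ∀ i, ‖T i - T' i‖ ≤ e) : |Dl T - Dl T'| ≤ 2000 * e := by
  have he : 0 ≤ e := (norm_nonneg _).trans (h 0)
  have h1 := expandB_det (expandB_gm_le hT) (expandB_gm_le hT') (expandB_gm_sub hT hT' h)
  refine h1.trans ?_
  linarith

end Pool.Agent.LipThree
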