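import Pool.Agent.Lib.LipThree.Base
import Pool.Agent.Lib.LipThree.ConA
import Pool.Agent.Lib.LipThree.SpecA

/-! MP_31d174_an (LipThree): SpecB -/

set_option autoImplicit false

open scoped BigOperators
open Matrix

namespace Pool.Agent.LipThree

variable {H : Type*} [NormedAddCommGroup H] [InnerProductSpace ℝ H]

/-- if the smallest eigenvalue of `gm T` is `> 1/4` then `Dl T > 1/64`; so some eigenvector. -/
theorem exists_eig {T : Fin 3 → H} (hT : Con 0 T) (h : Dl T < 1 / 64) :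
    ∃ w : EuclideanSpace ℝ (Fin 3), ∃ μ : ℝ, ‖w‖ = 1 ∧ 0 ≤ μ ∧ μ ≤ 1 / 4 ∧
      ∀ i, ∑ j, gm T i j * w j = μ * w i := by
  have hH := specA_gm_herm T
  have hm := specA_gm_mem hT
  have hD : Dl T = hH.eigenvalues 0 * hH.eigenvalues 1 * hH.eigenvalues 2 := specA_det hH
  have hex : ∃ k, hH.eigenvalues k ≤ 1 / 4 := by
    by_contra hcon
    push Not at hcon
    have h0 := hcon 0
    have h1 := hcon 1
    have h2 := hcon 2
    have h01 : (1 / 4 : ℝ) * (1 / 4) < hH.eigenvalues 0 * hH.eigenvalues 1 :=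
      mul_lt_mul'' h0 h1 (by norm_num) (by norm_num)
    have h012 : (1 / 4 : ℝ) * (1 / 4) * (1 / 4)
        < hH.eigenvalues 0 * hH.eigenvalues 1 * hH.eigenvalues 2 :=
      mul_lt_mul'' h01 h2 (by norm_num) (by norm_num)
    rw [← hD] at h012
    norm_num at h012 h
    linarith
  obtain ⟨k, hk⟩ := hex
  refine ⟨hH.eigenvectorBasis k, hH.eigenvalues k, hH.eigenvectorBasis.norm_eq_one k,
    (hm k).1, hk, fun i => ?_⟩
  have := congrFun (hH.mulVec_eigenvectorBasis k) i
  simpa [mulVec, dotProduct] using this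

end Pool.Agent.LipThree
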