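import Pool.Agent.Lib.LipThree.Base
import Pool.Agent.Lib.LipThree.ConA
import Pool.Agent.Lib.LipThree.SpecA
import Pool.Agent.Lib.LipThree.SpecB
import Pool.Agent.Lib.LipThree.ExpandB
import Pool.Agent.Lib.LipThree.CAlgA
import Pool.Agent.Lib.LipThree.CAlgB
import Pool.Agent.Lib.LipThree.CutA
import Pool.Agent.Lib.LipThree.CutB
import Pool.Agent.Lib.LipThree.GradA
import Pool.Agent.Lib.LipThree.GradB
import Pool.Agent.Lib.LipThree.BoundCA
import Pool.Agent.Lib.LipThree.BoundCB

/-! MP_31d174_an (LipThree): BumpC -/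

set_option autoImplicit false

open scoped BigOperators
open Matrix

namespace Pool.Agent.LipThree

variable {H : Type*} [NormedAddCommGroup H] [InnerProductSpace ℝ H]

/-- choose `w` from `exists_eig`, `r ≤ min (δ/10^5) (d/100)`, then `R` with `2 ra ≤ δ` beyond `R`. -/
theorem bumpC : ∃ K : ℝ, 1 ≤ K ∧ ∀ d δ : ℝ, 0 < d → 0 < δ → ∃ R : ℝ, 1 ≤ R ∧
    ∀ T : Fin 3 → H, Con 0 T → Dl T < 1 / 64 → d ≤ Dd T →
      ∃ (φ : Fin 3 → H → ℝ) (τ : H → Fin 3 → H), GoodBump K R δ T φ τ ∧
        (∀ x, 2 / 3 * Dd T - δ ≤ Dd (T + τ x)) ∧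
        ∃ v ∈ spn T, ‖v‖ ≤ 1 ∧ ∃ i, 1 / 200 ≤ |φ i v| := by
  obtain ⟨K, hK1, hK⟩ := tauC_lip (H := H)
  refine ⟨K, hK1, ?_⟩
  intro d δ hd hδ
  obtain ⟨r, hr, hr1, hr2, hr3⟩ : ∃ r : ℝ, 0 < r ∧ r ≤ δ / 10 ^ 5 ∧ r ≤ d / 100 ∧ r ≤ 1 / 2 := by
    refine ⟨min (δ / 10 ^ 5) (min (d / 100) (1 / 2)), ?_, min_le_left _ _,
      (min_le_right _ _).trans (min_le_left _ _), (min_le_right _ _).trans (min_le_right _ _)⟩
    exact lt_min (by positivity) (lt_min (by positivity) (by norm_num))
  refine ⟨2 + 2 / (r ^ 2 * δ), ?_, ?_⟩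
  · have : 0 ≤ 2 / (r ^ 2 * δ) := by positivity
    linarith
  intro T hT hDl hDd
  obtain ⟨w, μ, hw, hμ0, hμ, hev⟩ := exists_eig hT hDl
  have hsplit : ∀ x : H, T + tauC w r T x = (fun i => T i + w i • gC r T x)
      + (fun i => tauC w r T x i - w i • gC r T x) := by
    intro x
    funext i
    simp only [Pi.add_apply]
    abel
  have herr : ∀ (x : H) (i : Fin 3), ‖tauC w r T x i - w i • gC r T x‖ ≤ r :=
    fun x i => tauC_split hw hr.le T x i
  have hwj : ∀ j, |w j| ≤ 1 := by
    intro j
    have := PiLp.norm_apply_le w j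
    rw [Real.norm_eq_abs, hw] at this
    exact this
  refine ⟨phiC w r T, tauC w r T, ?_, ?_, ?_⟩
  · refine ⟨fun i x => phiC_grad w r T i x, ?_, fun x x' => hK T w hw r hr.le (by linarith) x x',
      fun i x => phiC_abs hw r T i x, ?_, ?_⟩
    · intro x hx
      have hc := cm_eq_zero hx
      refine ⟨fun i => ?_, ?_⟩
      · unfold phiC
        rw [hc]
        ring
      · funext j
        unfold tauC
        rw [hc]
        simp
    · intro x hx
      rw [pi_norm_le_iff_of_nonneg hδ.le]
      intro j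
      by_cases hy : 1 / 4 ≤ ‖yv T x‖
      · have hc := cm_eq_zero hy
        have : tauC w r T x j = 0 := by
          unfold tauC
          rw [hc]
          simp
        rw [this, norm_zero]
        exact hδ.le
      · push Not at hy
        refine (tauC_decay hw hr.le (by linarith) T x j).trans ?_
        have hsq := norm_sq_uv_yv T x
        have hy0 := norm_nonneg (yv T x)
        have hy2 : ‖yv T x‖ ^ 2 ≤ 1 / 16 := by nlinarith
        have hq : 0 ≤ 2 / (r ^ 2 * δ) := by positivity
        have hR : 2 / (r ^ 2 * δ) + 1 ≤ ‖x‖ ^ 2 := by nlinarith [norm_nonneg x]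
        have hu : 2 / (r ^ 2 * δ) ≤ ‖uv T x‖ ^ 2 := by linarith
        have hru : 2 / δ ≤ ‖r • uv T x‖ ^ 2 := by
          rw [norm_smul, Real.norm_eq_abs, abs_of_pos hr, mul_pow]
          calc 2 / δ = r ^ 2 * (2 / (r ^ 2 * δ)) := by
                field_simp
            _ ≤ r ^ 2 * ‖uv T x‖ ^ 2 := by
                apply mul_le_mul_of_nonneg_left hu (by positivity)
        unfold ra
        have h2 : 2 / δ ≤ 1 + ‖r • uv T x‖ ^ 2 := by linarith
        calc 2 * (1 + ‖r • uv T x‖ ^ 2)⁻¹ ≤ 2 * (2 / δ)⁻¹ := by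
              apply mul_le_mul_of_nonneg_left _ (by norm_num)
              exact inv_anti₀ (by positivity) h2
          _ = δ := by
              rw [inv_div]
              ring
    · intro x
      rw [hsplit x]
      have h1 := c_con hT hw hμ0 hμ hev (gC_orth r T x) (gC_norm r T x)
      have h2 := con_perturb h1 (herr x)
      refine con_mono ?_ h2
      linarith
  · intro x
    have h1 := c_dd hT hw hμ0 hμ hev (gC_orth r T x) (gC_norm r T x)
    have hb : ∀ i, ‖T i + w i • gC r T x‖ ≤ 5 / 4 := by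
      intro i
      have e1 := con_norm_le hT i
      have e2 := gC_norm r T x
      have e3 := hwj i
      have e4 : ‖w i • gC r T x‖ ≤ 1 * (1 / 4) := by
        rw [norm_smul, Real.norm_eq_abs]
        exact mul_le_mul e3 e2 (norm_nonneg _) zero_le_one
      have := norm_add_le (T i) (w i • gC r T x)
      linarith
    have hdiff : ∀ i, ‖(T + tauC w r T x) i - (T i + w i • gC r T x)‖ ≤ r := by
      intro i
      have e1 : (T + tauC w r T x) i - (T i + w i • gC r T x)
          = tauC w r T x i - w i • gC r T x := by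
        simp only [Pi.add_apply]
        abel
      rw [e1]
      exact herr x i
    have hb' : ∀ i, ‖(T + tauC w r T x) i‖ ≤ 2 := by
      intro i
      have e1 := hb i
      have e2 := hdiff i
      have e3 : (T + tauC w r T x) i = (T i + w i • gC r T x)
          + ((T + tauC w r T x) i - (T i + w i • gC r T x)) := by abel
      rw [e3]
      have := norm_add_le (T i + w i • gC r T x)
        ((T + tauC w r T x) i - (T i + w i • gC r T x))
      linarith
    have h3 := dd_lip (T := T + tauC w r T x) (T' := fun i => T i + w i • gC r T x) hb'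
      (fun i => (hb i).trans (by norm_num)) hdiff
    have h4 := (abs_le.mp h3).1
    linarith
  · refine ⟨0, Submodule.zero_mem _, by simp, ?_⟩
    have hex : ∃ i, 1 / 2 ≤ |w i| := by
      by_contra hcon
      push Not at hcon
      have h1 : ‖w‖ ^ 2 = ∑ i, |w i| ^ 2 := by
        rw [EuclideanSpace.norm_sq_eq]
        simp only [Real.norm_eq_abs]
      have h2 : ∀ i, |w i| ^ 2 ≤ 1 / 4 := by
        intro i
        have := hcon i
        have h0 := abs_nonneg (w i)
        nlinarith
      rw [hw, Fin.sum_univ_three] at h1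
      have a0 := h2 0
      have a1 := h2 1
      have a2 := h2 2
      linarith
    obtain ⟨i, hi⟩ := hex
    refine ⟨i, ?_⟩
    have hy : yv T (0 : H) = 0 := yv_of_mem T (Submodule.zero_mem _)
    have hu : uv T (0 : H) = 0 := uv_of_mem T (Submodule.zero_mem _)
    have : phiC w r T i 0 = w i / 64 := by
      unfold phiC
      rw [hy, hu, cm_zero]
      unfold ra
      simp
    rw [this, abs_div, abs_of_nonneg (by norm_num : (0 : ℝ) ≤ 64)]
    linarith

end Pool.Agent.LipThree
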