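import Pool.Agent.Lib.LipThree.Base

/-! MP_31d174_an (LipThree): L2A -/

set_option autoImplicit false

open scoped BigOperators
open Matrix

namespace Pool.Agent.LipThree

variable {H : Type*} [NormedAddCommGroup H] [InnerProductSpace ℝ H]

theorem l2_dense : ∃ z : ℕ → lp (fun _ : ℕ => ℝ) 2, DenseRange z := by
  let b : HilbertBasis ℕ ℝ (lp (fun _ : ℕ => ℝ) 2) :=
    HilbertBasis.ofRepr (LinearIsometryEquiv.refl ℝ _)
  have h1 : TopologicalSpace.IsSeparable
      ((Submodule.span ℝ (Set.range b) : Submodule ℝ (lp (fun _ : ℕ => ℝ) 2)) :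
        Set (lp (fun _ : ℕ => ℝ) 2)) :=
    ((Set.countable_range b).isSeparable).span
  have h2 : closure ((Submodule.span ℝ (Set.range b) : Submodule ℝ (lp (fun _ : ℕ => ℝ) 2)) :
        Set (lp (fun _ : ℕ => ℝ) 2)) = Set.univ := by
    rw [← Submodule.topologicalClosure_coe, b.dense_span, Submodule.top_coe]
  have h3 : TopologicalSpace.IsSeparable (Set.univ : Set (lp (fun _ : ℕ => ℝ) 2)) := by
    rw [← h2]; exact h1.closure
  have : TopologicalSpace.SeparableSpace (lp (fun _ : ℕ => ℝ) 2) :=
    TopologicalSpace.isSeparable_univ_iff.1 h3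
  exact TopologicalSpace.exists_dense_seq _

end Pool.Agent.LipThree
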