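import Pool.Agent.Lib.LipThree.Base

/-! MP_31d174_an (LipThree): L2B -/

set_option autoImplicit false

open scoped BigOperators
open Matrix

namespace Pool.Agent.LipThree

variable {H : Type*} [NormedAddCommGroup H] [InnerProductSpace ℝ H]

theorem l2_inf (F : Submodule ℝ (lp (fun _ : ℕ => ℝ) 2)) (hF : FiniteDimensional ℝ F) :
    ∃ g ∈ Fᗮ, ‖g‖ = 1 := by
  let b : HilbertBasis ℕ ℝ (lp (fun _ : ℕ => ℝ) 2) :=
    HilbertBasis.ofRepr (LinearIsometryEquiv.refl ℝ _)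
  have hne : F ≠ ⊤ := by
    rintro rfl
    have : FiniteDimensional ℝ (lp (fun _ : ℕ => ℝ) 2) :=
      FiniteDimensional.of_surjective (Submodule.subtype ⊤)
        (fun x => ⟨⟨x, Submodule.mem_top⟩, rfl⟩)
    have hli := b.orthonormal.linearIndependent
    have := hli.finite
    exact not_finite ℕ
  have hbot : Fᗮ ≠ ⊥ := by
    intro h
    exact hne (Submodule.orthogonal_eq_bot_iff.1 h)
  obtain ⟨x, hx, hx0⟩ := Submodule.exists_mem_ne_zero_of_ne_bot hbot
  refine ⟨‖x‖⁻¹ • x, Fᗮ.smul_mem _ hx, ?_⟩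
  rw [norm_smul, norm_inv, norm_norm, inv_mul_cancel₀ (norm_ne_zero_iff.2 hx0)]

end Pool.Agent.LipThree
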