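import Pool.Agent.Lib.LipThree.Base

/-! MP_31d174_an (LipThree): PackA -/

set_option autoImplicit false

open scoped BigOperators
open Matrix

namespace Pool.Agent.LipThree

variable {H : Type*} [NormedAddCommGroup H] [InnerProductSpace ℝ H]

/-- choose `g m` inductively, orthogonal to `spn (T k)`, `z k` (`k ≤ m`) and `g k` (`k < m`). -/
theorem packing_dirs (hinf : ∀ F : Submodule ℝ H, FiniteDimensional ℝ F → ∃ g ∈ Fᗮ, ‖g‖ = 1)
    (z : ℕ → H) (T : ℕ → Fin 3 → H) :
    ∃ g : ℕ → H, (∀ m, ‖g m‖ = 1) ∧ (∀ k m, k ≤ m → g m ∈ (spn (T k))ᗮ) ∧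
      (∀ k m, k ≤ m → inner ℝ (g m) (z k) = 0) ∧ (∀ k m, k < m → inner ℝ (g m) (g k) = 0) := by
  classical
  choose! γ hγ using hinf
  obtain ⟨F, hF0, hFs⟩ : ∃ F : ℕ → Submodule ℝ H, F 0 = spn (T 0) ⊔ Submodule.span ℝ {z 0} ∧
      ∀ m, F (m + 1) = (F m ⊔ Submodule.span ℝ {γ (F m)}) ⊔
        (spn (T (m + 1)) ⊔ Submodule.span ℝ {z (m + 1)}) :=
    ⟨fun m => Nat.rec (spn (T 0) ⊔ Submodule.span ℝ {z 0}) (fun m F =>
      (F ⊔ Submodule.span ℝ {γ F}) ⊔ (spn (T (m + 1)) ⊔ Submodule.span ℝ {z (m + 1)})) m,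
      rfl, fun m => rfl⟩
  have hfin : ∀ m : ℕ, FiniteDimensional ℝ ↥(F m) := by
    intro m
    induction m with
    | zero => rw [hF0]; infer_instance
    | succ m ih => rw [hFs]; infer_instance
  have hmono : Monotone F := by
    refine monotone_nat_of_le_succ fun m => ?_
    rw [hFs]
    exact le_sup_left.trans le_sup_left
  have hT : ∀ k, spn (T k) ≤ F k := by
    intro k
    cases k with
    | zero => rw [hF0]; exact le_sup_left
    | succ k => rw [hFs]; exact le_sup_left.trans le_sup_right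
  have hz : ∀ k, z k ∈ F k := by
    intro k
    cases k with
    | zero =>
      rw [hF0]
      exact (le_sup_right : Submodule.span ℝ {z 0} ≤ _) (Submodule.mem_span_singleton_self _)
    | succ k =>
      rw [hFs]
      exact ((le_sup_right : Submodule.span ℝ {z (k + 1)} ≤ _).trans le_sup_right)
        (Submodule.mem_span_singleton_self _)
  have hg : ∀ k, γ (F k) ∈ F (k + 1) := by
    intro k
    rw [hFs]
    exact ((le_sup_right : Submodule.span ℝ {γ (F k)} ≤ _).trans le_sup_left)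
      (Submodule.mem_span_singleton_self _)
  refine ⟨fun m => γ (F m), fun m => (hγ (F m) (hfin m)).2, ?_, ?_, ?_⟩
  · intro k m hkm
    exact Submodule.orthogonal_le ((hT k).trans (hmono hkm)) (hγ (F m) (hfin m)).1
  · intro k m hkm
    exact (Submodule.mem_orthogonal' _ _).1 (hγ (F m) (hfin m)).1 _ (hmono hkm (hz k))
  · intro k m hkm
    exact (Submodule.mem_orthogonal' _ _).1 (hγ (F m) (hfin m)).1 _
      (hmono (Nat.succ_le_of_lt hkm) (hg k))

end Pool.Agent.LipThree
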