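import Pool.Agent.Lib.LipThree.Base
import Pool.Agent.Lib.LipThree.PackA
import Pool.Agent.Lib.LipThree.GradA

/-! MP_31d174_an (LipThree): PackB -/

set_option autoImplicit false

open scoped BigOperators
open Matrix

namespace Pool.Agent.LipThree

variable {H : Type*} [NormedAddCommGroup H] [InnerProductSpace ℝ H]

private theorem inner_orth_le {T : Fin 3 → H} {g x : H} {s : ℝ} (hg : ‖g‖ = 1)
    (hgo : g ∈ (spn T)ᗮ) (hx : ‖yv T x‖ ≤ s) : |inner ℝ g x| ≤ s := by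
  have h1 : inner ℝ g x = inner ℝ g (yv T x) := by
    conv_lhs => rw [← uv_add_yv T x]
    rw [inner_add_right, Submodule.inner_left_of_mem_orthogonal (uv_mem T x) hgo, zero_add]
  rw [h1]
  calc |inner ℝ g (yv T x)| ≤ ‖g‖ * ‖yv T x‖ := abs_real_inner_le_norm _ _
    _ ≤ s := by rw [hg, one_mul]; exact hx

private theorem sep_aux (z : ℕ → H) (T : ℕ → Fin 3 → H) (g : ℕ → H) (h1 : ∀ m, ‖g m‖ = 1)
    (h2 : ∀ k m, k ≤ m → g m ∈ (spn (T k))ᗮ) (h3 : ∀ k m, k ≤ m → inner ℝ (g m) (z k) = 0)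
    (h4 : ∀ k m, k < m → inner ℝ (g m) (g k) = 0) (σ : ℝ) (m m' : ℕ) (hm : m' < m) (x x' : H)
    (hx : ‖yv (T m) (x - (z m + σ • g m))‖ ≤ σ / 4)
    (hx' : ‖yv (T m') (x' - (z m' + σ • g m'))‖ ≤ σ / 4) : σ / 2 ≤ ‖x - x'‖ := by
  have a1 := inner_orth_le (h1 m) (h2 m m le_rfl) hx
  have a2 := inner_orth_le (h1 m) (h2 m' m hm.le) hx'
  have e1 : inner ℝ (g m) (g m) = (1 : ℝ) := by
    rw [real_inner_self_eq_norm_sq, h1 m, one_pow]
  have a3 : inner ℝ (g m) (x - (z m + σ • g m)) = inner ℝ (g m) x - σ := by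
    rw [inner_sub_right, inner_add_right, inner_smul_right, h3 m m le_rfl, e1]; ring
  have a4 : inner ℝ (g m) (x' - (z m' + σ • g m')) = inner ℝ (g m) x' := by
    rw [inner_sub_right, inner_add_right, inner_smul_right, h3 m' m hm.le, h4 m' m hm]; ring
  rw [a3, abs_le] at a1
  rw [a4, abs_le] at a2
  have a5 : |inner ℝ (g m) (x - x')| ≤ ‖x - x'‖ := by
    calc |inner ℝ (g m) (x - x')| ≤ ‖g m‖ * ‖x - x'‖ := abs_real_inner_le_norm _ _
      _ = ‖x - x'‖ := by rw [h1 m, one_mul]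
  rw [inner_sub_right] at a5
  have := le_abs_self (inner ℝ (g m) x - inner ℝ (g m) x')
  linarith [a1.1, a2.2]

/-- the cylinders of radius `σ/4` around `z m + σ g m + spn (T m)` are at distance `≥ σ/2`:
pair `x - x'` with `g m`, `m` the larger index. -/
theorem packing_sep (hinf : ∀ F : Submodule ℝ H, FiniteDimensional ℝ F → ∃ g ∈ Fᗮ, ‖g‖ = 1)
    (z : ℕ → H) (T : ℕ → Fin 3 → H) :
    ∃ g : ℕ → H, (∀ m, ‖g m‖ = 1) ∧ (∀ m, g m ∈ (spn (T m))ᗮ) ∧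
      ∀ σ : ℝ, 0 < σ → ∀ m m' : ℕ, m ≠ m' → ∀ x x' : H,
        ‖yv (T m) (x - (z m + σ • g m))‖ ≤ σ / 4 →
        ‖yv (T m') (x' - (z m' + σ • g m'))‖ ≤ σ / 4 → σ / 2 ≤ ‖x - x'‖ := by
  obtain ⟨g, h1, h2, h3, h4⟩ := packing_dirs hinf z T
  refine ⟨g, h1, fun m => h2 m m le_rfl, ?_⟩
  intro σ _ m m' hne x x' hx hx'
  rcases lt_or_gt_of_ne hne with h | h
  · rw [norm_sub_rev]
    exact sep_aux z T g h1 h2 h3 h4 σ m' m h x' x hx' hx
  · exact sep_aux z T g h1 h2 h3 h4 σ m m' h x x' hx hx'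

end Pool.Agent.LipThree
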