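import Pool.Agent.Lib.LipThree.Base

/-! MP_31d174_an (LipThree): SecondDiff -/

set_option autoImplicit false

open scoped BigOperators
open Matrix

namespace Pool.Agent.LipThree

variable {H : Type*} [NormedAddCommGroup H] [InnerProductSpace ℝ H]

private theorem first_diff {f : H → ℝ} {T : H → H} (hf : ∀ x, HasFDerivAt f (innerSL ℝ (T x)) x)
    {σ e : ℝ} (hT : ∀ x x', ‖x - x'‖ ≤ σ → ‖T x - T x'‖ ≤ e) (p h : H) (hh : ‖h‖ ≤ σ) :
    |f (p + h) - f p - inner ℝ (T p) h| ≤ e * ‖h‖ := by
  have key := (convex_closedBall p ‖h‖).norm_image_sub_le_of_norm_hasFDerivWithin_le'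
    (f := f) (f' := fun x => innerSL ℝ (T x)) (φ := innerSL ℝ (T p)) (C := e)
    (x := p) (y := p + h)
    (fun x _ => (hf x).hasFDerivWithinAt)
    (fun x hx => by
      have h1 : innerSL ℝ (T x) - innerSL ℝ (T p) = innerSL ℝ (T x - T p) := by
        rw [map_sub]
      rw [h1, innerSL_apply_norm]
      apply hT
      have := mem_closedBall_iff_norm.mp hx
      linarith)
    (Metric.mem_closedBall_self (norm_nonneg h))
    (by
      rw [mem_closedBall_iff_norm]
      simp)
  simpa [Real.norm_eq_abs] using key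

/-- second difference of a function with uniformly continuous gradient. -/
theorem second_diff {f : H → ℝ} {T : H → H} (hf : ∀ x, HasFDerivAt f (innerSL ℝ (T x)) x)
    {σ e : ℝ} (hT : ∀ x x', ‖x - x'‖ ≤ σ → ‖T x - T x'‖ ≤ e) (p h : H) (hh : ‖h‖ ≤ σ) :
    |f (p + h) + f (p - h) - 2 * f p| ≤ 2 * e * ‖h‖ := by
  have h1 := first_diff hf hT p h hh
  have h2 := first_diff hf hT p (-h) (by rwa [norm_neg])
  rw [norm_neg, inner_neg_right, ← sub_eq_add_neg] at h2
  rw [abs_le] at h1 h2 ⊢
  constructor <;> nlinarith [h1.1, h1.2, h2.1, h2.2]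

end Pool.Agent.LipThree
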