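import Pool.Agent.Lib.LipThree.Base
import Pool.Agent.Lib.LipThree.GradA

/-! MP_31d174_an (LipThree): SumBump -/

set_option autoImplicit false

open scoped BigOperators
open Matrix

namespace Pool.Agent.LipThree

variable {H : Type*} [NormedAddCommGroup H] [InnerProductSpace ℝ H]

private theorem supp_scaled {K R δ σ : ℝ} (hσ : 0 < σ) {T : Fin 3 → H} {φ : Fin 3 → H → ℝ}
    {τ : H → Fin 3 → H} (hg : GoodBump K R δ T φ τ) {y : H} (hy : ¬ ‖yv T y‖ ≤ σ / 4) :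
    (∀ i, φ i (σ⁻¹ • y) = 0) ∧ τ (σ⁻¹ • y) = 0 := by
  apply hg.supp
  rw [yv_smul, norm_smul, Real.norm_of_nonneg (inv_nonneg.mpr hσ.le)]
  have : 1 / 4 = σ⁻¹ * (σ / 4) := by field_simp
  rw [this]
  exact mul_le_mul_of_nonneg_left (not_le.mp hy).le (inv_nonneg.mpr hσ.le)

/-- The sum of the rescaled bumps.  At each point at most one of them does not vanish, and the
supports are `σ/2`-separated.  (Define `F i x = σ * ∑' m, φ m i (σ⁻¹ • (x - c m))` or by choice.) -/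
theorem sum_bump {K R δ σ : ℝ} (hσ : 0 < σ) (c : ℕ → H) (Tm : ℕ → Fin 3 → H)
    (φ : ℕ → Fin 3 → H → ℝ) (τ : ℕ → H → Fin 3 → H)
    (hgood : ∀ m, GoodBump K R δ (Tm m) (φ m) (τ m))
    (hsep : ∀ m m' : ℕ, m ≠ m' → ∀ x x' : H, ‖yv (Tm m) (x - c m)‖ ≤ σ / 4 →
        ‖yv (Tm m') (x' - c m')‖ ≤ σ / 4 → σ / 2 ≤ ‖x - x'‖) :
    ∃ (F : Fin 3 → H → ℝ) (S : H → Fin 3 → H),
      (∀ i x, HasFDerivAt (F i) (innerSL ℝ (S x i)) x) ∧
      (∀ x x', ‖x - x'‖ < σ / 4 → ‖S x - S x'‖ ≤ K / σ * ‖x - x'‖) ∧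
      (∀ i x, |F i x| ≤ σ) ∧
      (∀ x, ∃ m, S x = τ m (σ⁻¹ • (x - c m))) ∧
      (∀ m p x, ‖yv (Tm m) (p - c m)‖ ≤ σ / 4 → ‖x - p‖ < σ / 2 →
        ∀ i, F i x = σ * φ m i (σ⁻¹ • (x - c m))) := by
  classical
  let idx : H → ℕ := fun x =>
    if h : ∃ m, ‖yv (Tm m) (x - c m)‖ ≤ σ / 4 then h.choose else 0
  have hidx : ∀ x, (∃ m, ‖yv (Tm m) (x - c m)‖ ≤ σ / 4) →
      ‖yv (Tm (idx x)) (x - c (idx x))‖ ≤ σ / 4 := by
    intro x h
    have : idx x = h.choose := by simp only [idx]; rw [dif_pos h]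
    rw [this]
    exact h.choose_spec
  let F : Fin 3 → H → ℝ := fun i x => σ * φ (idx x) i (σ⁻¹ • (x - c (idx x)))
  let S : H → Fin 3 → H := fun x => τ (idx x) (σ⁻¹ • (x - c (idx x)))
  -- key lemma
  have key : ∀ m p x, ‖yv (Tm m) (p - c m)‖ ≤ σ / 4 → ‖x - p‖ < σ / 2 →
      (∀ i, F i x = σ * φ m i (σ⁻¹ • (x - c m))) ∧ S x = τ m (σ⁻¹ • (x - c m)) := by
    intro m p x hp hx
    by_cases h : ∃ m', ‖yv (Tm m') (x - c m')‖ ≤ σ / 4
    · have h1 := hidx x h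
      have h2 : idx x = m := by
        by_contra hne
        have := hsep (idx x) m hne x p h1 hp
        linarith
      constructor
      · intro i
        simp only [F]
        rw [h2]
      · simp only [S]
        rw [h2]
    · have h' : ∀ m', ¬ ‖yv (Tm m') (x - c m')‖ ≤ σ / 4 := fun m' hm' => h ⟨m', hm'⟩
      have s1 := supp_scaled hσ (hgood (idx x)) (h' (idx x))
      have s2 := supp_scaled hσ (hgood m) (h' m)
      constructor
      · intro i
        simp only [F]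
        rw [s1.1 i, s2.1 i]
      · simp only [S]
        rw [s1.2, s2.2]
  have loc : ∀ x, ∃ m, ∀ x', ‖x' - x‖ < σ / 4 →
      (∀ i, F i x' = σ * φ m i (σ⁻¹ • (x' - c m))) ∧ S x' = τ m (σ⁻¹ • (x' - c m)) := by
    intro x
    by_cases h : ∃ m p, ‖yv (Tm m) (p - c m)‖ ≤ σ / 4 ∧ ‖x - p‖ < σ / 4
    · obtain ⟨m, p, hp, hxp⟩ := h
      refine ⟨m, fun x' hx' => key m p x' hp ?_⟩
      calc ‖x' - p‖ = ‖(x' - x) + (x - p)‖ := by rw [sub_add_sub_cancel]
        _ ≤ ‖x' - x‖ + ‖x - p‖ := norm_add_le _ _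
        _ < σ / 4 + σ / 4 := add_lt_add hx' hxp
        _ = σ / 2 := by ring
    · refine ⟨0, fun x' hx' => ?_⟩
      have h' : ∀ m', ¬ ‖yv (Tm m') (x' - c m')‖ ≤ σ / 4 := fun m' hm' =>
        h ⟨m', x', hm', by rwa [norm_sub_rev]⟩
      have s1 := supp_scaled hσ (hgood (idx x')) (h' (idx x'))
      have s2 := supp_scaled hσ (hgood 0) (h' 0)
      constructor
      · intro i
        simp only [F]
        rw [s1.1 i, s2.1 i]
      · simp only [S]
        rw [s1.2, s2.2]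
  refine ⟨F, S, ?_, ?_, ?_, fun x => ⟨idx x, rfl⟩, fun m p x hp hx => (key m p x hp hx).1⟩
  · intro i x
    obtain ⟨m, hm⟩ := loc x
    have hx0 := (hm x (by simpa using by positivity)).2
    rw [hx0]
    have e1 : F i =ᶠ[nhds x] fun x' => σ * φ m i (σ⁻¹ • (x' - c m)) := by
      filter_upwards [Metric.ball_mem_nhds x (show (0 : ℝ) < σ / 4 by positivity)] with x' hx'
      exact (hm x' (by rwa [Metric.mem_ball, dist_eq_norm] at hx')).1 i
    refine HasFDerivAt.congr_of_eventuallyEq ?_ e1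
    have d1 : HasFDerivAt (fun x' : H => σ⁻¹ • (x' - c m)) (σ⁻¹ • ContinuousLinearMap.id ℝ H) x :=
      ((hasFDerivAt_id x).sub_const (c m)).const_smul σ⁻¹
    have d2 := (((hgood m).grad i (σ⁻¹ • (x - c m))).comp x d1).const_mul σ
    refine d2.congr_fderiv ?_
    ext y
    simp only [_root_.smul_apply, ContinuousLinearMap.comp_apply,
      ContinuousLinearMap.id_apply, smul_eq_mul, innerSL_apply_apply, inner_smul_right]
    field_simp
  · intro x x' hxx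
    obtain ⟨m, hm⟩ := loc x
    rw [(hm x (by simpa using by positivity)).2, (hm x' (by rwa [norm_sub_rev])).2]
    calc ‖τ m (σ⁻¹ • (x - c m)) - τ m (σ⁻¹ • (x' - c m))‖
        ≤ K * ‖σ⁻¹ • (x - c m) - σ⁻¹ • (x' - c m)‖ := (hgood m).lip _ _
      _ = K / σ * ‖x - x'‖ := by
          rw [← smul_sub, sub_sub_sub_cancel_right, norm_smul,
            Real.norm_of_nonneg (inv_nonneg.mpr hσ.le)]
          ring
  · intro i x
    simp only [F]
    rw [abs_mul, abs_of_pos hσ]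
    calc σ * |φ (idx x) i (σ⁻¹ • (x - c (idx x)))| ≤ σ * 1 :=
          mul_le_mul_of_nonneg_left ((hgood _).bphi _ _) hσ.le
      _ = σ := mul_one _

end Pool.Agent.LipThree
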