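import Pool.Agent.Lib.LipThree.Base

/-! MP_31d174_an (LipThree): Thr -/

set_option autoImplicit false

open scoped BigOperators
open Matrix

namespace Pool.Agent.LipThree

variable {H : Type*} [NormedAddCommGroup H] [InnerProductSpace ℝ H]

theorem thr_ge (t : ℝ) : 1 / 192 ≤ thr t := by
  unfold thr
  have := Real.neg_one_le_cos (Real.pi * t / 2)
  linarith

theorem thr_le (t : ℝ) : thr t ≤ 1 / 64 := by
  unfold thr
  have := Real.cos_le_one (Real.pi * t / 2)
  linarith

private theorem abs_cos_sub_le (a b : ℝ) : |Real.cos a - Real.cos b| ≤ |a - b| := by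
  rw [Real.cos_sub_cos]
  rw [abs_mul, abs_mul]
  have h1 : |Real.sin ((a + b) / 2)| ≤ 1 := Real.abs_sin_le_one _
  have h2 : |Real.sin ((a - b) / 2)| ≤ |(a - b) / 2| := Real.abs_sin_le_abs
  have h3 : |(a - b) / 2| = |a - b| / 2 := by
    rw [abs_div, abs_two]
  rw [h3] at h2
  have h4 : |(-2 : ℝ)| = 2 := by norm_num
  rw [h4]
  calc 2 * |Real.sin ((a + b) / 2)| * |Real.sin ((a - b) / 2)|
      ≤ 2 * 1 * (|a - b| / 2) := by
        apply mul_le_mul _ h2 (abs_nonneg _) (by norm_num)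
        linarith
    _ = |a - b| := by ring

theorem thr_lip (t t' : ℝ) : |thr t - thr t'| ≤ |t - t'| := by
  unfold thr
  have h1 := abs_cos_sub_le (Real.pi * t / 2) (Real.pi * t' / 2)
  have h2 : Real.pi * t / 2 - Real.pi * t' / 2 = Real.pi / 2 * (t - t') := by ring
  rw [h2, abs_mul, abs_of_pos (by positivity : (0 : ℝ) < Real.pi / 2)] at h1
  have h3 : (2 + Real.cos (Real.pi * t / 2)) / 192 - (2 + Real.cos (Real.pi * t' / 2)) / 192 =
      (Real.cos (Real.pi * t / 2) - Real.cos (Real.pi * t' / 2)) / 192 := by ring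
  rw [h3, abs_div, abs_of_pos (by norm_num : (0 : ℝ) < 192), div_le_iff₀ (by norm_num)]
  have h4 := Real.pi_lt_four
  have h5 := abs_nonneg (t - t')
  nlinarith

private theorem half_le_cos {s : ℝ} (h : |s| ≤ 1 / 2) : 1 / 2 ≤ Real.cos (Real.pi * s / 2) := by
  have hpi := Real.pi_pos
  rw [abs_le] at h
  have h1 : |Real.pi * s / 2| ≤ Real.pi / 3 := by
    rw [abs_le]
    constructor <;> nlinarith
  rw [← Real.cos_abs, ← Real.cos_pi_div_three]
  apply Real.cos_le_cos_of_nonneg_of_le_pi (abs_nonneg _) (by linarith) h1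

theorem thr_high (k : ℕ) {t : ℝ} (h : |t - 4 * k| ≤ 1 / 2) : 5 / 2 / 192 ≤ thr t := by
  have h1 := half_le_cos h
  have h2 : Real.pi * (t - 4 * k) / 2 = Real.pi * t / 2 - k * (2 * Real.pi) := by ring
  rw [h2, Real.cos_sub_nat_mul_two_pi] at h1
  unfold thr
  linarith

theorem thr_low (k : ℕ) {t : ℝ} (h : |t - (4 * k + 2)| ≤ 1 / 2) : thr t ≤ 3 / 2 / 192 := by
  have h1 := half_le_cos h
  have h2 : Real.pi * (t - (4 * k + 2)) / 2 = (Real.pi * t / 2 - Real.pi) - k * (2 * Real.pi) := by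
    ring
  rw [h2, Real.cos_sub_nat_mul_two_pi, Real.cos_sub_pi] at h1
  unfold thr
  linarith

end Pool.Agent.LipThree
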