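import Pool.Agent.Lib.LipThree.Base
import Pool.Agent.Lib.LipThree.ConA
import Pool.Agent.Lib.LipThree.SpecA
import Pool.Agent.Lib.LipThree.ExpandB
import Pool.Agent.Lib.LipThree.GradA
import Pool.Agent.Lib.LipThree.BumpB
import Pool.Agent.Lib.LipThree.BumpC
import Pool.Agent.Lib.LipThree.PackB
import Pool.Agent.Lib.LipThree.SumBump
import Pool.Agent.Lib.LipThree.Thr
import Pool.Agent.Lib.LipThree.SecondDiff

/-! MP_31d174_an (LipThree): Step -/

set_option autoImplicit false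

open scoped BigOperators
open Matrix

namespace Pool.Agent.LipThree

variable {H : Type*} [NormedAddCommGroup H] [InnerProductSpace ℝ H]

/-- the conclusion of one step, with visibility constant `c`. -/
structure StepRel (c : ℝ) (s σ : ℝ) (f : Fin 3 → H → ℝ) (T : H → Fin 3 → H) (t : H → ℝ)
    (f' : Fin 3 → H → ℝ) (T' : H → Fin 3 → H) (t' : H → ℝ) : Prop where
  close : ∀ i x, |f' i x - f i x| ≤ σ
  mono : ∀ x, t x ≤ t' x
  inc : ∀ x, t' x ≤ t x + 1
  touch : ∀ x, t x < t' x → Dl (T x) < thr (t x) + 2 * s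
  vis : ∀ x, ∃ (p h : H) (i : Fin 3), ‖p - x‖ ≤ 3 * σ ∧ ‖h‖ ≤ σ ∧
    c * (Dd (T x)) ^ 2 * σ ≤ |f' i (p + h) + f' i (p - h) - 2 * f' i p|
  visC : ∀ x, Dl (T x) < thr (t x) - s → ∃ (p h : H) (i : Fin 3), ‖p - x‖ ≤ 3 * σ ∧ ‖h‖ ≤ σ ∧
    c * σ ≤ |f' i (p + h) + f' i (p - h) - 2 * f' i p|

theorem GoodBump.mono' {K R δ K' R' : ℝ} {T : Fin 3 → H} {φ : Fin 3 → H → ℝ} {τ : H → Fin 3 → H}
    (h : GoodBump K R δ T φ τ) (hK : K ≤ K') (hR : R ≤ R') : GoodBump K' R' δ T φ τ :=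
  { grad := h.grad
    supp := h.supp
    lip := fun x x' => (h.lip x x').trans (mul_le_mul_of_nonneg_right hK (norm_nonneg _))
    bphi := h.bphi
    far := fun x hx => h.far x (hR.trans hx)
    con := h.con }

/-- the ramp function. -/
noncomputable def ramp (s v : ℝ) : ℝ := max 0 (min 1 (2 - v / s))

theorem ramp_nonneg (s v : ℝ) : 0 ≤ ramp s v := le_max_left _ _

theorem ramp_le_one (s v : ℝ) : ramp s v ≤ 1 := max_le zero_le_one (min_le_left _ _)

theorem ramp_eq_one {s v : ℝ} (hs : 0 < s) (h : v ≤ s) : ramp s v = 1 := by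
  unfold ramp
  have h1 : v / s ≤ 1 := by rw [div_le_one hs]; exact h
  rw [min_eq_left (by linarith), max_eq_right zero_le_one]

theorem ramp_pos {s v : ℝ} (hs : 0 < s) (h : 0 < ramp s v) : v < 2 * s := by
  unfold ramp at h
  rcases lt_max_iff.mp h with h | h
  · exact absurd h (lt_irrefl _)
  · have h1 : 0 < 2 - v / s := lt_of_lt_of_le h (min_le_right _ _)
    have h2 : v / s < 2 := by linarith
    rwa [div_lt_iff₀ hs] at h2

theorem ramp_lip {s : ℝ} (hs : 0 < s) (v v' : ℝ) : |ramp s v - ramp s v'| ≤ |v - v'| / s := by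
  unfold ramp
  have h1 : |max 0 (min 1 (2 - v / s)) - max 0 (min 1 (2 - v' / s))|
      ≤ |min 1 (2 - v / s) - min 1 (2 - v' / s)| := by
    have := abs_max_sub_max_le_abs (min 1 (2 - v / s)) (min 1 (2 - v' / s)) 0
    simpa [max_comm] using this
  have h2 : |min 1 (2 - v / s) - min 1 (2 - v' / s)| ≤ |(2 - v / s) - (2 - v' / s)| := by
    have := abs_min_sub_min_le_max 1 (2 - v / s) 1 (2 - v' / s)
    simpa using this
  have h3 : |(2 - v / s) - (2 - v' / s)| = |v - v'| / s := by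
    rw [show (2 - v / s) - (2 - v' / s) = -((v - v') / s) by ring, abs_neg, abs_div, abs_of_pos hs]
  linarith

theorem Dl_uniformContinuous {T : H → Fin 3 → H} (hT : UniformContinuous T) (hc : ∀ x, Con 0 (T x)) :
    UniformContinuous (fun x => Dl (T x)) := by
  rw [Metric.uniformContinuous_iff]
  intro ε hε
  obtain ⟨δ, hδ, h⟩ := Metric.uniformContinuous_iff.mp hT (ε / 4000) (by positivity)
  refine ⟨δ, hδ, fun {a b} hab => ?_⟩
  have h1 := h hab
  rw [dist_eq_norm] at h1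
  have h2 : ∀ i, ‖T a i - T b i‖ ≤ ε / 4000 := fun i =>
    (norm_le_pi_norm (T a - T b) i).trans h1.le
  have h3 := dl_lip (T := T a) (T' := T b) (e := ε / 4000)
    (fun i => (con_norm_le (hc a) i).trans (by norm_num))
    (fun i => (con_norm_le (hc b) i).trans (by norm_num)) h2
  rw [Real.dist_eq]
  linarith


/-- a bump chosen at a base point. -/
structure Choice (K R δ thrv : ℝ) (T : Fin 3 → H) (φ : Fin 3 → H → ℝ) (τ : H → Fin 3 → H)
    (v : H) (i : Fin 3) : Prop where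
  good : GoodBump K R δ T φ τ
  potB : ¬ Dl T < thrv → ∀ x, Dd T ≤ Dd (T + τ x)
  potC : Dl T < thrv → ∀ x, 2 / 3 * Dd T - δ ≤ Dd (T + τ x)
  mem : v ∈ spn T
  nv : ‖v‖ ≤ 1
  vis : (Dd T) ^ 2 / 10 ^ 14 ≤ |φ i v|
  visC : Dl T < thrv → 1 / 200 ≤ |φ i v|

theorem exists_choice (H : Type*) [NormedAddCommGroup H] [InnerProductSpace ℝ H] :
    ∃ K : ℝ, 1 ≤ K ∧ ∀ d δ : ℝ, 0 < d → 0 < δ → ∃ R : ℝ, 1 ≤ R ∧
      ∀ (T : Fin 3 → H) (thrv : ℝ), Con 0 T → d ≤ Dd T → 1 / 192 ≤ thrv → thrv ≤ 1 / 64 →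
        ∃ φ τ v i, Choice K R δ thrv T φ τ v i := by
  obtain ⟨KB, hKB1, hB⟩ := bumpB (H := H)
  obtain ⟨KC, hKC1, hC⟩ := bumpC (H := H)
  refine ⟨max KB KC, le_max_of_le_left hKB1, fun d δ hd hδ => ?_⟩
  obtain ⟨RB, hRB1, hB⟩ := hB δ hδ
  obtain ⟨RC, hRC1, hC⟩ := hC d δ hd hδ
  refine ⟨max RB RC, le_max_of_le_left hRB1, fun T thrv hT hdT h1 h2 => ?_⟩
  by_cases h : Dl T < thrv
  · obtain ⟨φ, τ, hg, hp, v, hv, hnv, i, hi⟩ := hC T hT (lt_of_lt_of_le h h2) hdT
    refine ⟨φ, τ, v, i, ⟨hg.mono' (le_max_right _ _) (le_max_right _ _), fun h' => absurd h h',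
      fun _ => hp, hv, hnv, ?_, fun _ => hi⟩⟩
    have h3 := (con_dd hT).2.1
    have h4 := (con_dd hT).1
    have h5 : (Dd T) ^ 2 ≤ 1 := by nlinarith
    have h6 : (Dd T) ^ 2 / 10 ^ 14 ≤ 1 / 200 := by
      rw [div_le_iff₀ (by positivity)]
      linarith
    linarith
  · obtain ⟨φ, τ, hg, hp, v, hv, hnv, i, hi⟩ := hB T hT (h1.trans (not_lt.mp h))
    exact ⟨φ, τ, v, i, ⟨hg.mono' (le_max_left _ _) (le_max_left _ _), fun _ => hp,
      fun h' => absurd h' h, hv, hnv, hi, fun h' => absurd h' h⟩⟩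

theorem near_con {T₀ T₁ τ : Fin 3 → H} {κ δ : ℝ} (h : Con κ (T₀ + τ))
    (hT : ∀ i, ‖T₁ i - T₀ i‖ ≤ δ) (hδ : 2 * δ ≤ κ) : Con 0 (T₁ + τ) := by
  have h1 := con_perturb (τ := T₁ - T₀) (e := δ) h (fun i => by simpa using hT i)
  have h2 : T₀ + τ + (T₁ - T₀) = T₁ + τ := by abel
  rw [h2] at h1
  exact con_mono (by linarith) h1

theorem near_pot {T₀ T₁ τ : Fin 3 → H} {δ : ℝ} (h : Con 0 (T₀ + τ)) (h' : Con 0 (T₁ + τ))
    (hT : ∀ i, ‖T₁ i - T₀ i‖ ≤ δ) : Dd (T₀ + τ) - 2000 * δ ≤ Dd (T₁ + τ) := by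
  have h1 := dd_lip (T := T₀ + τ) (T' := T₁ + τ) (e := δ)
    (fun i => (con_norm_le h i).trans (by norm_num))
    (fun i => (con_norm_le h' i).trans (by norm_num))
    (fun i => by
      have : (T₀ + τ) i - (T₁ + τ) i = -(T₁ i - T₀ i) := by
        simp only [Pi.add_apply]; abel
      rw [this, norm_neg]; exact hT i)
  have := (abs_le.mp h1).2
  linarith

theorem far_pot {T₁ τ : Fin 3 → H} {δ : ℝ} (h : Con 0 T₁) (h' : Con 0 (T₁ + τ))
    (hT : ∀ i, ‖τ i‖ ≤ δ) : Dd T₁ - 2000 * δ ≤ Dd (T₁ + τ) := by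
  have h1 := dd_lip (T := T₁) (T' := T₁ + τ) (e := δ)
    (fun i => (con_norm_le h i).trans (by norm_num))
    (fun i => (con_norm_le h' i).trans (by norm_num))
    (fun i => by
      have : T₁ i - (T₁ + τ) i = -(τ i) := by
        simp only [Pi.add_apply]; abel
      rw [this, norm_neg]; exact hT i)
  have := (abs_le.mp h1).2
  linarith

theorem dd_near {T₀ T₁ : Fin 3 → H} {δ : ℝ} (h : Con 0 T₀) (h' : Con 0 T₁)
    (hT : ∀ i, ‖T₁ i - T₀ i‖ ≤ δ) : |Dd T₁ - Dd T₀| ≤ 2000 * δ :=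
  dd_lip (fun i => (con_norm_le h' i).trans (by norm_num))
    (fun i => (con_norm_le h i).trans (by norm_num)) hT

theorem dl_near {T₀ T₁ : Fin 3 → H} {δ : ℝ} (h : Con 0 T₀) (h' : Con 0 T₁)
    (hT : ∀ i, ‖T₁ i - T₀ i‖ ≤ δ) : |Dl T₁ - Dl T₀| ≤ 2000 * δ :=
  dl_lip (fun i => (con_norm_le h' i).trans (by norm_num))
    (fun i => (con_norm_le h i).trans (by norm_num)) hT


theorem S_uniformContinuous {S : H → Fin 3 → H} {K σ : ℝ} (hσ : 0 < σ) (hK : 1 ≤ K)
    (h : ∀ x x', ‖x - x'‖ < σ / 4 → ‖S x - S x'‖ ≤ K / σ * ‖x - x'‖) : UniformContinuous S := by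
  rw [Metric.uniformContinuous_iff]
  intro ε hε
  have hK0 : 0 < K := by linarith
  refine ⟨min (σ / 4) (ε * σ / (2 * K)), lt_min (by positivity) (by positivity), fun {a b} hab => ?_⟩
  rw [dist_eq_norm] at hab ⊢
  have h1 := h a b (lt_of_lt_of_le hab (min_le_left _ _))
  have h2 : ‖a - b‖ < ε * σ / (2 * K) := lt_of_lt_of_le hab (min_le_right _ _)
  have h3 : K / σ * ‖a - b‖ ≤ K / σ * (ε * σ / (2 * K)) := by gcongr
  have h4 : K / σ * (ε * σ / (2 * K)) = ε / 2 := by field_simp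
  linarith

theorem thr_uniformContinuous : UniformContinuous thr := by
  rw [Metric.uniformContinuous_iff]
  intro ε hε
  refine ⟨ε, hε, fun {a b} hab => ?_⟩
  rw [Real.dist_eq] at hab ⊢
  exact lt_of_le_of_lt (thr_lip a b) hab

theorem ramp_uniformContinuous {s : ℝ} (hs : 0 < s) : UniformContinuous (ramp s) := by
  rw [Metric.uniformContinuous_iff]
  intro ε hε
  refine ⟨ε * s, by positivity, fun {a b} hab => ?_⟩
  rw [Real.dist_eq] at hab ⊢
  refine lt_of_le_of_lt (ramp_lip hs a b) ?_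
  rwa [div_lt_iff₀ hs]

/-- the visible second difference produced by the bump `m`. -/
theorem visible {f : H → ℝ} {T : H → H} (hf : ∀ x, HasFDerivAt f (innerSL ℝ (T x)) x)
    {K R δ thrv σ : ℝ} (hσ : 0 < σ)
    (hT : ∀ x x', ‖x - x'‖ ≤ σ → ‖T x - T x'‖ ≤ δ)
    {T₀ : Fin 3 → H} {φ : Fin 3 → H → ℝ} {τ : H → Fin 3 → H} {v : H} {i : Fin 3}
    (hC : Choice K R δ thrv T₀ φ τ v i) {F : H → ℝ} {c g : H} (hg : ‖g‖ = 1)
    (hgo : g ∈ (spn T₀)ᗮ)
    (hF : ∀ p x, ‖yv T₀ (p - c)‖ ≤ σ / 4 → ‖x - p‖ < σ / 2 → F x = σ * φ i (σ⁻¹ • (x - c)))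
    (hφ : 2 * δ ≤ |φ i v|) (hδ : 0 ≤ δ) :
    σ * |φ i v| ≤ |(f (c + σ • v + (3 * σ / 8) • g) + F (c + σ • v + (3 * σ / 8) • g))
      + (f (c + σ • v - (3 * σ / 8) • g) + F (c + σ • v - (3 * σ / 8) • g))
      - 2 * (f (c + σ • v) + F (c + σ • v))| := by
  set p := c + σ • v with hp
  set h := (3 * σ / 8) • g with hh
  have hnh : ‖h‖ = 3 * σ / 8 := by
    rw [hh, norm_smul, hg, mul_one, Real.norm_eq_abs, abs_of_pos (by positivity)]
  have hpc : p - c = σ • v := by rw [hp]; abel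
  have hyp : ‖yv T₀ (p - c)‖ ≤ σ / 4 := by
    rw [hpc, yv_smul, yv_of_mem T₀ hC.mem, smul_zero, norm_zero]; positivity
  have hFp : F p = σ * φ i v := by
    rw [hF p p hyp (by simp; positivity), hpc, smul_smul, inv_mul_cancel₀ hσ.ne', one_smul]
  have hyg : yv T₀ g = g := yv_of_orth T₀ hgo
  have hFh : ∀ e : ℝ, |e| = 3 / 8 → F (p + (e * σ) • g) = 0 := by
    intro e he
    have h1 : ‖p + (e * σ) • g - p‖ < σ / 2 := by
      rw [add_sub_cancel_left, norm_smul, hg, mul_one, Real.norm_eq_abs, abs_mul, he,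
        abs_of_pos hσ]
      linarith
    rw [hF p _ hyp h1]
    have h2 : σ⁻¹ • (p + (e * σ) • g - c) = v + e • g := by
      have : p + (e * σ) • g - c = σ • (v + e • g) := by
        rw [smul_add, smul_smul, hp]
        rw [mul_comm e σ]; abel
      rw [this, smul_smul, inv_mul_cancel₀ hσ.ne', one_smul]
    rw [h2]
    have h3 : yv T₀ (v + e • g) = e • g := by
      rw [yv_add, yv_smul, yv_of_mem T₀ hC.mem, hyg, zero_add]
    have h4 : 1 / 4 ≤ ‖yv T₀ (v + e • g)‖ := by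
      rw [h3, norm_smul, hg, Real.norm_eq_abs, he]; norm_num
    rw [(hC.good.supp _ h4).1 i, mul_zero]
  have hF1 : F (p + h) = 0 := by
    have := hFh (3 / 8) (by norm_num [abs_of_pos])
    rw [show (3 / 8 : ℝ) * σ = 3 * σ / 8 by ring] at this
    exact this
  have hF2 : F (p - h) = 0 := by
    have := hFh (-(3 / 8)) (by rw [abs_neg]; norm_num [abs_of_pos])
    rw [show (-(3 / 8) : ℝ) * σ = -(3 * σ / 8) by ring, neg_smul, ← sub_eq_add_neg] at this
    exact this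
  have hsd := second_diff hf hT p h (by rw [hnh]; linarith)
  rw [hF1, hF2, hFp, add_zero, add_zero]
  have e1 : f (p + h) + f (p - h) - 2 * (f p + σ * φ i v)
      = (f (p + h) + f (p - h) - 2 * f p) - 2 * (σ * φ i v) := by ring
  rw [e1]
  have e2 : |2 * (σ * φ i v)| - |f (p + h) + f (p - h) - 2 * f p|
      ≤ |(f (p + h) + f (p - h) - 2 * f p) - 2 * (σ * φ i v)| := by
    have := abs_sub_abs_le_abs_sub (2 * (σ * φ i v)) (f (p + h) + f (p - h) - 2 * f p)
    rwa [abs_sub_comm (2 * (σ * φ i v))] at this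
  have e3 : |2 * (σ * φ i v)| = 2 * (σ * |φ i v|) := by
    rw [abs_mul, abs_mul, abs_of_pos hσ, abs_of_pos (by norm_num : (0:ℝ) < 2)]
  have e4 : 2 * δ * ‖h‖ ≤ σ * |φ i v| := by
    rw [hnh]
    have : 2 * δ * (3 * σ / 8) ≤ |φ i v| * (3 * σ / 8) := by
      apply mul_le_mul_of_nonneg_right hφ (by positivity)
    have h0 : 0 ≤ |φ i v| * σ := by positivity
    nlinarith
  linarith


theorem exp_split (E t t' : ℝ) (hE : E = Real.exp (-t)) (h : t + 1 ≤ t') :
    Real.exp (-t') ≤ E / 2 := by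
  have h1 : Real.exp (-t') ≤ Real.exp (-t - 1) := Real.exp_le_exp.mpr (by linarith)
  have h2 : Real.exp (-t - 1) = E * Real.exp (-1) := by
    rw [hE, ← Real.exp_add]; ring_nf
  have h3 : Real.exp (-1) ≤ 1 / 2 := by
    rw [Real.exp_neg]
    have : (2 : ℝ) ≤ Real.exp 1 := by
      have := Real.add_one_le_exp (1 : ℝ); linarith
    rw [inv_le_comm₀ (Real.exp_pos 1) (by norm_num)]
    simpa using this
  have hE0 : 0 < E := by rw [hE]; exact Real.exp_pos _
  nlinarith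

set_option maxHeartbeats 1000000 in
theorem step (hinf : ∀ F : Submodule ℝ H, FiniteDimensional ℝ F → ∃ g ∈ Fᗮ, ‖g‖ = 1)
    (z : ℕ → H) (hz : DenseRange z) :
    ∃ c : ℝ, 0 < c ∧ ∀ (n : ℕ) (f : Fin 3 → H → ℝ) (T : H → Fin 3 → H) (t : H → ℝ),
      IsStage n f T t → ∀ ε s : ℝ, 0 < ε → 0 < s →
        ∃ σ : ℝ, 0 < σ ∧ σ < ε ∧ ∃ (f' : Fin 3 → H → ℝ) (T' : H → Fin 3 → H) (t' : H → ℝ),
          IsStage (n + 1) f' T' t' ∧ StepRel c s σ f T t f' T' t' := by
  classical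
  obtain ⟨K, hK1, hch⟩ := exists_choice H
  refine ⟨1 / (4 * 10 ^ 14), by positivity, ?_⟩
  intro n f T t hS ε s hε hs
  obtain ⟨η, hη, hpot⟩ := hS.pot
  have hcon := hS.con
  obtain ⟨d, hdpos, hDd⟩ : ∃ d : ℝ, 0 < d ∧ ∀ x, d ≤ Dd (T x) := by
    refine ⟨Real.exp (-(n : ℝ)) / 2, by positivity, fun x => ?_⟩
    have h1 := hpot x
    have h2 : Real.exp (-(n : ℝ)) ≤ Real.exp (-t x) :=
      Real.exp_le_exp.mpr (by linarith [hS.tn x])
    linarith
  -- the error tolerance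
  obtain ⟨δ, hδ, hδ1, hδ2, hδ3, hδ4⟩ : ∃ δ : ℝ, 0 < δ ∧ δ ≤ d / 10 ^ 5 ∧ δ ≤ η / 10 ^ 5 ∧
      δ ≤ s / 10 ^ 5 ∧ δ ≤ d ^ 2 / 10 ^ 15 := by
    refine ⟨min (min (d / 10 ^ 5) (η / 10 ^ 5)) (min (s / 10 ^ 5) (d ^ 2 / 10 ^ 15)),
      lt_min (lt_min (by positivity) (by positivity)) (lt_min (by positivity) (by positivity)),
      ?_, ?_, ?_, ?_⟩
    · exact (min_le_left _ _).trans (min_le_left _ _)
    · exact (min_le_left _ _).trans (min_le_right _ _)
    · exact (min_le_right _ _).trans (min_le_left _ _)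
    · exact (min_le_right _ _).trans (min_le_right _ _)
  obtain ⟨R, hR1, hch⟩ := hch d δ hdpos hδ
  choose φ τ v iv hC using fun m => hch (T (z m)) (thr (t (z m))) (hcon _) (hDd _)
    (thr_ge _) (thr_le _)
  obtain ⟨g, hg1, hgo, hsep⟩ := packing_sep hinf z (fun m => T (z m))
  obtain ⟨ρ1, hρ1, hT1⟩ : ∃ ρ1 > 0, ∀ x x', ‖x - x'‖ < ρ1 → ‖T x - T x'‖ ≤ δ := by
    obtain ⟨ρ, hρ, h⟩ := Metric.uniformContinuous_iff.mp hS.ucT δ hδ
    refine ⟨ρ, hρ, fun x x' hx => ?_⟩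
    have := h (a := x) (b := x') (by rwa [dist_eq_norm])
    rw [dist_eq_norm] at this
    exact this.le
  obtain ⟨ρ2, hρ2, ht1⟩ : ∃ ρ2 > 0, ∀ x x', ‖x - x'‖ < ρ2 → |t x - t x'| ≤ δ := by
    obtain ⟨ρ, hρ, h⟩ := Metric.uniformContinuous_iff.mp hS.uct δ hδ
    refine ⟨ρ, hρ, fun x x' hx => ?_⟩
    have := h (a := x) (b := x') (by rwa [dist_eq_norm])
    rw [Real.dist_eq] at this
    exact this.le
  obtain ⟨σ, hσ, hσε, hσ1, hσ2⟩ : ∃ σ : ℝ, 0 < σ ∧ σ < ε ∧ (R + 2) * σ < ρ1 ∧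
      (R + 2) * σ < ρ2 := by
    have hR2 : 0 < R + 2 := by linarith
    refine ⟨min (ε / 2) (min (ρ1 / (2 * (R + 2))) (ρ2 / (2 * (R + 2)))),
      lt_min (by positivity) (lt_min (by positivity) (by positivity)), ?_, ?_, ?_⟩
    · exact lt_of_le_of_lt (min_le_left _ _) (by linarith)
    · have h1 : min (ε / 2) (min (ρ1 / (2 * (R + 2))) (ρ2 / (2 * (R + 2)))) ≤ ρ1 / (2 * (R + 2)) :=
        (min_le_right _ _).trans (min_le_left _ _)
      have h2 := mul_le_mul_of_nonneg_left h1 hR2.le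
      have h3 : (R + 2) * (ρ1 / (2 * (R + 2))) = ρ1 / 2 := by field_simp
      linarith
    · have h1 : min (ε / 2) (min (ρ1 / (2 * (R + 2))) (ρ2 / (2 * (R + 2)))) ≤ ρ2 / (2 * (R + 2)) :=
        (min_le_right _ _).trans (min_le_right _ _)
      have h2 := mul_le_mul_of_nonneg_left h1 hR2.le
      have h3 : (R + 2) * (ρ2 / (2 * (R + 2))) = ρ2 / 2 := by field_simp
      linarith
  have hσρ1 : 3 * σ < ρ1 := lt_of_le_of_lt (by nlinarith) hσ1
  have hσρ2 : 3 * σ < ρ2 := lt_of_le_of_lt (by nlinarith) hσ2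
  obtain ⟨F, S, hFg, hSl, hFa, hS4, hF5⟩ := sum_bump hσ (fun m => z m + σ • g m)
    (fun m => T (z m)) φ τ (fun m => (hC m).good) (hsep σ hσ)
  -- local description
  have key : ∀ x, ∃ m y, S x = τ m y ∧
      (((∀ i, ‖T x i - T (z m) i‖ ≤ δ) ∧ |t x - t (z m)| ≤ δ) ∨ (∀ i, ‖τ m y i‖ ≤ δ)) := by
    intro x
    obtain ⟨m, hm⟩ := hS4 x
    refine ⟨m, _, hm, ?_⟩
    by_cases hy : R ≤ ‖σ⁻¹ • (x - (z m + σ • g m))‖
    · right
      intro i
      exact (norm_le_pi_norm _ i).trans ((hC m).good.far _ hy)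
    · left
      rw [not_le, norm_smul, norm_inv, Real.norm_eq_abs, abs_of_pos hσ,
        inv_mul_lt_iff₀ hσ] at hy
      have h1 : ‖x - z m‖ ≤ ‖x - (z m + σ • g m)‖ + σ := by
        have e1 : x - z m = (x - (z m + σ • g m)) + σ • g m := by abel
        calc ‖x - z m‖ = ‖(x - (z m + σ • g m)) + σ • g m‖ := by rw [← e1]
          _ ≤ ‖x - (z m + σ • g m)‖ + ‖σ • g m‖ := norm_add_le _ _
          _ = _ := by rw [norm_smul, hg1, mul_one, Real.norm_eq_abs, abs_of_pos hσ]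
      have h2 : ‖x - z m‖ < (R + 2) * σ := by nlinarith
      refine ⟨fun i => ?_, ht1 _ _ (h2.trans hσ2)⟩
      exact (norm_le_pi_norm (T x - T (z m)) i).trans (hT1 _ _ (h2.trans hσ1))
  have con' : ∀ x, Con 0 (T x + S x) := by
    intro x
    obtain ⟨m, y, hSx, h | h⟩ := key x
    · rw [hSx]
      refine near_con ((hC m).good.con y) h.1 ?_
      have := hDd (z m)
      linarith
    · rw [hSx]
      have h1 := con_perturb (τ := τ m y) (con_margin (hcon x)) h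
      refine con_mono ?_ h1
      have := hDd x
      linarith
  have dd01 : ∀ x, 0 ≤ Dd (T x) ∧ Dd (T x) ≤ 1 := fun x =>
    ⟨(con_dd (hcon x)).1, (con_dd (hcon x)).2.1⟩
  set θ : H → ℝ := fun x => ramp s (Dl (T x) - thr (t x)) with hθ
  have pot' : ∀ x, Real.exp (-(t x + θ x)) / 2 + η / 2 ≤ Dd (T x + S x) := by
    intro x
    have hp := hpot x
    have hθ0 : 0 ≤ θ x := ramp_nonneg _ _
    have hexp : Real.exp (-(t x + θ x)) ≤ Real.exp (-t x) :=
      Real.exp_le_exp.mpr (by linarith)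
    obtain ⟨m, y, hSx, h | h⟩ := key x
    · have hc2 : Con 0 (T x + τ m y) := by rw [← hSx]; exact con' x
      have hcm : Con 0 (T (z m) + τ m y) := by
        refine con_mono ?_ ((hC m).good.con y)
        have := (dd01 (z m)).1
        linarith
      have hnp := near_pot hcm hc2 h.1
      have hdn := (abs_le.mp (dd_near (hcon (z m)) (hcon x) h.1))
      rw [hSx]
      by_cases htype : Dl (T (z m)) < thr (t (z m))
      · have hpc := (hC m).potC htype y
        have hth : θ x = 1 := by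
          apply ramp_eq_one hs
          have h3 := (abs_le.mp (dl_near (hcon (z m)) (hcon x) h.1)).2
          have h4 := (abs_le.mp (thr_lip (t x) (t (z m)))).1
          have h5 := h.2
          linarith
        have hes := exp_split (Real.exp (-t x)) (t x) (t x + θ x) rfl (by rw [hth])
        have hE0 := Real.exp_pos (-t x)
        linarith
      · have hpb := (hC m).potB htype y
        linarith
    · have hc2 : Con 0 (T x + τ m y) := by rw [← hSx]; exact con' x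
      have hfp := far_pot (hcon x) hc2 h
      rw [hSx]
      linarith
  have hvis : ∀ x m, ‖z m - x‖ ≤ σ → ∃ (p h : H) (i : Fin 3), ‖p - x‖ ≤ 3 * σ ∧ ‖h‖ ≤ σ ∧
      i = iv m ∧ σ * |φ m i (v m)| ≤ |(f i (p + h) + F i (p + h)) + (f i (p - h) + F i (p - h))
        - 2 * (f i p + F i p)| := by
    intro x m hm
    refine ⟨z m + σ • g m + σ • v m, (3 * σ / 8) • g m, iv m, ?_, ?_, rfl, ?_⟩
    · have e1 : z m + σ • g m + σ • v m - x = (z m - x) + σ • g m + σ • v m := by abel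
      rw [e1]
      have h1 : ‖σ • g m‖ = σ := by
        rw [norm_smul, hg1, mul_one, Real.norm_eq_abs, abs_of_pos hσ]
      have h2 : ‖σ • v m‖ ≤ σ := by
        rw [norm_smul, Real.norm_eq_abs, abs_of_pos hσ]
        have := (hC m).nv
        nlinarith
      have h3 := norm_add_le ((z m - x) + σ • g m) (σ • v m)
      have h4 := norm_add_le (z m - x) (σ • g m)
      linarith
    · rw [norm_smul, hg1, mul_one, Real.norm_eq_abs, abs_of_pos (by positivity)]
      linarith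
    · refine visible (hS.grad (iv m)) hσ (fun x x' hx => ?_) (hC m) (hg1 m) (hgo m)
        (fun p x hp hx => hF5 m p x hp hx (iv m)) ?_ hδ.le
      · exact (norm_le_pi_norm (T x - T x') (iv m)).trans (hT1 _ _ (by linarith))
      · have h1 := (hC m).vis
        have h2 : d ^ 2 ≤ (Dd (T (z m))) ^ 2 := by
          have := hDd (z m)
          nlinarith
        have h3 : d ^ 2 / 10 ^ 14 ≤ (Dd (T (z m))) ^ 2 / 10 ^ 14 := by gcongr
        linarith
  refine ⟨σ, hσ, hσε, fun i x => f i x + F i x, fun x => T x + S x, fun x => t x + θ x, ?_, ?_⟩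
  · refine ⟨?_, ?_, ?_, con', ?_, ?_, ⟨η / 2, by positivity, pot'⟩⟩
    · intro i x
      have := (hS.grad i x).add (hFg i x)
      rw [← map_add] at this
      exact this
    · exact hS.ucT.add (S_uniformContinuous hσ hK1 hSl)
    · exact hS.uct.add ((ramp_uniformContinuous hs).comp
        ((Dl_uniformContinuous hS.ucT hcon).sub (thr_uniformContinuous.comp hS.uct)))
    · intro x
      have h1 := hS.t0 x
      have h2 : 0 ≤ θ x := ramp_nonneg _ _
      show 0 ≤ t x + θ x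
      linarith
    · intro x
      have h1 := hS.tn x
      have h2 : θ x ≤ 1 := ramp_le_one _ _
      push_cast
      linarith
  · refine ⟨?_, ?_, ?_, ?_, ?_, ?_⟩
    · intro i x
      simpa using hFa i x
    · intro x
      have h2 : 0 ≤ θ x := ramp_nonneg _ _
      show t x ≤ t x + θ x
      linarith
    · intro x
      have h2 : θ x ≤ 1 := ramp_le_one _ _
      show t x + θ x ≤ t x + 1
      linarith
    · intro x hx
      have h1 : 0 < θ x := by
        have : t x < t x + θ x := hx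
        linarith
      have := ramp_pos hs h1
      linarith
    · intro x
      obtain ⟨m, hm⟩ := hz.exists_dist_lt x hσ
      rw [dist_comm, dist_eq_norm] at hm
      obtain ⟨p, h, i, hp, hh, hi, hv⟩ := hvis x m hm.le
      refine ⟨p, h, i, hp, hh, le_trans ?_ hv⟩
      have h1 := (hC m).vis
      rw [← hi] at h1
      have h2 : ∀ i, ‖T x i - T (z m) i‖ ≤ δ := fun i =>
        (norm_le_pi_norm (T x - T (z m)) i).trans (hT1 _ _ (by
          rw [norm_sub_rev]; linarith))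
      have h3 := (abs_le.mp (dd_near (hcon (z m)) (hcon x) h2)).2
      have h4 := hDd (z m)
      have h5 : Dd (T x) ≤ 2 * Dd (T (z m)) := by linarith
      have h6 : (Dd (T x)) ^ 2 ≤ (2 * Dd (T (z m))) ^ 2 := by
        apply pow_le_pow_left₀ (dd01 x).1 h5
      have h7 : 1 / (4 * 10 ^ 14) * (Dd (T x)) ^ 2 ≤ |φ m i (v m)| := by
        calc 1 / (4 * 10 ^ 14) * (Dd (T x)) ^ 2 ≤ 1 / (4 * 10 ^ 14) * (2 * Dd (T (z m))) ^ 2 := by
              gcongr
          _ = (Dd (T (z m))) ^ 2 / 10 ^ 14 := by ring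
          _ ≤ _ := h1
      calc 1 / (4 * 10 ^ 14) * (Dd (T x)) ^ 2 * σ ≤ |φ m i (v m)| * σ := by gcongr
        _ = σ * |φ m i (v m)| := mul_comm _ _
    · intro x hx
      obtain ⟨m, hm⟩ := hz.exists_dist_lt x hσ
      rw [dist_comm, dist_eq_norm] at hm
      obtain ⟨p, h, i, hp, hh, hi, hv⟩ := hvis x m hm.le
      refine ⟨p, h, i, hp, hh, le_trans ?_ hv⟩
      have h2 : ∀ i, ‖T x i - T (z m) i‖ ≤ δ := fun i =>
        (norm_le_pi_norm (T x - T (z m)) i).trans (hT1 _ _ (by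
          rw [norm_sub_rev]; linarith))
      have h3 := (abs_le.mp (dl_near (hcon (z m)) (hcon x) h2)).1
      have h4 := (abs_le.mp (thr_lip (t x) (t (z m)))).2
      have h5 := ht1 x (z m) (by rw [norm_sub_rev]; linarith)
      have h6 := (hC m).visC (by linarith)
      rw [← hi] at h6
      have h7 : 1 / (4 * 10 ^ 14) ≤ |φ m i (v m)| := le_trans (by norm_num) h6
      calc 1 / (4 * 10 ^ 14) * σ ≤ |φ m i (v m)| * σ := by gcongr
        _ = σ * |φ m i (v m)| := mul_comm _ _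

end Pool.Agent.LipThree
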