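import Pool.Agent.Lib.LipThree.Base
import Pool.Agent.Lib.LipThree.Step

/-! MP_31d174_an (LipThree): SeqDef -/

set_option autoImplicit false

open scoped BigOperators
open Matrix

namespace Pool.Agent.LipThree

variable {H : Type*} [NormedAddCommGroup H] [InnerProductSpace ℝ H]

/-- the whole construction. -/
structure SeqData (c : ℝ) (f : ℕ → Fin 3 → H → ℝ) (T : ℕ → H → Fin 3 → H) (t : ℕ → H → ℝ)
    (σ : ℕ → ℝ) : Prop where
  stage : ∀ n, IsStage n (f n) (T n) (t n)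
  σpos : ∀ n, 0 < σ n
  σone : ∀ n, σ n ≤ 1
  σsmall : ∀ n : ℕ, σ (n + 1) ≤ σ n / (4 * 2 ^ n)
  osc : ∀ (n : ℕ) (x x' : H), ‖x - x'‖ ≤ Real.sqrt (σ (n + 1)) → ‖T n x - T n x'‖ ≤ 1 / (n + 1)
  rel : ∀ n : ℕ, StepRel c (1 / (n + 1)) (σ (n + 1)) (f n) (T n) (t n) (f (n + 1)) (T (n + 1)) (t (n + 1))

end Pool.Agent.LipThree
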