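import Pool.Agent.Lib.LipThree.Base
import Pool.Agent.Lib.LipThree.ConA
import Pool.Agent.Lib.LipThree.SeqDef

/-! MP_31d174_an (LipThree): LimitA -/

set_option autoImplicit false

open scoped BigOperators Topology
open Matrix

namespace Pool.Agent.LipThree

variable {H : Type*} [NormedAddCommGroup H] [InnerProductSpace ℝ H]

variable {c : ℝ} {f : ℕ → Fin 3 → H → ℝ} {T : ℕ → H → Fin 3 → H} {t : ℕ → H → ℝ} {σ : ℕ → ℝ}

private theorem limitA_geom (hs : SeqData c f T t σ) (n k : ℕ) :
    σ (n + 1 + k) ≤ σ (n + 1) * (1 / 2) ^ k := by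
  induction k with
  | zero => simp
  | succ k ih =>
    have h1 := hs.σsmall (n + 1 + k)
    have h2 : σ (n + 1 + k) / (4 * 2 ^ (n + 1 + k)) ≤ σ (n + 1 + k) * (1 / 2) := by
      have h3 : (1 : ℝ) ≤ 2 ^ (n + 1 + k) := one_le_pow₀ (by norm_num)
      rw [div_le_iff₀ (by positivity)]
      nlinarith [hs.σpos (n + 1 + k)]
    calc σ (n + 1 + (k + 1)) ≤ σ (n + 1 + k) * (1 / 2) := h1.trans h2
      _ ≤ (σ (n + 1) * (1 / 2) ^ k) * (1 / 2) := by gcongr
      _ = _ := by ring

private theorem limitA_lip (hs : SeqData c f T t σ) (n : ℕ) (i : Fin 3) :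
    LipschitzWith 1 (f n i) := by
  apply lipschitzWith_of_nnnorm_fderiv_le (𝕜 := ℝ)
  · intro x
    exact ((hs.stage n).grad i x).differentiableAt
  · intro x
    rw [((hs.stage n).grad i x).fderiv, ← NNReal.coe_le_coe]
    simp only [coe_nnnorm, innerSL_apply_norm, NNReal.coe_one]
    exact con_norm_le ((hs.stage n).con x) i

/-- `∑_{k > n} σ k ≤ 2 σ (n+1)`, the limit is `1`-Lipschitz because `‖T n x i‖ ≤ 1`. -/
theorem exists_limit (hs : SeqData c f T t σ) :
    ∃ F : Fin 3 → H → ℝ, (∀ i, LipschitzWith 1 (F i)) ∧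
      ∀ n i x, |F i x - f n i x| ≤ 2 * σ (n + 1) := by
  have hd : ∀ (n k : ℕ) (i : Fin 3) (x : H),
      dist (f (n + k) i x) (f (n + (k + 1)) i x) ≤ σ (n + 1) * (1 / 2) ^ k := by
    intro n k i x
    rw [dist_comm, Real.dist_eq]
    have h1 := (hs.rel (n + k)).close i x
    have h2 := limitA_geom hs n k
    rw [show n + 1 + k = n + k + 1 by ring] at h2
    exact h1.trans h2
  have hc : ∀ i x, CauchySeq (fun n => f n i x) := by
    intro i x
    refine cauchySeq_of_le_geometric (1 / 2) (σ 1) (by norm_num) (fun n => ?_)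
    have := hd 0 n i x
    simpa using this
  choose F hF using fun i x => cauchySeq_tendsto_of_complete (hc i x)
  refine ⟨F, fun i => ?_, fun n i x => ?_⟩
  · refine LipschitzWith.of_dist_le_mul (fun x y => ?_)
    refine le_of_tendsto ((hF i x).dist (hF i y)) (Filter.Eventually.of_forall (fun n => ?_))
    exact (limitA_lip hs n i).dist_le_mul x y
  · have h1 : Filter.Tendsto (fun k => f (n + k) i x) Filter.atTop (𝓝 (F i x)) := by
      have := (Filter.tendsto_add_atTop_iff_nat n).2 (hF i x)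
      refine this.congr (fun k => ?_)
      rw [add_comm]
    have h2 := dist_le_of_le_geometric_of_tendsto₀ (1 / 2) (σ (n + 1)) (by norm_num)
      (fun k => hd n k i x) h1
    rw [dist_comm, Real.dist_eq] at h2
    simp only [add_zero] at h2
    calc |F i x - f n i x| ≤ σ (n + 1) / (1 - 1 / 2) := h2
      _ = 2 * σ (n + 1) := by ring

end Pool.Agent.LipThree
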