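import Pool.Agent.Lib.LipThree.Base
import Pool.Agent.Lib.LipThree.ConA
import Pool.Agent.Lib.LipThree.SeqDef

/-! MP_31d174_an (LipThree): LimitB -/

set_option autoImplicit false

open scoped BigOperators
open Matrix

namespace Pool.Agent.LipThree

variable {H : Type*} [NormedAddCommGroup H] [InnerProductSpace ℝ H]

variable {c : ℝ} {f : ℕ → Fin 3 → H → ℝ} {T : ℕ → H → Fin 3 → H} {t : ℕ → H → ℝ} {σ : ℕ → ℝ}

private theorem sigma_bound' (hs : SeqData c f T t σ) (n : ℕ) : σ (n + 1) ≤ (1 / 2 : ℝ) ^ n := by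
  have h1 := hs.σsmall n
  have h2 := hs.σone n
  have h3 : (0 : ℝ) < 4 * 2 ^ n := by positivity
  have h4 : σ (n + 1) ≤ 1 / (4 * 2 ^ n) := by
    calc σ (n + 1) ≤ σ n / (4 * 2 ^ n) := h1
      _ ≤ 1 / (4 * 2 ^ n) := by gcongr
  have h5 : (1 : ℝ) / (4 * 2 ^ n) = 1 / 4 * (1 / 2) ^ n := by
    rw [_root_.one_div_pow]
    field_simp
  have h6 : (0 : ℝ) < (1 / 2) ^ n := by positivity
  linarith

/-- increments of the stage functions over short vectors. -/
private theorem stage_incr (hs : SeqData c f T t σ) (n : ℕ) (i : Fin 3) (x v : H)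
    (hv : ‖v‖ ≤ Real.sqrt (σ (n + 1))) :
    |f n i (x + v) - f n i x - inner ℝ (T n x i) v| ≤ 1 / (n + 1) * ‖v‖ := by
  have hg : ∀ y ∈ Metric.closedBall x ‖v‖,
      HasFDerivWithinAt (fun y => f n i y - innerSL ℝ (T n x i) y)
        (innerSL ℝ (T n y i) - innerSL ℝ (T n x i)) (Metric.closedBall x ‖v‖) y := by
    intro y _
    exact ((hs.stage n).grad i y).hasFDerivWithinAt.sub
      ((innerSL ℝ (T n x i)).hasFDerivAt.hasFDerivWithinAt)
  have hb : ∀ y ∈ Metric.closedBall x ‖v‖,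
      ‖innerSL ℝ (T n y i) - innerSL ℝ (T n x i)‖ ≤ 1 / (n + 1) := by
    intro y hy
    rw [← map_sub, innerSL_apply_norm]
    have h1 : ‖T n y - T n x‖ ≤ 1 / (n + 1) := by
      apply hs.osc n y x
      rw [Metric.mem_closedBall, dist_eq_norm] at hy
      linarith
    exact (norm_le_pi_norm (T n y - T n x) i).trans h1
  have hc := (convex_closedBall x ‖v‖).norm_image_sub_le_of_norm_hasFDerivWithin_le hg hb
    (x := x) (y := x + v) (by simp) (by simp)
  have e1 : f n i (x + v) - (innerSL ℝ (T n x i)) (x + v) - (f n i x - (innerSL ℝ (T n x i)) x)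
      = f n i (x + v) - f n i x - inner ℝ (T n x i) v := by
    simp only [innerSL_apply_apply, inner_add_right]
    ring
  rw [e1, Real.norm_eq_abs] at hc
  simpa using hc

/-- if the limit is differentiable at `x` then `T n x` converges (compare the increments over
vectors of length `√(σ (n+1))`). -/
theorem T_tendsto [CompleteSpace H] (hs : SeqData c f T t σ) {F : Fin 3 → H → ℝ}
    (hF : ∀ n i x, |F i x - f n i x| ≤ 2 * σ (n + 1)) {x : H}
    (hx : ∀ i, DifferentiableAt ℝ (F i) x) :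
    ∃ A : Fin 3 → H, Filter.Tendsto (fun n => T n x) Filter.atTop (nhds A) := by
  refine ⟨fun i => (InnerProductSpace.toDual ℝ H).symm (fderiv ℝ (F i) x), ?_⟩
  rw [tendsto_pi_nhds]
  intro i
  rw [Metric.tendsto_atTop]
  intro e he
  have hev : ∀ᶠ y in nhds x, ‖F i y - F i x - fderiv ℝ (F i) x (y - x)‖ ≤ e / 8 * ‖y - x‖ :=
    (hx i).hasFDerivAt.isLittleO.def (by positivity)
  rw [Metric.eventually_nhds_iff] at hev
  obtain ⟨δ, hδ, hd⟩ := hev
  obtain ⟨N, hN⟩ : ∃ N : ℕ, ((1 : ℝ) / 2) ^ N < min (δ ^ 2) ((e / 32) ^ 2) :=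
    exists_pow_lt_of_lt_one (by positivity) (by norm_num)
  obtain ⟨M, hM⟩ : ∃ M : ℕ, (1 : ℝ) / (M + 1) < e / 8 := exists_nat_one_div_lt (by positivity)
  refine ⟨max N M, fun n hn => ?_⟩
  have hnN : N ≤ n := le_trans (le_max_left _ _) hn
  have hnM : M ≤ n := le_trans (le_max_right _ _) hn
  set ρ := Real.sqrt (σ (n + 1)) with hρ
  have hσ := hs.σpos (n + 1)
  have hρpos : 0 < ρ := Real.sqrt_pos.mpr hσ
  have hρsq : ρ ^ 2 = σ (n + 1) := Real.sq_sqrt hσ.le
  have hpow : ((1 : ℝ) / 2) ^ n ≤ ((1 : ℝ) / 2) ^ N :=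
    pow_le_pow_of_le_one (by norm_num) (by norm_num) hnN
  have hb := sigma_bound' hs n
  have hρδ : ρ < δ := by
    have h1 : ρ ^ 2 < δ ^ 2 := by
      have := min_le_left (δ ^ 2) ((e / 32) ^ 2)
      linarith
    exact lt_of_pow_lt_pow_left₀ 2 hδ.le h1
  have hρe : ρ < e / 32 := by
    have h1 : ρ ^ 2 < (e / 32) ^ 2 := by
      have := min_le_right (δ ^ 2) ((e / 32) ^ 2)
      linarith
    exact lt_of_pow_lt_pow_left₀ 2 (by positivity) h1
  have hn1 : (1 : ℝ) / (n + 1) < e / 8 := by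
    have h1 : (1 : ℝ) / (n + 1) ≤ 1 / (M + 1) := by
      have : (M : ℝ) ≤ n := by exact_mod_cast hnM
      gcongr
    linarith
  -- the bound on vectors of norm ρ
  have key : ∀ v : H, ‖v‖ = ρ →
      |inner ℝ (T n x i) v - fderiv ℝ (F i) x v| ≤ e / 2 * ‖v‖ := by
    intro v hv
    have a1 := stage_incr hs n i x v (by rw [hv])
    have a2 := hd (y := x + v) (by rw [dist_eq_norm]; simpa [hv] using hρδ)
    rw [show x + v - x = v by abel, Real.norm_eq_abs] at a2
    have a3 := hF n i (x + v)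
    have a4 := hF n i x
    have a5 : 1 / ((n : ℝ) + 1) * ‖v‖ ≤ e / 8 * ‖v‖ := by gcongr
    have a6 : 4 * σ (n + 1) ≤ e / 8 * ‖v‖ := by
      rw [hv, ← hρsq]
      nlinarith
    have a7 : 0 < ‖v‖ := by rw [hv]; exact hρpos
    rw [abs_le] at a1 a2 a3 a4
    obtain ⟨a1a, a1b⟩ := a1
    obtain ⟨a2a, a2b⟩ := a2
    obtain ⟨a3a, a3b⟩ := a3
    obtain ⟨a4a, a4b⟩ := a4
    have a8 : 0 < e * ‖v‖ := by positivity
    rw [abs_le]
    constructor <;> nlinarith
  have hnorm : ‖innerSL ℝ (T n x i) - fderiv ℝ (F i) x‖ ≤ e / 2 := by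
    refine ContinuousLinearMap.opNorm_le_bound _ (by positivity) (fun v => ?_)
    rcases eq_or_ne v 0 with rfl | hv
    · simp
    · have hv0 : 0 < ‖v‖ := norm_pos_iff.mpr hv
      have h1 := key ((ρ / ‖v‖) • v) (by
        rw [norm_smul, Real.norm_eq_abs, abs_of_pos (by positivity)]
        field_simp)
      rw [inner_smul_right, map_smul, norm_smul, Real.norm_eq_abs, abs_of_pos (by positivity :
        0 < ρ / ‖v‖), smul_eq_mul, ← mul_sub, abs_mul, abs_of_pos (by positivity :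
        0 < ρ / ‖v‖)] at h1
      have h2 : ρ / ‖v‖ * |inner ℝ (T n x i) v - (fderiv ℝ (F i) x) v| ≤
          ρ / ‖v‖ * (e / 2 * ‖v‖) := by
        calc _ ≤ _ := h1
          _ = _ := by ring
      have h3 := le_of_mul_le_mul_left h2 (by positivity)
      simpa [Real.norm_eq_abs] using h3
  have hfin : ‖T n x i - (InnerProductSpace.toDual ℝ H).symm (fderiv ℝ (F i) x)‖ ≤ e / 2 := by
    rw [← (InnerProductSpace.toDual ℝ H).norm_map, map_sub, LinearIsometryEquiv.apply_symm_apply]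
    have : (InnerProductSpace.toDual ℝ H) (T n x i) = innerSL ℝ (T n x i) := by
      ext y; simp [InnerProductSpace.toDual_apply_apply]
    rw [this]
    exact hnorm
  rw [dist_eq_norm]
  linarith

theorem Dl_continuous : Continuous (fun T : Fin 3 → H => Dl T) := by
  unfold Dl
  apply Continuous.matrix_det
  apply continuous_matrix
  intro i j
  simp only [gm, Matrix.of_apply]
  fun_prop

end Pool.Agent.LipThree
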