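import Pool.Agent.Lib.LipThree.Base
import Pool.Agent.Lib.LipThree.ConA
import Pool.Agent.Lib.LipThree.SeqDef

/-! MP_31d174_an (LipThree): LimitC -/

set_option autoImplicit false

open scoped BigOperators
open Matrix

namespace Pool.Agent.LipThree

variable {H : Type*} [NormedAddCommGroup H] [InnerProductSpace ℝ H]

variable {c : ℝ} {f : ℕ → Fin 3 → H → ℝ} {T : ℕ → H → Fin 3 → H} {t : ℕ → H → ℝ} {σ : ℕ → ℝ}

private theorem sigma_bound (hs : SeqData c f T t σ) (n : ℕ) : σ (n + 1) ≤ 1 / (4 * 2 ^ n) := by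
  have h1 := hs.σsmall n
  have h2 := hs.σone n
  have h3 : (0 : ℝ) < 4 * 2 ^ n := by positivity
  calc σ (n + 1) ≤ σ n / (4 * 2 ^ n) := h1
    _ ≤ 1 / (4 * 2 ^ n) := by gcongr

/-- differentiability at `x` kills the second differences at scale `σ (n+1)`. -/
theorem no_second_diff (hs : SeqData c f T t σ) {F : Fin 3 → H → ℝ}
    (hF : ∀ n i x, |F i x - f n i x| ≤ 2 * σ (n + 1)) {x : H}
    (hx : ∀ i, DifferentiableAt ℝ (F i) x) {e : ℝ} (he : 0 < e) :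
    ∃ N : ℕ, ∀ n ≥ N, ∀ (p h : H) (i : Fin 3), ‖p - x‖ ≤ 3 * σ (n + 1) → ‖h‖ ≤ σ (n + 1) →
      |f (n + 1) i (p + h) + f (n + 1) i (p - h) - 2 * f (n + 1) i p| < e * σ (n + 1) := by
  have hev : ∀ᶠ y in nhds x, ∀ i, ‖F i y - F i x - fderiv ℝ (F i) x (y - x)‖ ≤ e / 28 * ‖y - x‖ := by
    rw [Filter.eventually_all]
    intro i
    exact (hx i).hasFDerivAt.isLittleO.def (by positivity)
  rw [Metric.eventually_nhds_iff] at hev
  obtain ⟨δ, hδ, hd⟩ := hev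
  obtain ⟨N, hN⟩ : ∃ N : ℕ, ((1 : ℝ) / 2) ^ N < min δ (e / 4) :=
    exists_pow_lt_of_lt_one (by positivity) (by norm_num)
  refine ⟨N, fun n hn p h i hp hh => ?_⟩
  have hσ := hs.σpos (n + 1)
  have hpow : ((1 : ℝ) / 2) ^ n ≤ ((1 : ℝ) / 2) ^ N :=
    pow_le_pow_of_le_one (by norm_num) (by norm_num) hn
  have hb : 4 * σ (n + 1) ≤ ((1 : ℝ) / 2) ^ n := by
    have := sigma_bound hs n
    have h2 : (1 : ℝ) / (4 * 2 ^ n) = 1 / 4 * (1 / 2) ^ n := by
      rw [_root_.one_div_pow]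
      field_simp
    linarith
  have hδ4 : 4 * σ (n + 1) < δ := by
    have := min_le_left δ (e / 4)
    linarith
  have he4 : ((1 : ℝ) / 2) ^ n < e / 4 := by
    have := min_le_right δ (e / 4)
    linarith
  have hs2 : σ (n + 1 + 1) ≤ σ (n + 1) * (1 / 8 * (1 / 2) ^ n) := by
    have h1 := hs.σsmall (n + 1)
    have h2 : σ (n + 1) / (4 * 2 ^ (n + 1)) = σ (n + 1) * (1 / 8 * (1 / 2) ^ n) := by
      rw [_root_.one_div_pow, pow_succ]
      field_simp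
      norm_num
    linarith
  -- points close to x
  have key : ∀ y : H, ‖y - x‖ ≤ 4 * σ (n + 1) →
      |F i y - F i x - fderiv ℝ (F i) x (y - x)| ≤ e / 28 * ‖y - x‖ := by
    intro y hy
    have := hd (y := y) (by rw [dist_eq_norm]; linarith) i
    simpa [Real.norm_eq_abs] using this
  have n1 : ‖(p + h) - x‖ ≤ 4 * σ (n + 1) := by
    have : (p + h) - x = (p - x) + h := by abel
    rw [this]
    calc ‖(p - x) + h‖ ≤ ‖p - x‖ + ‖h‖ := norm_add_le _ _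
      _ ≤ _ := by linarith
  have n2 : ‖(p - h) - x‖ ≤ 4 * σ (n + 1) := by
    have : (p - h) - x = (p - x) - h := by abel
    rw [this]
    calc ‖(p - x) - h‖ ≤ ‖p - x‖ + ‖h‖ := norm_sub_le _ _
      _ ≤ _ := by linarith
  have k1 := key _ n1
  have k2 := key _ n2
  have k3 := key p (by linarith)
  have e1 : fderiv ℝ (F i) x ((p + h) - x) = fderiv ℝ (F i) x (p - x) + fderiv ℝ (F i) x h := by
    rw [← map_add]; congr 1; abel
  have e2 : fderiv ℝ (F i) x ((p - h) - x) = fderiv ℝ (F i) x (p - x) - fderiv ℝ (F i) x h := by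
    rw [← map_sub]; congr 1; abel
  rw [e1] at k1
  rw [e2] at k2
  have m1 := hF (n + 1) i (p + h)
  have m2 := hF (n + 1) i (p - h)
  have m3 := hF (n + 1) i p
  have q1 : e / 28 * ‖(p + h) - x‖ ≤ e / 28 * (4 * σ (n + 1)) := by gcongr
  have q2 : e / 28 * ‖(p - h) - x‖ ≤ e / 28 * (4 * σ (n + 1)) := by gcongr
  have q3 : e / 28 * ‖p - x‖ ≤ e / 28 * (3 * σ (n + 1)) := by gcongr
  have q4 : 8 * σ (n + 1 + 1) < e / 4 * σ (n + 1) := by
    have : σ (n + 1) * (1 / 2) ^ n < σ (n + 1) * (e / 4) := by gcongr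
    nlinarith [hs2]
  rw [abs_le] at k1 k2 k3 m1 m2 m3
  obtain ⟨k1a, k1b⟩ := k1
  obtain ⟨k2a, k2b⟩ := k2
  obtain ⟨k3a, k3b⟩ := k3
  obtain ⟨m1a, m1b⟩ := m1
  obtain ⟨m2a, m2b⟩ := m2
  obtain ⟨m3a, m3b⟩ := m3
  rw [abs_lt]
  constructor <;> nlinarith
end Pool.Agent.LipThree
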