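import Pool.Agent.Lib.LipThree.Base

/-! MP_31d174_an (LipThree): SeqZero -/

set_option autoImplicit false

open scoped BigOperators
open Matrix

namespace Pool.Agent.LipThree

variable {H : Type*} [NormedAddCommGroup H] [InnerProductSpace ℝ H]

/-- the zero stage `f = 0`, `T = 0`, `t = 0`, `η = 1/2`. -/
theorem stage_zero : IsStage 0 (fun _ (_ : H) => (0 : ℝ)) (fun _ _ => (0 : H)) (fun _ => 0) := by
  refine ⟨?_, uniformContinuous_const, uniformContinuous_const, ?_, ?_, ?_, ⟨1 / 2, by norm_num, ?_⟩⟩
  · intro i x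
    have h := hasFDerivAt_const (𝕜 := ℝ) (0 : ℝ) x
    simpa using h
  · intro x v
    simp
  · intro x; exact le_refl _
  · intro x; simp
  · intro x
    have h : gm (fun _ : Fin 3 => (0 : H)) = 0 := by
      ext i j
      simp [gm]
    simp only [Dd, h, sub_zero, det_one, neg_zero, Real.exp_zero]
    norm_num

end Pool.Agent.LipThree
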