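import Pool.Agent.Lib.LipThree.Base
import Pool.Agent.Lib.LipThree.SeqDef
import Pool.Agent.Lib.LipThree.SeqZero

/-! MP_31d174_an (LipThree): Seq -/

set_option autoImplicit false

open scoped BigOperators
open Matrix

namespace Pool.Agent.LipThree

variable {H : Type*} [NormedAddCommGroup H] [InnerProductSpace ℝ H]

/-- dependent choice. -/
theorem exists_seq {c : ℝ}
    (hstep : ∀ (n : ℕ) (f : Fin 3 → H → ℝ) (T : H → Fin 3 → H) (t : H → ℝ),
      IsStage n f T t → ∀ ε s : ℝ, 0 < ε → 0 < s →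
        ∃ σ : ℝ, 0 < σ ∧ σ < ε ∧ ∃ (f' : Fin 3 → H → ℝ) (T' : H → Fin 3 → H) (t' : H → ℝ),
          IsStage (n + 1) f' T' t' ∧ StepRel c s σ f T t f' T' t') :
    ∃ (f : ℕ → Fin 3 → H → ℝ) (T : ℕ → H → Fin 3 → H) (t : ℕ → H → ℝ) (σ : ℕ → ℝ),
      SeqData c f T t σ := by
  classical
  let P := (Fin 3 → H → ℝ) × (H → Fin 3 → H) × (H → ℝ) × ℝ
  let S : ℕ → Type _ := fun n =>
    {p : P // IsStage n p.1 p.2.1 p.2.2.1 ∧ 0 < p.2.2.2 ∧ p.2.2.2 ≤ 1}
  have key : ∀ (n : ℕ) (p : S n), ∃ q : S (n + 1),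
      q.1.2.2.2 ≤ p.1.2.2.2 / (4 * 2 ^ n) ∧
      (∀ x x' : H, ‖x - x'‖ ≤ Real.sqrt q.1.2.2.2 → ‖p.1.2.1 x - p.1.2.1 x'‖ ≤ 1 / (n + 1)) ∧
      StepRel c (1 / (n + 1)) q.1.2.2.2 p.1.1 p.1.2.1 p.1.2.2.1 q.1.1 q.1.2.1 q.1.2.2.1 := by
    rintro n ⟨⟨f, T, t, σ⟩, hst, hσ, hσ1⟩
    simp only at hst hσ hσ1 ⊢
    have hn : (0 : ℝ) < 1 / ((n : ℝ) + 1) := by positivity
    obtain ⟨ρ, hρ, hρT⟩ := Metric.uniformContinuous_iff.mp hst.ucT (1 / ((n : ℝ) + 1)) hn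
    have hε : 0 < min (σ / (4 * 2 ^ n)) (min (ρ ^ 2) 1) := by
      refine lt_min (by positivity) (lt_min (by positivity) one_pos)
    obtain ⟨σ', hσ', hσε, f', T', t', hst', hrel⟩ := hstep n f T t hst _ _ hε hn
    have h1 : σ' < σ / (4 * 2 ^ n) := lt_of_lt_of_le hσε (min_le_left _ _)
    have h2 : σ' < ρ ^ 2 := lt_of_lt_of_le hσε ((min_le_right _ _).trans (min_le_left _ _))
    have h3 : σ' < 1 := lt_of_lt_of_le hσε ((min_le_right _ _).trans (min_le_right _ _))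
    refine ⟨⟨⟨f', T', t', σ'⟩, hst', hσ', h3.le⟩, h1.le, ?_, hrel⟩
    intro x x' hx
    have h4 : Real.sqrt σ' < ρ := by
      rw [Real.sqrt_lt' hρ]
      exact h2
    have h5 : dist x x' < ρ := by
      rw [dist_eq_norm]
      exact lt_of_le_of_lt hx h4
    have h6 := hρT h5
    rw [dist_eq_norm] at h6
    exact h6.le
  choose nxt hnxt using key
  let p0 : S 0 := ⟨⟨fun _ _ => 0, fun _ _ => 0, fun _ => 0, 1⟩, stage_zero, one_pos, le_refl _⟩
  let seq : ∀ n, S n := fun n => Nat.rec p0 (fun n p => nxt n p) n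
  have hseq : ∀ n, seq (n + 1) = nxt n (seq n) := fun n => rfl
  refine ⟨fun n => (seq n).1.1, fun n => (seq n).1.2.1, fun n => (seq n).1.2.2.1,
    fun n => (seq n).1.2.2.2, ?_, ?_, ?_, ?_, ?_, ?_⟩
  · intro n
    exact (seq n).2.1
  · intro n
    exact (seq n).2.2.1
  · intro n
    exact (seq n).2.2.2
  · intro n
    have := (hnxt n (seq n)).1
    rw [← hseq n] at this
    exact this
  · intro n x x' hx
    have := (hnxt n (seq n)).2.1
    rw [← hseq n] at this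
    exact this x x' hx
  · intro n
    have := (hnxt n (seq n)).2.2
    rw [← hseq n] at this
    exact this

end Pool.Agent.LipThree
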