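import Pool.Agent.Lib.LipThree.NonDiff
import Pool.Agent.Lib.LipThree.Step
import Pool.Agent.Lib.LipThree.Seq
import Pool.Agent.Lib.LipThree.L2A
import Pool.Agent.Lib.LipThree.L2B

/-! MP_31d174_an (LipThree): the theorem for `ℓ²`. -/

set_option autoImplicit false

namespace Pool.Agent.LipThree

/-- There are three `1`-Lipschitz functions on `ℓ²` without a common point of Fréchet
differentiability. -/
theorem main : ∃ F : Fin 3 → lp (fun _ : ℕ => ℝ) 2 → ℝ, (∀ i, LipschitzWith 1 (F i)) ∧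
    ∀ x, ¬ (∀ i, DifferentiableAt ℝ (F i) x) := by
  obtain ⟨z, hz⟩ := l2_dense
  obtain ⟨c, hc, hstep⟩ := step l2_inf z hz
  obtain ⟨f, T, t, σ, hs⟩ := exists_seq hstep
  exact nowhere_diff hc hs

end Pool.Agent.LipThree
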