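import Pool.Agent.Lib.LipThree.Base
import Pool.Agent.Lib.LipThree.SeqDef

/-! MP_31d174_an (LipThree): Visits -/

set_option autoImplicit false

open scoped BigOperators
open Matrix

namespace Pool.Agent.LipThree

variable {H : Type*} [NormedAddCommGroup H] [InnerProductSpace ℝ H]

variable {c : ℝ} {f : ℕ → Fin 3 → H → ℝ} {T : ℕ → H → Fin 3 → H} {t : ℕ → H → ℝ} {σ : ℕ → ℝ}

/-- If `t n x` is unbounded then it visits `(4k-1/2, 4k+1/2]` and, at a moment when it increases,
`(4k+3/2, 4k+5/2]`, for arbitrarily large `k`; `t n x ≤ n` gives that the moments are large. -/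
theorem visits (hs : SeqData c f T t σ) (x : H) (hunb : ∀ M : ℝ, ∃ n, M < t n x) (ℓ : ℝ) (hℓ : 0 < ℓ) :
    ∃ n : ℕ, ℓ - 1 ≤ n ∧ ℓ - 1 < t n x ∧ t n x ≤ ℓ ∧ t n x < t (n + 1) x := by
  classical
  have hex : ∃ n, ℓ < t n x := hunb ℓ
  have hN := Nat.find_spec hex
  have hmin := fun m (hm : m < Nat.find hex) => Nat.find_min hex hm
  set N := Nat.find hex with hNdef
  have h0 : t 0 x ≤ 0 := by
    have := (hs.stage 0).tn x
    simpa using this
  rcases Nat.eq_zero_or_pos N with hz | hpos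
  · rw [hz] at hN
    linarith
  · obtain ⟨n, hn⟩ : ∃ n, N = n + 1 := ⟨N - 1, by omega⟩
    have h1 : ¬ (ℓ < t n x) := hmin n (by omega)
    have h2 : t n x ≤ ℓ := not_lt.mp h1
    have h3 := (hs.rel n).inc x
    have h4 := (hs.stage n).tn x
    rw [hn] at hN
    refine ⟨n, by linarith, by linarith, h2, by linarith⟩

end Pool.Agent.LipThree
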