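import Pool.Agent.Lib.LipThree.Base
import Pool.Agent.Lib.LipThree.LimitA
import Pool.Agent.Lib.LipThree.LimitB
import Pool.Agent.Lib.LipThree.LimitC
import Pool.Agent.Lib.LipThree.Visits
import Pool.Agent.Lib.LipThree.Thr
import Pool.Agent.Lib.LipThree.ConA

/-! MP_31d174_an (LipThree): NonDiff -/

set_option autoImplicit false

open scoped BigOperators
open Matrix

namespace Pool.Agent.LipThree

variable {H : Type*} [NormedAddCommGroup H] [InnerProductSpace ℝ H]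

variable {c : ℝ} {f : ℕ → Fin 3 → H → ℝ} {T : ℕ → H → Fin 3 → H} {t : ℕ → H → ℝ} {σ : ℕ → ℝ}

private theorem no_bounded (hc : 0 < c) (hs : SeqData c f T t σ) {F : Fin 3 → H → ℝ}
    (hF : ∀ n i x, |F i x - f n i x| ≤ 2 * σ (n + 1)) {x : H}
    (hx : ∀ i, DifferentiableAt ℝ (F i) x) (M : ℝ) (hM : ∀ n, t n x ≤ M) : False := by
  have hd0 : 0 < Real.exp (-M) / 2 := by positivity
  obtain ⟨N, hN⟩ := no_second_diff hs hF hx (e := c * (Real.exp (-M) / 2) ^ 2) (by positivity)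
  obtain ⟨p, h, i, hp, hh, hv⟩ := (hs.rel N).vis x
  have h1 := hN N le_rfl p h i hp hh
  obtain ⟨η, hη, hpot⟩ := (hs.stage N).pot
  have h2 := hpot x
  have h3 : Real.exp (-M) ≤ Real.exp (-t N x) := Real.exp_le_exp.mpr (by linarith [hM N])
  have h4 : Real.exp (-M) / 2 ≤ Dd (T N x) := by linarith
  have h5 : (Real.exp (-M) / 2) ^ 2 ≤ Dd (T N x) ^ 2 := by gcongr
  have hσ := hs.σpos (N + 1)
  have h6 : c * (Real.exp (-M) / 2) ^ 2 * σ (N + 1) ≤ c * Dd (T N x) ^ 2 * σ (N + 1) := by gcongr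
  linarith

theorem nowhere_diff [CompleteSpace H] (hc : 0 < c) (hs : SeqData c f T t σ) :
    ∃ F : Fin 3 → H → ℝ, (∀ i, LipschitzWith 1 (F i)) ∧
      ∀ x, ¬ (∀ i, DifferentiableAt ℝ (F i) x) := by
  obtain ⟨F, hlip, hF⟩ := exists_limit hs
  refine ⟨F, hlip, fun x hx => ?_⟩
  obtain ⟨A, hA⟩ := T_tendsto hs hF hx
  have hD : Filter.Tendsto (fun n => Dl (T n x)) Filter.atTop (nhds (Dl A)) :=
    (Dl_continuous.tendsto A).comp hA
  have hunb : ∀ M : ℝ, ∃ n, M < t n x := by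
    by_contra hcon
    push Not at hcon
    obtain ⟨M, hM⟩ := hcon
    exact no_bounded hc hs hF hx M hM
  obtain ⟨N0, hN0⟩ := no_second_diff hs hF hx (e := c) hc
  -- large n : `Dl ≥ thr - 1/(n+1)`
  have hlow : ∀ n ≥ N0, thr (t n x) - 1 / (n + 1) ≤ Dl (T n x) := by
    intro n hn
    by_contra hcon
    push Not at hcon
    obtain ⟨p, h, i, hp, hh, hv⟩ := (hs.rel n).visC x hcon
    have := hN0 n hn p h i hp hh
    linarith
  -- convergence
  have hD' := hD
  rw [Metric.tendsto_atTop] at hD'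
  obtain ⟨N1, hN1⟩ := hD' (1 / 4 / 192) (by norm_num)
  obtain ⟨N2, hN2⟩ : ∃ N2 : ℕ, (1 : ℝ) / (N2 + 1) < 1 / 16 / 192 :=
    exists_nat_one_div_lt (by norm_num)
  set K : ℕ := max N0 (max N1 N2) + 1 with hK
  have hK0 : N0 ≤ K := le_trans (le_max_left _ _) (Nat.le_succ _)
  have hK1 : N1 ≤ K := le_trans (le_trans (le_max_left _ _) (le_max_right _ _)) (Nat.le_succ _)
  have hK2 : N2 ≤ K := le_trans (le_trans (le_max_right _ _) (le_max_right _ _)) (Nat.le_succ _)
  have hKpos : (1 : ℝ) ≤ K := by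
    have : 1 ≤ K := Nat.le_add_left _ _
    exact_mod_cast this
  -- first visit
  obtain ⟨n, hn1, hn2, hn3, -⟩ := visits hs x hunb (4 * K + 1 / 2) (by positivity)
  have hnK : K ≤ n := by
    have : (K : ℝ) ≤ n := by linarith
    exact_mod_cast this
  have a1 := thr_high K (t := t n x) (by rw [abs_le]; constructor <;> linarith)
  have a2 := hlow n (le_trans hK0 hnK)
  have a3 := hN1 n (le_trans hK1 hnK)
  have a4 : (1 : ℝ) / (n + 1) ≤ 1 / (N2 + 1) := by
    have : (N2 : ℝ) ≤ n := by exact_mod_cast le_trans hK2 hnK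
    gcongr
  rw [Real.dist_eq, abs_lt] at a3
  -- second visit
  obtain ⟨m, hm1, hm2, hm3, hm4⟩ := visits hs x hunb (4 * K + 5 / 2) (by positivity)
  have hmK : K ≤ m := by
    have : (K : ℝ) ≤ m := by linarith
    exact_mod_cast this
  have b1 := thr_low K (t := t m x) (by rw [abs_le]; constructor <;> linarith)
  have b2 := (hs.rel m).touch x hm4
  have b3 := hN1 m (le_trans hK1 hmK)
  have b4 : (1 : ℝ) / (m + 1) ≤ 1 / (N2 + 1) := by
    have : (N2 : ℝ) ≤ m := by exact_mod_cast le_trans hK2 hmK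
    gcongr
  rw [Real.dist_eq, abs_lt] at b3
  linarith [a3.1, a3.2, b3.1, b3.2]

end Pool.Agent.LipThree
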